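import Pool.Agent.MP_48470b_gt.Sph.Defs

/-! The mean over the sphere of an invariant function as an integral over a cone. -/

set_option autoImplicit false
set_option maxHeartbeats 400000
open MeasureTheory Set Filter Topology
open scoped Pointwise

namespace Pool.Agent.MP_48470b_gt.Gap
open Sph

lemma pr_meas : Measurable pr := by
  refine measurable_of_continuousOn_compl_singleton 0 ?_
  rw [Topology.IsInducing.subtypeVal.continuousOn_iff]
  refine ContinuousOn.congr (f := fun x : E4 => ‖x‖⁻¹ • x) (fun x hx => ?_) fun x hx => pr_val hx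
  exact (contDiffAt_unit hx).continuousAt.continuousWithinAt

lemma hom_meas (u : R) : Measurable (hom u) := u.continuous.measurable.comp pr_meas

lemma hom_bdd (u : R) : ∃ M, ∀ x, |hom u x| ≤ M := by
  obtain ⟨M, hM⟩ := isCompact_univ.exists_bound_of_continuousOn u.continuous.continuousOn
  exact ⟨M, fun x => hM _ (mem_univ _)⟩

lemma toSphere_eq : (volume : Measure E4).toSphere =
    (4 : ENNReal) • (volume.restrict (Metric.ball (0 : E4) 1)).map pr := by
  ext s hs
  rw [Measure.toSphere_apply' _ hs, Measure.smul_apply, Measure.map_apply pr_meas hs,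
    Measure.restrict_apply (pr_meas hs), smul_eq_mul, finrank_euclideanSpace_fin,
    ← measure_sdiff_null (s := pr ⁻¹' s ∩ Metric.ball 0 1) (measure_singleton (0 : E4))]
  have : Ioo (0 : ℝ) 1 • ((↑) '' s : Set E4) = (pr ⁻¹' s ∩ Metric.ball 0 1) \ {0} := by
    ext x
    constructor
    · rintro ⟨t, ht, _, ⟨y, hy, rfl⟩, rfl⟩
      refine ⟨⟨?_, ?_⟩, smul_ne_zero ht.1.ne' (S3.ne y)⟩
      · change pr (t • (y : E4)) ∈ s
        rwa [pr_smul ht.1, pr_coe]
      · simpa [norm_smul, abs_of_pos ht.1] using ht.2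
    · rintro ⟨⟨h1, h2⟩, h3⟩
      have h4 : 0 < ‖x‖ := norm_pos_iff.2 h3
      refine ⟨‖x‖, ⟨h4, by simpa using h2⟩, _, ⟨pr x, h1, rfl⟩, ?_⟩
      simp only [pr_val h3, smul_smul, mul_inv_cancel₀ h4.ne', one_smul]
  rw [this]; rfl

lemma vol_ball : (volume : Measure E4).real (Metric.ball 0 1) = Real.pi ^ 2 / 2 := by
  rw [Measure.real, InnerProductSpace.volume_ball_of_dim_even (k := 2) (by simp)]
  simp only [ENNReal.ofReal_one, one_pow, one_mul]
  rw [ENNReal.toReal_ofReal (by positivity)]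
  norm_num [Nat.factorial]

lemma I_ball (u : R) :
    I u = 2 / Real.pi ^ 2 * ∫ x, (Metric.ball (0 : E4) 1).indicator (hom u) x := by
  rw [I_def, sig, integral_smul_measure, ENNReal.toReal_inv, ← Measure.real,
    Measure.toSphere_real_apply_univ, vol_ball, toSphere_eq, integral_smul_measure,
    integral_map pr_meas.aemeasurable u.continuous.aestronglyMeasurable,
    integral_indicator Metric.isOpen_ball.measurableSet, finrank_euclideanSpace_fin]
  simp only [smul_eq_mul, ENNReal.toReal_ofNat, Nat.cast_ofNat, hom]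
  field_simp

lemma fold {ι : Type*} [Fintype ι] (g : ι → E4 ≃ₗᵢ[ℝ] E4) {F : E4 → ℝ} (hF : Integrable F)
    (hg : ∀ i x, F (g i x) = F x) {C : Set E4} (hC : MeasurableSet C)
    (h1 : ∀ᵐ x : E4, ∑ i, C.indicator (fun _ => (1 : ℝ)) (g i x) = 1) :
    ∫ x, F x = Fintype.card ι * ∫ x, C.indicator F x := by
  have h2 : ∀ i, ∫ x, C.indicator F (g i x) = ∫ x, C.indicator F x := fun i =>
    (g i).measurePreserving.integral_comp (g i).toHomeomorph.measurableEmbedding _
  have h3 : ∀ i, Integrable fun x => C.indicator F (g i x) := fun i =>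
    (g i).measurePreserving.integrable_comp_of_integrable (hF.indicator hC)
  rw [← nsmul_eq_mul, ← Finset.card_univ, ← Finset.sum_const]
  rw [← Finset.sum_congr rfl fun i _ => h2 i, ← integral_finsetSum _ fun i _ => h3 i]
  refine integral_congr_ae (h1.mono fun x hx => ?_)
  rw [← mul_one (F x), ← hx, Finset.mul_sum]
  refine Finset.sum_congr rfl fun i _ => ?_
  by_cases h : g i x ∈ C <;> simp [h, hg]

lemma ae_ne (L : E4 →ₗ[ℝ] ℝ) (x0 : E4) (h : L x0 ≠ 0) : ∀ᵐ x : E4, L x ≠ 0 := by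
  have := Measure.addHaar_submodule (volume : Measure E4) L.ker fun e =>
    h (LinearMap.mem_ker.1 (e ▸ Submodule.mem_top))
  exact measure_eq_zero_iff_ae_notMem.1 this

/-- `g` is a signed permutation of the coordinates -/
def SP (g : E4 ≃ₗᵢ[ℝ] E4) : Prop :=
  ∃ (σ : Equiv.Perm (Fin 4)) (ε : Fin 4 → ℝ), (∀ i, ε i = 1 ∨ ε i = -1) ∧
    ∀ x i, g x i = ε i * x (σ i)

lemma ex_SP (σ : Equiv.Perm (Fin 4)) (ε : Fin 4 → ℝ) (h : ∀ i, ε i = 1 ∨ ε i = -1) :
    ∃ g : E4 ≃ₗᵢ[ℝ] E4, SP g ∧ ∀ x i, g x i = ε i * x (σ i) := by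
  have : ∃ g : E4 ≃ₗᵢ[ℝ] E4, ∀ x i, g x i = ε i * x (σ i) := by
    refine ⟨(LinearIsometryEquiv.piLpCongrLeft 2 ℝ ℝ σ.symm).trans
      (LinearIsometryEquiv.piLpCongrRight 2 fun i =>
        if ε i = 1 then .refl ℝ ℝ else .neg ℝ), fun x i => ?_⟩
    rcases h i with e | e
    · simp [e, Equiv.piCongrLeft']
    · simp [e, show (-1 : ℝ) ≠ 1 by norm_num, Equiv.piCongrLeft']
  obtain ⟨g, hg⟩ := this
  exact ⟨g, ⟨σ, ε, h, hg⟩, hg⟩

lemma coord_meas (k : Fin 4) : Measurable fun x : E4 => x k := by fun_prop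

/-- folding along a sign change -/
lemma fold_flip (k : Fin 4) {F : E4 → ℝ} (hF : Integrable F)
    (hg : ∀ x y : E4, y k = -x k → (∀ i, i ≠ k → y i = x i) → F y = F x) :
    ∫ x, F x = 2 * ∫ x, {x : E4 | 0 < x k}.indicator F x := by
  obtain ⟨g, -, h⟩ := ex_SP 1 (fun i => if i = k then -1 else 1) fun i => by
    split_ifs <;> simp
  have := fold ![LinearIsometryEquiv.refl ℝ E4, g] hF (C := {x : E4 | 0 < x k}) (fun i x => by
    fin_cases i
    · rfl
    · exact hg x _ (by simp [h]) fun i hi => by simp [h, hi])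
    (measurableSet_lt measurable_const (coord_meas k)) (by
      filter_upwards [ae_ne (EuclideanSpace.projₗ k) (EuclideanSpace.single k 1) (by simp)]
        with x hx
      have hx' : x k ≠ 0 := hx
      rw [Fin.sum_univ_two]
      rcases lt_or_gt_of_ne hx' with c | c <;> simp [indicator, h, c, not_lt.2 c.le])
  simpa using this

/-- the last coordinate is the largest in absolute value -/
def Top : Set E4 := {x | |x 0| < |x 3| ∧ |x 1| < |x 3| ∧ |x 2| < |x 3|}

lemma Top_meas : MeasurableSet Top :=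
  (measurableSet_lt (coord_meas 0).abs (coord_meas 3).abs).inter
    ((measurableSet_lt (coord_meas 1).abs (coord_meas 3).abs).inter
      (measurableSet_lt (coord_meas 2).abs (coord_meas 3).abs))

lemma ae_abs_ne (i j : Fin 4) (h : i ≠ j) : ∀ᵐ x : E4, |x i| ≠ |x j| := by
  filter_upwards [ae_ne (EuclideanSpace.projₗ i - EuclideanSpace.projₗ j)
      (EuclideanSpace.single i 1) (by simp [h.symm]),
    ae_ne (EuclideanSpace.projₗ i + EuclideanSpace.projₗ j)
      (EuclideanSpace.single i 1) (by simp [h.symm])] with x h1 h2 e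
  rcases abs_eq_abs.1 e with c | c
  · exact h1 (by simp [c])
  · exact h2 (by simp [c])

lemma one_max (a b c d : ℝ) (h1 : a ≠ b) (h2 : a ≠ c) (h3 : a ≠ d) (h4 : b ≠ c) (h5 : b ≠ d)
    (h6 : c ≠ d) : (if d < a ∧ b < a ∧ c < a then (1 : ℝ) else 0) +
      (if a < b ∧ d < b ∧ c < b then 1 else 0) + (if a < c ∧ b < c ∧ d < c then 1 else 0) +
      (if a < d ∧ b < d ∧ c < d then 1 else 0) = 1 := by
  split_ifs <;> grind

lemma fold_top {F : E4 → ℝ} (hF : Integrable F) (hg : ∀ g, SP g → ∀ x, F (g x) = F x) :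
    ∫ x, F x = 4 * ∫ x, Top.indicator F x := by
  choose g g1 g2 using fun k : Fin 4 => ex_SP (Equiv.swap k 3) (fun _ => 1) fun _ => .inl rfl
  have := fold g hF (fun k => hg _ (g1 k)) Top_meas (by
    filter_upwards [ae_abs_ne 0 1 (by decide), ae_abs_ne 0 2 (by decide), ae_abs_ne 0 3 (by decide),
      ae_abs_ne 1 2 (by decide), ae_abs_ne 1 3 (by decide), ae_abs_ne 2 3 (by decide)]
      with x h1 h2 h3 h4 h5 h6
    have := one_max _ _ _ _ h1 h2 h3 h4 h5 h6
    rw [Fin.sum_univ_four]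
    simpa [indicator, Top, g2, Equiv.swap_apply_def] using this)
  simpa using this

/-- the cone over the cube, cut by the unit ball -/
def Cone : Set E4 :=
  {x | 0 < x 0 ∧ 0 < x 1 ∧ 0 < x 2 ∧ 0 < x 3 ∧ x 0 < x 3 ∧ x 1 < x 3 ∧ x 2 < x 3 ∧ ‖x‖ < 1}

lemma ball_cone {h : E4 → ℝ} (hm : Measurable h) {M : ℝ} (hM : ∀ x, |h x| ≤ M)
    (hg : ∀ g, SP g → ∀ x, h (g x) = h x) :
    ∫ x, (Metric.ball (0 : E4) 1).indicator h x = 64 * ∫ x, Cone.indicator h x := by
  have i0 : Integrable ((Metric.ball (0 : E4) 1).indicator h) := by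
    rw [integrable_indicator_iff Metric.isOpen_ball.measurableSet]
    exact Measure.integrableOn_of_bounded measure_ball_lt_top.ne hm.aestronglyMeasurable
      (Eventually.of_forall hM)
  have g0 : ∀ g, SP g → ∀ x, (Metric.ball (0 : E4) 1).indicator h (g x) =
      (Metric.ball (0 : E4) 1).indicator h x := fun g hs x => by
    simp [indicator, hg g hs]
  have mk := fun k => measurableSet_lt (measurable_const (a := (0 : ℝ))) (coord_meas k)
  have fl : ∀ (k : Fin 4) (x y : E4), y k = -x k → (∀ i, i ≠ k → y i = x i) →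
      Top.indicator ((Metric.ball (0 : E4) 1).indicator h) y =
        Top.indicator ((Metric.ball (0 : E4) 1).indicator h) x := by
    intro k x y h1 h2
    obtain ⟨g, gs, e⟩ := ex_SP 1 (fun i => if i = k then -1 else 1) fun i => by
      split_ifs <;> simp
    have e1 : y = g x := by
      ext i
      by_cases c : i = k
      · simp [e, c, h1]
      · simp [e, c, h2 i c]
    have e2 : ∀ i, |y i| = |x i| := fun i => by
      by_cases c : i = k
      · rw [c, h1, abs_neg]
      · rw [h2 i c]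
    have e3 : y ∈ Top ↔ x ∈ Top := by simp only [Top, mem_ofPred_eq, e2]
    by_cases c : x ∈ Top
    · rw [indicator_of_mem c, indicator_of_mem (e3.2 c), e1, g0 g gs]
    · rw [indicator_of_notMem c, indicator_of_notMem (mt e3.1 c)]
  have i1 := i0.indicator Top_meas
  rw [fold_top i0 g0, fold_flip 0 i1 (fl 0),
    fold_flip 1 (i1.indicator (mk 0)) fun x y h1 h2 => by
      simp only [indicator_apply (s := {x : E4 | 0 < x _}), mem_ofPred_eq, h2 0 (by decide),
        fl 1 x y h1 h2],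
    fold_flip 2 ((i1.indicator (mk 0)).indicator (mk 1)) fun x y h1 h2 => by
      simp only [indicator_apply (s := {x : E4 | 0 < x _}), mem_ofPred_eq, h2 0 (by decide),
        h2 1 (by decide), fl 2 x y h1 h2],
    fold_flip 3 (((i1.indicator (mk 0)).indicator (mk 1)).indicator (mk 2)) fun x y h1 h2 => by
      simp only [indicator_apply (s := {x : E4 | 0 < x _}), mem_ofPred_eq, h2 0 (by decide),
        h2 1 (by decide), h2 2 (by decide), fl 3 x y h1 h2]]
  simp only [indicator_indicator]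
  have : {x : E4 | 0 < x 3} ∩ ({x : E4 | 0 < x 2} ∩ ({x : E4 | 0 < x 1} ∩ ({x : E4 | 0 < x 0} ∩
      (Top ∩ Metric.ball 0 1)))) = Cone := by
    ext x
    simp only [Top, Cone, mem_inter_iff, mem_ofPred_eq, mem_ball_zero_iff]
    constructor
    · rintro ⟨a3, a2, a1, a0, ⟨b0, b1, b2⟩, c⟩
      rw [abs_of_pos a3] at b0 b1 b2
      exact ⟨a0, a1, a2, a3, lt_of_abs_lt b0, lt_of_abs_lt b1, lt_of_abs_lt b2, c⟩
    · rintro ⟨a0, a1, a2, a3, b0, b1, b2, c⟩
      rw [abs_of_pos a0, abs_of_pos a1, abs_of_pos a2, abs_of_pos a3]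
      exact ⟨a3, a2, a1, a0, ⟨b0, b1, b2⟩, c⟩
  rw [← this]
  ring

end Pool.Agent.MP_48470b_gt.Gap
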