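import Mathlib

/-! Definitions of the chart form of the eigenvalue count. -/

set_option autoImplicit false

namespace Pool.Agent.MP_48470b_gt.Gap

/-- chart points -/
abbrev P3 := ℝ × ℝ × ℝ

/-- the box `[a, b]^3` -/
def Box (a b : ℝ) (t : P3) : Prop :=
  (a ≤ t.1 ∧ t.1 ≤ b) ∧ (a ≤ t.2.1 ∧ t.2.1 ≤ b) ∧ (a ≤ t.2.2 ∧ t.2.2 ≤ b)

/-- symmetry under the permutations of the three coordinates -/
def Sym3 (w : P3 → ℝ) : Prop :=
  (∀ x y z, w (x, y, z) = w (y, x, z)) ∧ ∀ x y z, w (x, y, z) = w (x, z, y)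

/-- `w1 w2 w3` are continuous and they are the three directional derivatives of `w` -/
structure Grad (w w1 w2 w3 : P3 → ℝ) : Prop where
  c0 : Continuous w
  c1 : Continuous w1
  c2 : Continuous w2
  c3 : Continuous w3
  d1 : ∀ x y z, HasDerivAt (fun s => w (s, y, z)) (w1 (x, y, z)) x
  d2 : ∀ x y z, HasDerivAt (fun s => w (x, s, z)) (w2 (x, y, z)) y
  d3 : ∀ x y z, HasDerivAt (fun s => w (x, y, s)) (w3 (x, y, z)) z

/-- the quadratic form with entries `b 0 .. b 5` = `11, 22, 33, 12, 13, 23` -/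
def qf (b : ℕ → ℝ) (p q r : ℝ) : ℝ :=
  b 0 * p ^ 2 + b 1 * q ^ 2 + b 2 * r ^ 2 + 2 * (b 3 * p * q + b 4 * p * r + b 5 * q * r)

/-- the affine function with coefficients `x 0 .. x 3` -/
def aff (x : ℕ → ℝ) (t : P3) : ℝ := x 0 + x 1 * t.1 + x 2 * t.2.1 + x 3 * t.2.2

/-- **The count.** On a subspace of codimension at most four the form with inverse metric dual to
`bb` and potential `vv` is nonnegative on symmetric functions. -/
def Count (bb : ℕ → P3 → ℝ) (vv : P3 → ℝ) : Prop :=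
  ∃ l : Fin 4 → C(P3, ℝ) →ₗ[ℝ] ℝ, ∀ (w : C(P3, ℝ)) (w1 w2 w3 G : P3 → ℝ), Grad w w1 w2 w3 →
    Continuous G → Sym3 w → Sym3 G →
    (∀ ξ, Box 0 1 ξ → ∀ p q r : ℝ, 2 * (p * w1 ξ + q * w2 ξ + r * w3 ξ) -
      qf (fun e => bb e ξ) p q r - vv ξ * w ξ ^ 2 ≤ G ξ) →
    (∀ k, l k w = 0) →
    0 ≤ ∫ a in (0 : ℝ)..1, ∫ b in (0 : ℝ)..1, ∫ c in (0 : ℝ)..1, G (a, b, c)

/-- the affine map of `[-1, 1]` onto `[br i / D, br (i + 1) / D]` -/
noncomputable def c1 (D : ℕ) (br : ℕ → ℕ) (i : ℕ) (x : ℝ) : ℝ :=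
  ((br i : ℝ) + br (i + 1) + ((br (i + 1) : ℝ) - br i) * x) / (2 * D)

/-- the affine map of `[-1, 1]^3` onto the cell `i, j, k` of the grid with break points `br / D` -/
noncomputable def cm (D : ℕ) (br : ℕ → ℕ) (i j k : ℕ) (t : P3) : P3 :=
  (c1 D br i t.1, c1 D br j t.2.1, c1 D br k t.2.2)

/-- a grid with `n` steps -/
structure Grid (n D : ℕ) (br : ℕ → ℕ) : Prop where
  h0 : br 0 = 0
  hn : br n = D
  pos : 0 < D
  lt : ∀ i < n, br i < br (i + 1)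

/-- the signed 32 bit field `s` of the word `w` -/
def dat (w s : ℕ) : ℤ := ((w / 2 ^ (32 * s) % 2 ^ 32 : ℕ) : ℤ) - 2 ^ 31

/-- **Enclosure on one cell.** Fields `5 e .. 5 e + 3` of the word are the coefficients of the
affine approximation of entry `e < 6`, field `5 e + 4` is its error, fields `30 .. 33` give an
affine upper bound of the potential; all in units of `2 ^ (-20)`. -/
def CellOK (D : ℕ) (br : ℕ → ℕ) (bb : ℕ → P3 → ℝ) (vv : P3 → ℝ) (w i j k : ℕ) : Prop :=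
  ∀ t, Box (-1) 1 t →
    (∀ e < 6, |2 ^ 20 * bb e (cm D br i j k t) - aff (fun c => (dat w (5 * e + c) : ℝ)) t| ≤
      (dat w (5 * e + 4) : ℝ)) ∧
    2 ^ 20 * vv (cm D br i j k t) ≤ aff (fun c => (dat w (30 + c) : ℝ)) t

/-- mean over `[-1, 1]^3` -/
noncomputable def T3 (φ : P3 → ℝ) : ℝ :=
  1 / 8 * ∫ x in (-1 : ℝ)..1, ∫ y in (-1 : ℝ)..1, ∫ z in (-1 : ℝ)..1, φ (x, y, z)

/-- mean over `[-1, 1]^2` -/
noncomputable def T2 (φ : ℝ → ℝ → ℝ) : ℝ :=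
  1 / 4 * ∫ y in (-1 : ℝ)..1, ∫ z in (-1 : ℝ)..1, φ y z

/-- the means over the six faces of `[-1, 1]^3` -/
noncomputable def fav (w : P3 → ℝ) : ℕ → ℝ
  | 0 => T2 fun y z => w (-1, y, z)
  | 1 => T2 fun y z => w (1, y, z)
  | 2 => T2 fun x z => w (x, -1, z)
  | 3 => T2 fun x z => w (x, 1, z)
  | 4 => T2 fun x y => w (x, y, -1)
  | _ => T2 fun x y => w (x, y, 1)

/-- 45 times a bound of the mean of the flux energy -/
def MF (b : ℕ → ℕ → ℝ) (u : ℕ → ℝ) : ℝ :=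
  45 * qf (fun e => b e 0) (u 0) (u 1) (u 2) +
  30 * (u 3 * (b 0 1 * u 0 + b 3 1 * u 1 + b 4 1 * u 2) +
        u 4 * (b 3 2 * u 0 + b 1 2 * u 1 + b 5 2 * u 2) +
        u 5 * (b 4 3 * u 0 + b 5 3 * u 1 + b 2 3 * u 2)) +
  (15 * b 0 0 + 4 * |b 0 1|) * u 3 ^ 2 + (15 * b 1 0 + 4 * |b 1 2|) * u 4 ^ 2 +
  (15 * b 2 0 + 4 * |b 2 3|) * u 5 ^ 2

/-- the lower bound on a cell: `s` are the face means, `m` is the mean, `u` the flux -/
def low (c σ : ℝ) (b : ℕ → ℕ → ℝ) (v s : ℕ → ℝ) (m : ℝ) (u : ℕ → ℝ) : ℝ :=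
  45 * c * (u 0 * (s 1 - s 0) + u 1 * (s 3 - s 2) + u 2 * (s 5 - s 4) +
    u 3 * (s 1 + s 0 - 2 * m) + u 4 * (s 3 + s 2 - 2 * m) + u 5 * (s 5 + s 4 - 2 * m)) -
  σ * MF b u - 15 * c * m * (v 1 * (s 1 - s 0) + v 2 * (s 3 - s 2) + v 3 * (s 5 - s 4)) -
  (σ * ((b 0 0 + |b 0 1|) * v 1 ^ 2 + (b 1 0 + |b 1 2|) * v 2 ^ 2 + (b 2 0 + |b 2 3|) * v 3 ^ 2) +
    45 * c * v 0) * m ^ 2

/-- mean of `w` over the face `{br t / D} x cell a x cell b` -/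
noncomputable def fm (D : ℕ) (br : ℕ → ℕ) (t a b : ℕ) (w : P3 → ℝ) : ℝ :=
  T2 fun y z => w ((br t : ℝ) / D, c1 D br a y, c1 D br b z)

/-- the means of a symmetric function over the six faces of the cell `i, j, k` -/
noncomputable def cf (D : ℕ) (br : ℕ → ℕ) (i j k : ℕ) (w : P3 → ℝ) : ℕ → ℝ
  | 0 => fm D br i j k w
  | 1 => fm D br (i + 1) j k w
  | 2 => fm D br j i k w
  | 3 => fm D br (j + 1) i k w
  | 4 => fm D br k i j w
  | _ => fm D br (k + 1) i j w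

/-- the width of step `i` -/
def wd (br : ℕ → ℕ) (i : ℕ) : ℕ := br (i + 1) - br i

/-- the number of cells in the orbit of the sorted cell `i, j, k` -/
def mult (i j k : ℕ) : ℕ := if i = j then (if j = k then 1 else 3) else (if j = k then 3 else 6)

end Pool.Agent.MP_48470b_gt.Gap
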