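import Pool.Agent.MP_48470b_gt.Gap.G1a

/-! The chart formula: the mean of an invariant function as an integral over the unit cube. -/

set_option autoImplicit false
set_option maxHeartbeats 400000
open MeasureTheory Set Filter Topology

namespace Pool.Agent.MP_48470b_gt.Gap
open Sph

/-- coordinates with the last one singled out -/
noncomputable def ph (p : ℝ × ℝ × ℝ × ℝ) : E4 := !₂[p.2.1, p.2.2.1, p.2.2.2, p.1]

/-- the measurable equivalence behind `ph` -/
noncomputable def phE : E4 ≃ᵐ ℝ × ℝ × ℝ × ℝ :=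
  (MeasurableEquiv.toLp 2 (Fin 4 → ℝ)).symm.trans
    ((MeasurableEquiv.piFinSuccAbove (fun _ : Fin 4 => ℝ) 3).trans
      (MeasurableEquiv.prodCongr (MeasurableEquiv.refl ℝ)
        ((MeasurableEquiv.piFinSuccAbove (fun _ : Fin 3 => ℝ) 0).trans
          (MeasurableEquiv.prodCongr (MeasurableEquiv.refl ℝ) MeasurableEquiv.finTwoArrow))))

lemma phE_mp : MeasurePreserving phE :=
  (PiLp.volume_preserving_ofLp (Fin 4)).trans
    ((volume_preserving_piFinSuccAbove (fun _ : Fin 4 => ℝ) 3).trans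
      ((MeasurePreserving.id volume).prod
        ((volume_preserving_piFinSuccAbove (fun _ : Fin 3 => ℝ) 0).trans
          ((MeasurePreserving.id volume).prod (volume_preserving_finTwoArrow ℝ)))))

lemma ph_phE (x : E4) : ph (phE x) = x := by
  ext i; fin_cases i <;> rfl

lemma integral_ph (F : E4 → ℝ) : ∫ x, F x = ∫ p, F (ph p) := by
  rw [← phE_mp.integral_comp' fun p => F (ph p)]
  simp only [ph_phE]

lemma ph_cont : Continuous ph := by
  unfold ph
  refine (PiLp.continuous_toLp 2 _).comp (continuous_pi fun k => ?_)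
  fin_cases k <;> simp <;> fun_prop

lemma ph_smul (t : ℝ) (y : ℝ × ℝ × ℝ) : ph (t, t • y) = t • ph (1, y) := by
  ext i; fin_cases i <;> simp [ph]

lemma ph_nsq (y : ℝ × ℝ × ℝ) : ‖ph (1, y)‖ ^ 2 = 1 + y.1 ^ 2 + y.2.1 ^ 2 + y.2.2 ^ 2 := by
  rw [EuclideanSpace.real_norm_sq_eq, Fin.sum_univ_four]; simp [ph]; ring

lemma ph_ge (y : ℝ × ℝ × ℝ) : 1 ≤ ‖ph (1, y)‖ := by
  refine (pow_le_pow_iff_left₀ zero_le_one (norm_nonneg _) two_ne_zero).1 ?_
  rw [ph_nsq]; nlinarith [sq_nonneg y.1, sq_nonneg y.2.1, sq_nonneg y.2.2]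

lemma Cone_meas : MeasurableSet Cone := by
  unfold Cone; measurability

/-- the open unit cube -/
def Cube : Set (ℝ × ℝ × ℝ) := Ioo 0 1 ×ˢ Ioo 0 1 ×ˢ Ioo 0 1

lemma Cube_meas : MeasurableSet Cube :=
  measurableSet_Ioo.prod (measurableSet_Ioo.prod measurableSet_Ioo)

lemma mem_cone {t : ℝ} {y : ℝ × ℝ × ℝ} :
    t • ph (1, y) ∈ Cone ↔ y ∈ Cube ∧ t ∈ Ioo 0 ‖ph (1, y)‖⁻¹ := by
  have h0 : 0 < ‖ph (1, y)‖ := zero_lt_one.trans_le (ph_ge y)
  have e : ∀ t : ℝ, 0 < t → (‖t • ph (1, y)‖ < 1 ↔ t < ‖ph (1, y)‖⁻¹) := fun t ht => by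
    rw [norm_smul, Real.norm_of_nonneg ht.le, ← one_div, lt_div_iff₀ h0]
  have c0 : (t • ph (1, y)) 0 = t * y.1 := by simp [ph]
  have c1 : (t • ph (1, y)) 1 = t * y.2.1 := by simp [ph]
  have c2 : (t • ph (1, y)) 2 = t * y.2.2 := by simp [ph]
  have c3 : (t • ph (1, y)) 3 = t := by simp [ph]
  simp only [Cone, Cube, mem_ofPred_eq, c0, c1, c2, c3, mem_prod, mem_Ioo]
  constructor
  · rintro ⟨a0, a1, a2, a3, b0, b1, b2, c⟩
    exact ⟨⟨⟨(mul_pos_iff_of_pos_left a3).1 a0, (mul_lt_iff_lt_one_right a3).1 b0⟩,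
      ⟨(mul_pos_iff_of_pos_left a3).1 a1, (mul_lt_iff_lt_one_right a3).1 b1⟩,
      (mul_pos_iff_of_pos_left a3).1 a2, (mul_lt_iff_lt_one_right a3).1 b2⟩, a3, (e t a3).1 c⟩
  · rintro ⟨⟨⟨a0, b0⟩, ⟨a1, b1⟩, a2, b2⟩, a3, c⟩
    exact ⟨mul_pos a3 a0, mul_pos a3 a1, mul_pos a3 a2, a3, (mul_lt_iff_lt_one_right a3).2 b0,
      (mul_lt_iff_lt_one_right a3).2 b1, (mul_lt_iff_lt_one_right a3).2 b2, (e t a3).2 c⟩

lemma cone_cube {h : E4 → ℝ} (hm : Measurable h) {M : ℝ} (hM : ∀ x, |h x| ≤ M)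
    (hs : ∀ t : ℝ, 0 < t → ∀ x, h (t • x) = h x) :
    ∫ x, Cone.indicator h x = (∫ y in Cube, h (ph (1, y)) / (‖ph (1, y)‖ ^ 2) ^ 2) / 4 := by
  have i0 : Integrable (Cone.indicator h) := by
    rw [integrable_indicator_iff Cone_meas]
    refine Measure.integrableOn_of_bounded ?_ hm.aestronglyMeasurable (Eventually.of_forall hM)
    refine ((measure_mono fun x hx => ?_).trans_lt (measure_ball_lt_top (x := 0) (r := 1))).ne
    exact mem_ball_zero_iff.2 hx.2.2.2.2.2.2.2
  have i1 : Integrable fun p => Cone.indicator h (ph p) := by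
    rw [← phE_mp.integrable_comp_emb phE.measurableEmbedding]
    simpa only [Function.comp_def, ph_phE] using i0
  let K : ℝ → ℝ × ℝ × ℝ → ℝ := fun t y => t ^ 3 * Cone.indicator h (t • ph (1, y))
  have s1 : ∀ t, ∫ y, Cone.indicator h (ph (t, y)) = ∫ y, K t y := by
    intro t
    rcases le_or_gt t 0 with ht | ht
    · have a : ∀ y, ph (t, y) ∉ Cone := fun y hy => absurd hy.2.2.2.1 (not_lt.2 ht)
      have b : ∀ y, t • ph (1, y) ∉ Cone := fun y hy => absurd (mem_cone.1 hy).2.1 (not_lt.2 ht)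
      simp [K, a, b]
    · have : (volume : Measure (ℝ × ℝ)).IsAddHaarMeasure := Measure.prod.instIsAddHaarMeasure _ _
      have : (volume : Measure (ℝ × ℝ × ℝ)).IsAddHaarMeasure :=
        Measure.prod.instIsAddHaarMeasure _ _
      have := Measure.integral_comp_smul_of_nonneg (volume : Measure (ℝ × ℝ × ℝ))
        (fun y => Cone.indicator h (ph (t, y))) t (hR := ht.le)
      simp only [ph_smul, Module.finrank_prod, Module.finrank_self, smul_eq_mul] at this
      simp only [K]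
      rw [integral_const_mul, this]
      field_simp
  have i2 : Integrable (Function.uncurry K) := by
    have m1 : Measurable (Function.uncurry K) :=
      (measurable_fst.pow_const 3).mul ((hm.indicator Cone_meas).comp
        (measurable_fst.smul (ph_cont.measurable.comp (measurable_const.prodMk measurable_snd))))
    have f1 : (volume : Measure (ℝ × ℝ × ℝ × ℝ)) (Ioo 0 1 ×ˢ Cube) ≠ ⊤ := by
      simp [Cube, Measure.volume_eq_prod]
    refine Integrable.mono' ((integrable_indicator_iff (measurableSet_Ioo.prod Cube_meas)).2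
      (integrableOn_const (C := M) f1)) m1.aestronglyMeasurable (Eventually.of_forall fun p => ?_)
    by_cases c : p.1 • ph (1, p.2) ∈ Cone
    · obtain ⟨c1, c2, c3⟩ := mem_cone.1 c
      have c4 : p.1 < 1 := c3.trans_le (inv_le_one_of_one_le₀ (ph_ge _))
      rw [indicator_of_mem (show p ∈ Ioo 0 1 ×ˢ Cube from ⟨⟨c2, c4⟩, c1⟩)]
      simp only [Function.uncurry, K, indicator_of_mem c, norm_mul, Real.norm_eq_abs, abs_pow,
        abs_of_pos c2]
      exact (mul_le_of_le_one_left (abs_nonneg _) (pow_le_one₀ c2.le c4.le)).trans (hM _)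
    · simp only [Function.uncurry, K, indicator_of_notMem c, mul_zero, norm_zero]
      exact indicator_nonneg (fun _ _ => (abs_nonneg _).trans (hM 0)) _
  have s2 : ∀ y, ∫ t, K t y =
      Cube.indicator (fun y => h (ph (1, y)) / (‖ph (1, y)‖ ^ 2) ^ 2) y / 4 := by
    intro y
    have h0 : 0 < ‖ph (1, y)‖ := zero_lt_one.trans_le (ph_ge y)
    by_cases c : y ∈ Cube
    · have : ∀ t, K t y = (Ioo 0 ‖ph (1, y)‖⁻¹).indicator (fun t => t ^ 3 * h (ph (1, y))) t := by
        intro t
        by_cases d : t ∈ Ioo 0 ‖ph (1, y)‖⁻¹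
        · simp only [K, indicator_of_mem d, indicator_of_mem (mem_cone.2 ⟨c, d⟩), hs t d.1]
        · simp only [K, indicator_of_notMem d, indicator_of_notMem fun e => d (mem_cone.1 e).2,
            mul_zero]
      simp only [this]
      rw [integral_indicator measurableSet_Ioo, ← integral_Ioc_eq_integral_Ioo,
        ← intervalIntegral.integral_of_le (inv_pos.2 h0).le, intervalIntegral.integral_mul_const,
        integral_pow, indicator_of_mem c]
      norm_num
      field_simp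
    · simp only [K, indicator_of_notMem c, indicator_of_notMem fun e => c (mem_cone.1 e).1,
        mul_zero, integral_zero, zero_div]
  rw [integral_ph, Measure.volume_eq_prod, integral_prod _ i1]
  simp only [s1]
  rw [integral_integral_swap i2]
  simp only [s2]
  rw [integral_div, integral_indicator Cube_meas]

lemma cube_iter {φ : ℝ × ℝ × ℝ → ℝ} (hφ : Continuous φ) : ∫ y in Cube, φ y =
    ∫ a in (0 : ℝ)..1, ∫ b in (0 : ℝ)..1, ∫ c in (0 : ℝ)..1, φ (a, b, c) := by
  simp only [intervalIntegral.integral_of_le zero_le_one, integral_Ioc_eq_integral_Ioo]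
  rw [Cube, Measure.volume_eq_prod, setIntegral_prod]
  · refine setIntegral_congr_fun measurableSet_Ioo fun a _ => ?_
    simp only [Measure.volume_eq_prod]
    rw [setIntegral_prod]
    exact ((hφ.comp (Continuous.prodMk_right a)).continuousOn.integrableOn_compact
      (isCompact_Icc.prod isCompact_Icc)).mono_set
      (prod_mono Ioo_subset_Icc_self Ioo_subset_Icc_self)
  · exact (hφ.continuousOn.integrableOn_compact
      (isCompact_Icc.prod (isCompact_Icc.prod isCompact_Icc))).mono_set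
      (prod_mono Ioo_subset_Icc_self (prod_mono Ioo_subset_Icc_self Ioo_subset_Icc_self))

lemma ph_ne (y : ℝ × ℝ × ℝ) : ph (1, y) ≠ 0 := norm_pos_iff.1 (zero_lt_one.trans_le (ph_ge y))

lemma hom_ph_cont (u : R) : Continuous fun y : ℝ × ℝ × ℝ => hom u (ph (1, y)) :=
  continuous_iff_continuousAt.2 fun y => ContinuousAt.comp (f := fun y => ph (1, y))
    (u.sm (ph_ne y)).continuousAt (ph_cont.comp (Continuous.prodMk_right 1)).continuousAt

lemma hom_act (g : E4 ≃ₗᵢ[ℝ] E4) (u : R) {x : E4} (hx : x ≠ 0) :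
    hom (act g u) x = hom u (g x) := by
  have h1 : g x ≠ 0 := by simpa using hx
  simp only [hom, act_apply]
  refine congrArg u.1 (Subtype.ext ?_)
  rw [sph_coe, pr_val hx, pr_val h1, map_smul, g.norm_map]

/-- **G1, chart formula.** -/
theorem I_chart (u : R) (hu : ∀ g, SP g → act g u = u) :
    I u = 32 / Real.pi ^ 2 * ∫ a in (0 : ℝ)..1, ∫ b in (0 : ℝ)..1, ∫ c in (0 : ℝ)..1,
      hom u !₂[a, b, c, 1] / (1 + a ^ 2 + b ^ 2 + c ^ 2) ^ 2 := by
  obtain ⟨M, hM⟩ := hom_bdd u
  have hg : ∀ g, SP g → ∀ x, hom u (g x) = hom u x := fun g hs x => by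
    by_cases hx : x = 0
    · rw [hx, map_zero]
    · rw [← hom_act g u hx, hu g hs]
  rw [I_ball, ball_cone (hom_meas u) hM hg,
    cone_cube (hom_meas u) hM fun t ht x => by simp only [hom, pr_smul ht], cube_iter]
  · simp only [ph_nsq]
    simp only [ph]
    ring
  · exact (hom_ph_cont u).div (((ph_cont.comp (Continuous.prodMk_right 1)).norm.pow 2).pow 2)
      fun y => pow_ne_zero _ (pow_ne_zero _ (norm_ne_zero_iff.2 (ph_ne y)))

end Pool.Agent.MP_48470b_gt.Gap
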