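import Pool.Agent.MP_48470b_gt.Sph.B1

/-! Ground state transform and the pointwise dual bound in the chart. -/

set_option autoImplicit false
set_option maxHeartbeats 400000

namespace Pool.Agent.MP_48470b_gt.Gap
open Sph

/-- chain rule: chart derivatives through tangential derivatives -/
theorem chart_chain (f : Fin 4 → R) (dv : Fin 4 → R) (v : R)
    (hE : ∀ a, E a v = ∑ i, E a (f i) * dv i) {y : E4} (hy : y ≠ 0) (q : E4) :
    fderiv ℝ (hom v) y q = ∑ i, fderiv ℝ (hom (f i)) y q * hom (dv i) y := by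
  simp only [fderiv_hom_frame _ hy, hE, hom, R.sum_apply, R.mul_apply, Finset.mul_sum,
    Finset.sum_mul]
  rw [Finset.sum_comm]
  exact Finset.sum_congr rfl fun i _ => Finset.sum_congr rfl fun a _ => by ring

/-- **G1, dual bound.** -/
theorem dual_bound (f : Fin 4 → R) (dv : Fin 4 → R) (v : R)
    (hE : ∀ a, E a v = ∑ i, E a (f i) * dv i) {y : E4} (hy : y ≠ 0) (q : E4) :
    2 * fderiv ℝ (hom v) y q - ∑ k, fderiv ℝ (hom (f k)) y q ^ 2 ≤ ∑ i, hom (dv i) y ^ 2 := by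
  rw [chart_chain f dv v hE hy, Finset.mul_sum, ← Finset.sum_sub_distrib]
  exact Finset.sum_le_sum fun i _ => by
    nlinarith [sq_nonneg (fderiv ℝ (hom (f i)) y q - hom (dv i) y)]

/-- the drift Laplacian of `exp (|f|^2 / 8)` -/
theorem lap_psi (δ : Fin 4 → Derivation ℝ R R) (f ν : Fin 4 → R) (ψ : R)
    (hP : ∀ i k, δ i (f k) = (if i = k then 1 else 0) - ν i * ν k) (h1 : ∑ i, ν i ^ 2 = 1)
    (h2 : ∀ u, ∑ i, ν i * δ i u = 0)
    (hψ : ∀ i, δ i ψ = (1 / 4 : ℝ) • (ψ * ∑ k, f k * δ i (f k))) :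
    ∑ i, δ i (δ i ψ) - (1 / 2 : ℝ) • ∑ i, f i * δ i ψ =
      ψ * ((3 / 4 : ℝ) • 1 - (1 / 16 : ℝ) • (∑ k, f k ^ 2 - (∑ k, f k * ν k) ^ 2) -
        (1 / 4 : ℝ) • ((∑ i, δ i (ν i)) * ∑ k, f k * ν k)) := by
  set s := ∑ k, f k * ν k with hs
  have t : ∀ i, δ i ψ = (1 / 4 : ℝ) • (ψ * (f i - ν i * s)) := fun i => by
    rw [hψ, hs]
    simp only [hP, mul_sub, Finset.sum_sub_distrib, mul_ite, mul_one, mul_zero, Finset.sum_ite_eq,
      Finset.mem_univ, if_true, Finset.mul_sum]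
    exact congrArg (fun z => (1 / 4 : ℝ) • (ψ * f i - z))
      (Finset.sum_congr rfl fun k _ => by ring)
  have t2 : ∀ i, δ i (δ i ψ) = (1 / 4 : ℝ) • (ψ * (1 - ν i * ν i - (ν i * δ i s + s * δ i (ν i))) +
      (f i - ν i * s) * ((1 / 4 : ℝ) • (ψ * (f i - ν i * s)))) := fun i => by
    rw [t, Derivation.map_smul, Derivation.leibniz, map_sub, Derivation.leibniz, hP, t]
    simp only [if_true, smul_eq_mul]
  refine R.ext fun x => ?_
  have e1 := congrArg (fun u : R => u x) h1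
  have e2 := congrArg (fun u : R => u x) (h2 s)
  have e3 := congrArg (fun u : R => u x) hs
  simp only [t2]
  simp only [t]
  simp only [Fin.sum_univ_four, R.add_apply, R.sub_apply, R.mul_apply, R.smul_apply, R.pow_apply,
    R.one_apply, R.zero_apply] at e1 e2 e3 ⊢
  linear_combination (ψ x * s x ^ 2 / 16 - ψ x / 4) * e1 - ψ x / 4 * e2

/-- **G1, ground state transform.** -/
theorem ground_state (δ : Fin 4 → Derivation ℝ R R) (f ν : Fin 4 → R) (ρ ψ c v : R)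
    (hP : ∀ i k, δ i (f k) = (if i = k then 1 else 0) - ν i * ν k) (h1 : ∑ i, ν i ^ 2 = 1)
    (h2 : ∀ u, ∑ i, ν i * δ i u = 0)
    (hψ : ∀ i, δ i ψ = (1 / 4 : ℝ) • (ψ * ∑ k, f k * δ i (f k)))
    (ibp : ∀ u w, I (ρ * ∑ i, δ i u * δ i w) =
      -I (ρ * ((∑ i, δ i (δ i u) - (1 / 2 : ℝ) • ∑ i, f i * δ i u) * w))) :
    I (ρ * (∑ i, δ i (ψ * v) ^ 2 - c * (ψ * v) ^ 2)) =
      I (ρ * ψ ^ 2 * (∑ i, δ i v ^ 2 - (c + (3 / 4 : ℝ) • 1 -
        (1 / 16 : ℝ) • (∑ k, f k ^ 2 - (∑ k, f k * ν k) ^ 2) -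
        (1 / 4 : ℝ) • ((∑ i, δ i (ν i)) * ∑ k, f k * ν k)) * v ^ 2)) := by
  have h := ibp ψ (ψ * (v * v))
  rw [lap_psi δ f ν ψ hP h1 h2 hψ, eq_neg_iff_add_eq_zero, ← map_add] at h
  rw [← sub_eq_zero, ← map_sub, ← h]
  refine congrArg I ?_
  simp only [Derivation.leibniz, smul_eq_mul, Fin.sum_univ_four]
  ring

end Pool.Agent.MP_48470b_gt.Gap
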