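import Mathlib

/-! From an eigenvalue count and approximate eigenfunctions to a lower bound of the operator. -/

set_option autoImplicit false
set_option maxHeartbeats 400000
open scoped RealInnerProductSpace
open Module

namespace Pool.Agent.MP_48470b_gt.Gap

section fin
variable {U : Type*} [NormedAddCommGroup U] [InnerProductSpace ℝ U] [FiniteDimensional ℝ U]

lemma normsq_eig {T : U →ₗ[ℝ] U} (hT : T.IsSymmetric) (lam : ℝ) (u : U) :
    ‖T u - lam • u‖ ^ 2 = ∑ i, (hT.eigenvalues rfl i - lam) ^ 2 *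
      (hT.eigenvectorBasis rfl).repr u i ^ 2 := by
  rw [← (hT.eigenvectorBasis rfl).repr.norm_map, EuclideanSpace.real_norm_sq_eq]
  refine Finset.sum_congr rfl fun i _ => ?_
  rw [map_sub, map_smul, PiLp.sub_apply, PiLp.smul_apply, hT.eigenvectorBasis_apply_self_apply]
  simp only [RCLike.ofReal_real_eq_id, id, smul_eq_mul]; ring

lemma normsq_rep {T : U →ₗ[ℝ] U} (hT : T.IsSymmetric) (u : U) :
    ‖u‖ ^ 2 = ∑ i, (hT.eigenvectorBasis rfl).repr u i ^ 2 := by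
  rw [← (hT.eigenvectorBasis rfl).repr.norm_map, EuclideanSpace.real_norm_sq_eq]

lemma exists_eig_near {T : U →ₗ[ℝ] U} (hT : T.IsSymmetric) {lam ε : ℝ} (hε : 0 ≤ ε) {u : U}
    (hu : u ≠ 0) (h : ‖T u - lam • u‖ ^ 2 ≤ ε ^ 2 * ‖u‖ ^ 2) :
    ∃ i, |hT.eigenvalues rfl i - lam| ≤ ε := by
  by_contra hc
  push Not at hc
  rw [normsq_eig hT, normsq_rep hT, Finset.mul_sum] at h
  have h1 : ∀ i, ε ^ 2 < (hT.eigenvalues rfl i - lam) ^ 2 := fun i => by
    rw [← sq_abs (_ - _)]; exact pow_lt_pow_left₀ (hc i) hε two_ne_zero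
  obtain ⟨j, hj⟩ : ∃ j, (hT.eigenvectorBasis rfl).repr u j ≠ 0 := by
    by_contra h0
    push Not at h0
    exact hu ((hT.eigenvectorBasis rfl).repr.map_eq_zero_iff.1 (by ext j; exact h0 j))
  refine absurd h (not_le.2 (Finset.sum_lt_sum
    (fun i _ => mul_le_mul_of_nonneg_right (h1 i).le (sq_nonneg _))
    ⟨j, Finset.mem_univ _, mul_lt_mul_of_pos_right (h1 j) (by positivity)⟩))

lemma count_eig {T : U →ₗ[ℝ] U} (hT : T.IsSymmetric) {n : ℕ} (l : Fin n → U →ₗ[ℝ] ℝ) {ρ : ℝ}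
    (hc : ∀ v, (∀ k, l k v = 0) → ρ * ‖v‖ ^ 2 ≤ ⟪T v, v⟫)
    (s : Option (Fin n) → Fin (finrank ℝ U)) (hs : Function.Injective s)
    (hlt : ∀ o, hT.eigenvalues rfl (s o) < ρ) : False := by
  let b := hT.eigenvectorBasis rfl
  let L : (Option (Fin n) → ℝ) →ₗ[ℝ] U := Fintype.linearCombination ℝ fun o => b (s o)
  have hk : (LinearMap.pi l ∘ₗ L).ker ≠ ⊥ :=
    LinearMap.ker_ne_bot_of_finrank_lt (by simp)
  obtain ⟨c, hc0, hc1⟩ := Submodule.exists_mem_ne_zero_of_ne_bot hk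
  have h1 := hc (L c) fun k => congrFun (LinearMap.mem_ker.1 hc0) k
  have ho : Orthonormal ℝ fun o => b (s o) := b.orthonormal.comp s hs
  have e1 : L c = ∑ o, c o • b (s o) := Fintype.linearCombination_apply _ _ _
  have e2 : T (L c) = ∑ o, (hT.eigenvalues rfl (s o) * c o) • b (s o) := by
    rw [e1, map_sum]
    refine Finset.sum_congr rfl fun o _ => ?_
    rw [map_smul, hT.apply_eigenvectorBasis, smul_smul, mul_comm]; rfl
  rw [← real_inner_self_eq_norm_sq, e2, e1, ho.inner_sum, ho.inner_sum, Finset.mul_sum] at h1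
  obtain ⟨j, hj⟩ := Function.ne_iff.1 hc1
  have hj' : 0 < c j * c j := mul_self_pos.2 hj
  refine absurd h1 (not_le.2 (Finset.sum_lt_sum (fun o _ => ?_) ⟨j, Finset.mem_univ _, ?_⟩))
  · simp only [conj_trivial]; nlinarith [hlt o, mul_self_nonneg (c o)]
  · simp only [conj_trivial]; nlinarith [hlt j]

lemma gap_fin {T : U →ₗ[ℝ] U} (hT : T.IsSymmetric) {n : ℕ} (l : Fin n → U →ₗ[ℝ] ℝ) {ρ γ : ℝ}
    (hc : ∀ v, (∀ k, l k v = 0) → ρ * ‖v‖ ^ 2 ≤ ⟪T v, v⟫) (φ : Fin n → U) (lam ε : Fin n → ℝ)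
    (hφ : ∀ k, φ k ≠ 0) (hε : ∀ k, 0 ≤ ε k)
    (hr : ∀ k, ‖T (φ k) - lam k • φ k‖ ^ 2 ≤ ε k ^ 2 * ‖φ k‖ ^ 2)
    (hd : ∀ k j, k ≠ j → ε k + ε j < |lam k - lam j|) (hb : ∀ k, lam k + ε k < ρ)
    (hg : ∀ k, γ + ε k ≤ |lam k|) (hγ : γ ≤ ρ) (h0 : 0 ≤ γ) (w : U) :
    γ ^ 2 * ‖w‖ ^ 2 ≤ ‖T w‖ ^ 2 := by
  choose i hi using fun k => exists_eig_near hT (hε k) (hφ k) (hr k)
  have key : ∀ j, γ ≤ |hT.eigenvalues rfl j| := by
    intro j
    by_contra hj
    rw [not_le] at hj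
    have ne : ∀ k, i k ≠ j := fun k e => by
      have h1 := hi k
      have h2 := abs_sub_abs_le_abs_sub (lam k) (hT.eigenvalues rfl j)
      rw [e, abs_sub_comm] at h1
      linarith [hg k]
    refine count_eig hT l hc (fun o => o.elim j i) ?_ ?_
    · rintro (_ | a) (_ | b) e
      · rfl
      · exact absurd e.symm (ne b)
      · exact absurd e (ne a)
      · by_contra hab
        have h1 := hd a b fun e' => hab (congrArg some e')
        have h2 := hi a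
        have h3 := hi b
        have e' : i a = i b := e
        rw [e', abs_sub_comm] at h2
        linarith [abs_sub_le (lam a) (hT.eigenvalues rfl (i b)) (lam b)]
    · rintro (_ | a)
      · exact ((le_abs_self _).trans_lt hj).trans_le hγ
      · have := (abs_le.1 (hi a)).2
        change hT.eigenvalues rfl (i a) < ρ
        linarith [hb a]
  have h1 := normsq_eig hT 0 w
  rw [zero_smul, sub_zero] at h1
  rw [h1, normsq_rep hT, Finset.mul_sum]
  refine Finset.sum_le_sum fun j _ => mul_le_mul_of_nonneg_right ?_ (sq_nonneg _)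
  rw [sub_zero, ← sq_abs (hT.eigenvalues rfl j)]
  exact pow_le_pow_left₀ h0 (key j) 2
end fin

lemma gap_inner {W : Type*} [NormedAddCommGroup W] [InnerProductSpace ℝ W] {T : W →ₗ[ℝ] W}
    (hT : T.IsSymmetric) {n : ℕ} (l : Fin n → W →ₗ[ℝ] ℝ) {ρ γ : ℝ}
    (hc : ∀ v, (∀ k, l k v = 0) → ρ * ‖v‖ ^ 2 ≤ ⟪T v, v⟫) (φ : Fin n → W) (lam ε : Fin n → ℝ)
    (hφ : ∀ k, φ k ≠ 0) (hε : ∀ k, 0 ≤ ε k)
    (hr : ∀ k, ‖T (φ k) - lam k • φ k‖ ^ 2 ≤ ε k ^ 2 * ‖φ k‖ ^ 2)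
    (hd : ∀ k j, k ≠ j → ε k + ε j < |lam k - lam j|) (hb : ∀ k, lam k + ε k < ρ)
    (hg : ∀ k, γ + ε k ≤ |lam k|) (hγ : γ ≤ ρ) (h0 : 0 ≤ γ) (w : W) :
    γ ^ 2 * ‖w‖ ^ 2 ≤ ‖T w‖ ^ 2 := by
  let U : Submodule ℝ W := Submodule.span ℝ (insert w (Set.range φ))
  have : FiniteDimensional ℝ U :=
    FiniteDimensional.span_of_finite ℝ ((Set.finite_range φ).insert w)
  let S : U →ₗ[ℝ] U := (U.orthogonalProjectionOnto : W →ₗ[ℝ] U) ∘ₗ T ∘ₗ U.subtype
  have e : ∀ u v : U, ⟪S u, v⟫ = ⟪T u, (v : W)⟫ := fun u v => by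
    rw [real_inner_comm, real_inner_comm (v : W)]
    exact U.inner_orthogonalProjectionOnto_eq_of_mem_left v (T u)
  have hS : S.IsSymmetric := fun u v => by
    rw [e, real_inner_comm (S v), e, hT, real_inner_comm]
  have mφ : ∀ k, φ k ∈ U := fun k => Submodule.subset_span (Or.inr ⟨k, rfl⟩)
  have mw : w ∈ U := Submodule.subset_span (Or.inl rfl)
  have le : ∀ x : W, ‖U.orthogonalProjectionOnto x‖ ^ 2 ≤ ‖x‖ ^ 2 := fun x =>
    pow_le_pow_left₀ (norm_nonneg _) (U.norm_orthogonalProjectionOnto_apply_le x) 2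
  refine (gap_fin hS (fun k => l k ∘ₗ U.subtype) (fun v hv => ?_) (fun k => ⟨φ k, mφ k⟩) lam ε
    (fun k h => hφ k (congrArg Subtype.val h)) hε (fun k => ?_) hd hb hg hγ h0 ⟨w, mw⟩).trans
    (le (T w))
  · rw [e]; exact hc v hv
  · refine le_trans (le_of_eq ?_) ((le _).trans (hr k))
    rw [map_sub, map_smul,
      U.orthogonalProjectionOnto_mem_subspace_eq_self (⟨φ k, mφ k⟩ : U)]
    rfl

/-- **G5.** Count of the eigenvalues below `ρ` plus approximate eigenfunctions give a gap. -/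
theorem gap_of_count {W : Type*} [AddCommGroup W] [Module ℝ W] (m : W →ₗ[ℝ] W →ₗ[ℝ] ℝ)
    (ms : ∀ u v, m u v = m v u) (mp : ∀ u, u ≠ 0 → 0 < m u u) (T : W →ₗ[ℝ] W)
    (hT : ∀ u v, m (T u) v = m u (T v)) {n : ℕ} (l : Fin n → W →ₗ[ℝ] ℝ) {ρ γ : ℝ}
    (hc : ∀ v, (∀ k, l k v = 0) → ρ * m v v ≤ m (T v) v) (φ : Fin n → W) (lam ε : Fin n → ℝ)
    (hφ : ∀ k, φ k ≠ 0) (hε : ∀ k, 0 ≤ ε k)
    (hr : ∀ k, m (T (φ k) - lam k • φ k) (T (φ k) - lam k • φ k) ≤ ε k ^ 2 * m (φ k) (φ k))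
    (hd : ∀ k j, k ≠ j → ε k + ε j < |lam k - lam j|) (hb : ∀ k, lam k + ε k < ρ)
    (hg : ∀ k, γ + ε k ≤ |lam k|) (hγ : γ ≤ ρ) (h0 : 0 ≤ γ) (w : W) :
    γ ^ 2 * m w w ≤ m (T w) (T w) := by
  let c : InnerProductSpace.Core ℝ W :=
    { inner := fun u v => m u v
      conj_inner_symm := fun u v => by simp [ms u v]
      re_inner_nonneg := fun u => by
        rcases eq_or_ne u 0 with rfl | h
        · simp
        · exact (mp u h).le
      add_left := fun u v w => by simp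
      smul_left := fun u v r => by simp
      definite := fun u h => by
        by_contra h1
        exact (mp u h1).ne' h }
  let _ : NormedAddCommGroup W := @InnerProductSpace.Core.toNormedAddCommGroup ℝ W _ _ _ c
  let _ : InnerProductSpace ℝ W := InnerProductSpace.ofCore c.toCore
  have e : ∀ u : W, ‖u‖ ^ 2 = m u u := fun u => (real_inner_self_eq_norm_sq u).symm
  have := gap_inner (T := T) hT l (fun v hv => by rw [e]; exact hc v hv) φ lam ε hφ hε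
    (fun k => by rw [e, e]; exact hr k) hd hb hg hγ h0 w
  rwa [e, e] at this

end Pool.Agent.MP_48470b_gt.Gap
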