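import Pool.Agent.MP_48470b_gt.An.Lin
import Pool.Agent.MP_48470b_gt.Gap.G5

/-! From the count and the approximate eigenfunctions to the gap, in the tangential calculus. -/

set_option autoImplicit false
set_option maxHeartbeats 400000

namespace Pool.Agent.MP_48470b_gt.Gap
open Pool.Agent.MP48470b.An Finset

variable {K : Type*} [CommRing K] [Algebra ℝ K] {X : Type*}

/-- the stability operator as a linear map -/
noncomputable def Ll (D : DC K) : K →ₗ[ℝ] K where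
  toFun := D.L
  map_add' u v := by
    simp only [DC.L, DC.lf, DC.lap, map_add, Fin.sum_univ_four]; ring
  map_smul' c u := by
    simp only [DC.L, DC.lf, DC.lap, Derivation.map_smul, Fin.sum_univ_four, RingHom.id_apply]
    simp only [Algebra.smul_def]
    ring

lemma Ll_apply (D : DC K) (u : K) : Ll D u = D.L u := rfl

variable {D : DC K} {S : IS K X}

lemma I_L (h : IBP D S) (u v : K) :
    S.I (D.L u * v) = S.I (D.V * (u * v)) - S.I (∑ i, D.d i v * D.d i u) := by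
  rw [h.green, sub_neg_eq_add, ← map_add]
  refine congrArg S.I ?_
  unfold DC.L; ring

lemma L_symm (h : IBP D S) (u v : K) : S.I (D.L u * v) = S.I (u * D.L v) := by
  rw [mul_comm u, I_L h, I_L h, mul_comm u v]
  simp only [mul_comm (D.d _ u)]

lemma L_one (D : DC K) : D.L 1 = D.V := by simp [DC.L, DC.lf, DC.lap]

lemma lf_eq (D : DC K) (w : K) : D.lf w = D.L w - D.L 1 * w := by
  rw [L_one, DC.L]; ring

lemma grad_sq (D : DC K) (w : K) :
    ∑ i, D.d i w ^ 2 = (1 / 2 : ℝ) • (D.L (w * w) - w * D.L w - w * D.L w + D.L 1 * (w * w)) := by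
  have h := two_hf K
  rw [L_one, Algebra.smul_def]
  change _ = hf K * _
  simp only [DC.L, DC.lf, DC.lap, DC.dmul, map_add, Fin.sum_univ_four]
  linear_combination (-(D.d 0 w ^ 2 + D.d 1 w ^ 2 + D.d 2 w ^ 2 + D.d 3 w ^ 2)) * h

/-- **G6, abstract part.** -/
theorem gap_abs (hI : IBP D S) (pos : ∀ u : K, u ≠ 0 → 0 < S.I (u ^ 2)) (Inv : Submodule ℝ K)
    (hL : ∀ w ∈ Inv, D.L w ∈ Inv) {n : ℕ} (l : Fin n → K →ₗ[ℝ] ℝ) {r γ K₀ : ℝ}
    (hc : ∀ w ∈ Inv, (∀ k, l k w = 0) →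
      0 ≤ S.I (∑ i, D.d i w ^ 2 - (D.V + r • 1) * w ^ 2))
    (φ : Fin n → K) (lam ε : Fin n → ℝ) (hm : ∀ k, φ k ∈ Inv) (hφ : ∀ k, φ k ≠ 0)
    (hε : ∀ k, 0 ≤ ε k)
    (hr : ∀ k, S.I ((D.L (φ k) + lam k • φ k) ^ 2) ≤ ε k ^ 2 * S.I (φ k ^ 2))
    (hd : ∀ k j, k ≠ j → ε k + ε j < |lam k - lam j|) (hb : ∀ k, lam k + ε k < r)
    (hg : ∀ k, γ + ε k ≤ |lam k|) (hγ : γ ≤ r) (h0 : 0 ≤ γ) (hK : 1 ≤ K₀ * γ) :
    ∀ w ∈ Inv, S.I (w ^ 2) ≤ K₀ ^ 2 * S.I (D.L w ^ 2) := by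
  intro w hw
  let m : Inv →ₗ[ℝ] Inv →ₗ[ℝ] ℝ :=
    ((LinearMap.mul ℝ K).compl₁₂ Inv.subtype Inv.subtype).compr₂ S.I
  have em : ∀ u v : Inv, m u v = S.I (u.1 * v.1) := fun u v => rfl
  let T : Inv →ₗ[ℝ] Inv := -(Ll D).restrict hL
  have eT : ∀ u : Inv, (T u).1 = -D.L u := fun u => rfl
  have h := gap_of_count m (fun u v => by rw [em, em, mul_comm])
    (fun u hu => by rw [em, ← sq]; exact pos _ fun e => hu (Subtype.ext e)) T
    (fun u v => by rw [em, em, eT, eT, neg_mul, mul_neg, map_neg, map_neg, L_symm hI])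
    (fun k => l k ∘ₗ Inv.subtype) (ρ := r) (γ := γ) (fun v hv => ?_) (fun k => ⟨φ k, hm k⟩) lam ε
    (fun k e => hφ k (congrArg Subtype.val e)) hε (fun k => ?_) hd hb hg hγ h0 ⟨w, hw⟩
  · rw [em, em, eT, neg_mul_neg, ← sq, ← sq] at h
    have h1 : 0 ≤ S.I (w ^ 2) := S.pos _ fun x => by rw [map_pow]; exact sq_nonneg _
    have h2 : 1 ≤ (K₀ * γ) ^ 2 := one_le_pow₀ hK
    calc S.I (w ^ 2) ≤ K₀ ^ 2 * (γ ^ 2 * S.I (w ^ 2)) := by nlinarith
      _ ≤ _ := mul_le_mul_of_nonneg_left h (sq_nonneg _)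
  · have h1 := hc v v.2 hv
    rw [em, em, eT, neg_mul, map_neg, I_L hI]
    simp only [add_mul, map_sub, map_add, smul_mul_assoc, one_mul, map_smul, smul_eq_mul,
      sq] at h1
    linarith
  · rw [em, em, ← sq, ← sq]
    refine le_of_eq_of_le (congrArg S.I ?_) (hr k)
    simp only [Submodule.coe_sub, Submodule.coe_smul, eT]
    ring

end Pool.Agent.MP_48470b_gt.Gap
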