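import Pool.Agent.MP_48470b_gt.An.Frame
import Pool.Agent.MP_48470b_gt.Sph.S4
import Pool.Agent.MP_48470b_gt.Gap.G1b
import Pool.Agent.MP_48470b_gt.Gap.G1c
import Pool.Agent.MP_48470b_gt.Gap.G6a

/-! The quadratic form of the stability operator in the chart. -/

set_option autoImplicit false
set_option maxHeartbeats 400000

namespace Pool.Agent.MP_48470b_gt.Gap
open Pool.Agent.MP48470b.An Finset Sph Matrix

/-- functions that are invariant under the signed permutations -/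
noncomputable def Inv : Submodule ℝ R := invSub {g | SP g}

lemma mem_Inv {u : R} : u ∈ Inv ↔ ∀ g, SP g → act g u = u := Iff.rfl

lemma Inv.mul {u v : R} (hu : u ∈ Inv) (hv : v ∈ Inv) : u * v ∈ Inv := fun g hg => by
  rw [map_mul, hu g hg, hv g hg]

lemma Inv.one : (1 : R) ∈ Inv := fun _ _ => map_one _

lemma Inv.of_sq {u : R} (h0 : ∀ x, 0 < u x) (h : u ^ 2 ∈ Inv) : u ∈ Inv := fun g hg =>
  R.ext fun x => by
    have h1 := congrArg (fun w : R => w x) (h g hg)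
    simp only [act_apply, R.pow_apply] at h1 ⊢
    exact (pow_left_inj₀ (h0 _).le (h0 _).le two_ne_zero).1 h1

lemma Inv.of_inv {u v : R} (h : u * v = 1) (hu : u ∈ Inv) : v ∈ Inv := fun g hg => by
  have h1 := congrArg (act g) h
  rw [map_mul, hu g hg, map_one] at h1
  linear_combination v * h1 - act g v * h

/-- the potential after the ground state transform -/
noncomputable def Vg (D : DC R) (r : ℝ) : R :=
  D.V + r • 1 + (3 / 4 : ℝ) • 1 - (1 / 16 : ℝ) • (∑ k, D.f k ^ 2 - D.lam ^ 2) -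
    (1 / 4 : ℝ) • (D.H * D.lam)

lemma Vg_apply (D : DC R) (r : ℝ) (x : S3) : Vg D r x = r + fp D.A D.A x + 5 / 4 -
    (∑ k, D.f k x ^ 2 - D.lam x ^ 2) / 16 - D.H x * D.lam x / 4 := by
  have : hf R x = 1 / 2 := rfl
  simp only [Vg, DC.V, R.add_apply, R.sub_apply, R.smul_apply, R.one_apply, R.mul_apply,
    R.sum_apply, R.pow_apply, this]
  ring

lemma exists_psi (F : FR R) (he : ∀ x, 0 < F.e x) : ∃ ψ χ : R, ψ * χ = 1 ∧ χ ^ 2 = F.e ∧
    (∀ x, 0 < χ x) ∧ ∀ i, F.d i ψ = (1 / 4 : ℝ) • (ψ * ∑ k, F.f k * F.d i (F.f k)) := by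
  obtain ⟨χ, h1, h2⟩ := exists_sqrt F.e he
  obtain ⟨ψ, h3⟩ := exists_inv χ fun x => (h2 x).ne'
  refine ⟨ψ, χ, by rw [mul_comm, h3], h1, h2, fun i => ?_⟩
  have h4 : ∀ a, F.E a ψ = hf R * hf R * (ψ * ∑ k, F.f k * F.E a (F.f k)) := fun a => by
    have a1 := congrArg (F.E a) h3
    have a2 := congrArg (F.E a) h1
    have a3 := two_hf R
    rw [F.he, sq, F.Emul, ← h1] at a2
    rw [F.Emul, Derivation.map_one_eq_zero] at a1
    generalize ∑ k, F.f k * F.E a (F.f k) = t at *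
    linear_combination ψ * a1 - hf R * ψ ^ 3 * a2 - (F.E a ψ) * h3 + (ψ ^ 2 * F.E a χ) * a3 +
      (2 * hf R * ψ ^ 2 * F.E a χ + hf R * hf R * ψ * t * (χ * ψ + 1)) * h3
  have h5 : ∀ z : R, (1 / 4 : ℝ) • z = hf R * hf R * z := fun z => R.ext fun x => by
    have : hf R x = 1 / 2 := rfl
    simp only [R.smul_apply, R.mul_apply, this]; ring
  rw [h5]
  simp only [F.d_apply, h4, Fin.sum_univ_three, Fin.sum_univ_four]
  ring

/-- **G6, ground state form.** -/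
theorem gap_frame (F : FR R) (S : IS R S3) (hS : ∀ w, S.I w = I (F.ρ * w))
    (hI : IBP F.toDC S) (he : ∀ x, 0 < F.e x) (hJ : ∀ x, 0 < F.J x) (eI : F.e ∈ Inv)
    (hL : ∀ w ∈ Inv, F.toDC.L w ∈ Inv) {n : ℕ} (l : Fin n → R →ₗ[ℝ] ℝ) {r γ K₀ : ℝ}
    (hc : Vg F.toDC r ∈ Inv → ∀ v ∈ Inv, ∑ i, F.d i v ^ 2 ∈ Inv → (∀ k, l k v = 0) →
      0 ≤ I (F.J * (∑ i, F.d i v ^ 2 - Vg F.toDC r * v ^ 2)))
    (φ : Fin n → R) (lam ε : Fin n → ℝ) (hm : ∀ k, φ k ∈ Inv) (hφ : ∀ k, φ k ≠ 0)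
    (hε : ∀ k, 0 ≤ ε k)
    (hr : ∀ k, S.I ((F.toDC.L (φ k) + lam k • φ k) ^ 2) ≤ ε k ^ 2 * S.I (φ k ^ 2))
    (hd : ∀ k j, k ≠ j → ε k + ε j < |lam k - lam j|) (hb : ∀ k, lam k + ε k < r)
    (hg : ∀ k, γ + ε k ≤ |lam k|) (hγ : γ ≤ r) (h0 : 0 ≤ γ) (hK : 1 ≤ K₀ * γ) :
    ∀ w ∈ Inv, S.I (w ^ 2) ≤ K₀ ^ 2 * S.I (F.toDC.L w ^ 2) := by
  obtain ⟨ψ, χ, h1, h2, h3, h4⟩ := exists_psi F he
  have χI : χ ∈ Inv := Inv.of_sq h3 (h2 ▸ eI)
  have ψI : ψ ∈ Inv := Inv.of_inv (by rw [mul_comm, h1]) χI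
  have hP : ∀ i k, F.d i (F.f k) = (if i = k then 1 else 0) - F.ν i * F.ν k := fun i k => by
    rw [F.df, Matrix.one_apply]
  have hn : ∑ i, F.ν i ^ 2 = 1 := by simp only [sq]; exact F.nn
  have e0 : ∀ u : R, F.toDC.lf u =
      ∑ i, F.d i (F.d i u) - (1 / 2 : ℝ) • ∑ i, F.f i * F.d i u := fun u => by
    rw [Algebra.smul_def]; rfl
  have hV : Vg F.toDC r ∈ Inv := by
    have a1 := lap_psi F.d F.f F.ν ψ hP hn F.nd h4
    rw [← e0, lf_eq] at a1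
    have a2 : Vg F.toDC r = F.toDC.L 1 + r • 1 + χ * (F.toDC.L ψ - F.toDC.L 1 * ψ) := by
      rw [a1, ← mul_assoc, mul_comm χ, h1, one_mul, L_one, Vg]
      simp only [DC.lam, DC.H, FR.toDC]
      ring
    rw [a2]
    exact Inv.add_mem (Inv.add_mem (hL _ Inv.one) (Inv.smul_mem _ Inv.one))
      (Inv.mul χI (Inv.sub_mem (hL _ ψI) (Inv.mul (hL _ Inv.one) ψI)))
  refine gap_abs hI (fun u hu => ?_) Inv hL (fun k => l k ∘ₗ LinearMap.mulLeft ℝ χ)
    (fun w hw hl => ?_) φ lam ε hm hφ hε hr hd hb hg hγ h0 hK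
  · have p : ∀ x, 0 ≤ (F.ρ * u ^ 2) x := fun x => by
      have := he x
      have := hJ x
      simp only [FR.ρ, R.mul_apply, R.pow_apply]; positivity
    rw [hS]
    refine (I_nonneg p).lt_of_ne' fun e => hu (R.ext fun x => ?_)
    have := congrArg (fun w : R => w x) (eq_zero_of_I p e)
    simpa [FR.ρ, (he x).ne', (hJ x).ne'] using this
  · have vI := Inv.mul χI hw
    have a1 := hc hV (χ * w) vI (by
      have := grad_sq F.toDC (χ * w)
      change ∑ i, F.d i (χ * w) ^ 2 = _ at this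
      rw [this]
      exact Inv.smul_mem _ (Inv.add_mem (Inv.sub_mem (Inv.sub_mem (hL _ (Inv.mul vI vI))
        (Inv.mul vI (hL _ vI))) (Inv.mul vI (hL _ vI))) (Inv.mul (hL _ Inv.one) (Inv.mul vI vI))))
      hl
    have a2 := ground_state F.d F.f F.ν F.ρ ψ (F.toDC.V + r • 1) (χ * w) hP hn F.nd h4
      fun u z => by
        rw [← hS, ← hS, ← e0, mul_comm _ z, ← hI.green]
        exact congrArg S.I (sum_congr rfl fun i _ => mul_comm _ _)
    have a3 : F.ρ * ψ ^ 2 = F.J := by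
      rw [FR.ρ, ← h2]; linear_combination F.J * (ψ * χ + 1) * h1
    rw [← mul_assoc, h1, one_mul, a3] at a2
    rw [hS]
    exact a1.trans_eq a2.symm

end Pool.Agent.MP_48470b_gt.Gap
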