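import Pool.Agent.MP_48470b_gt.An.Conc
import Pool.Agent.MP_48470b_gt.Dic.Chart
import Pool.Agent.MP_48470b_gt.Gap.G6b

/-! The chart metric, the chart form of the integral, lower bounds from one box. -/

set_option autoImplicit false
set_option maxHeartbeats 400000

namespace Pool.Agent.MP_48470b_gt.Gap
open Pool.Agent.MP48470b.An Finset Sph Matrix Dic

variable {f : I4 → R}

/-- chart tangent vectors -/
noncomputable def Tc (f : I4 → R) : Matrix I4 I3 C3 := Matrix.of fun k a => pd a (ch (f k))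

/-- chart metric -/
noncomputable def Gc (f : I4 → R) : Matrix I3 I3 C3 := (Tc f)ᵀ * Tc f

/-- chart volume element -/
noncomputable def Jc (f : I4 → R) (x : P3) : ℝ := √((Gc f).det x)

lemma Gc_apply (a b : I3) (x : P3) :
    Gc f a b x = ∑ k, pd a (ch (f k)) x * pd b (ch (f k)) x := by
  simp [Gc, Tc, Matrix.mul_apply]

lemma ch_gram (f : I4 → R) : ch (gram f) = ww ^ 4 * (Gc f).det := by
  have e : (Matrix.of fun k a => E a (f k)).map ch = Tc f * ecᵀ := by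
    ext k a : 2
    simp only [Matrix.map_apply, Matrix.of_apply, ch_E, Matrix.mul_apply, Tc, transpose_apply,
      mul_comm]
  rw [MP48470b.An.gram, AlgHom.map_det, AlgHom.mapMatrix_apply, Matrix.map_mul, transpose_map, e,
    transpose_mul, transpose_transpose, Matrix.mul_assoc, ← Matrix.mul_assoc (Tc f)ᵀ, det_mul,
    det_mul, det_transpose, det_ec, Gc]
  ring

lemma ww_pos (x : P3) : 0 < ww x := zero_lt_one.trans_le (one_le_ww x)

lemma Gc_pos (h : Imm f) (x : P3) : 0 < (Gc f).det x := by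
  have h1 : 0 < ch (gram f) x := h _
  rw [ch_gram, C3.mul_apply, C3.pow_apply] at h1
  exact (mul_pos_iff_of_pos_left (pow_pos (ww_pos x) 4)).1 h1

lemma Jc_pos (h : Imm f) (x : P3) : 0 < Jc f x := Real.sqrt_pos.2 (Gc_pos h x)

lemma ch_J (h : Imm f) (x : P3) : ch (fr h).J x = ww x ^ 2 * Jc f x := by
  have h1 : ch (fr h).J x = √(ch (gram f) x) := rfl
  rw [h1, ch_gram, C3.mul_apply, C3.pow_apply, show ww x ^ 4 = (ww x ^ 2) ^ 2 by ring,
    Real.sqrt_mul (sq_nonneg _), Real.sqrt_sq (sq_nonneg _), Jc]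

lemma ch_rho (h : Imm f) (x : P3) :
    ch (rho h) x = ww x ^ 2 * Jc f x * Real.exp (-1 / 4 * ∑ k, ch (f k) x ^ 2) := by
  rw [rho, FR.ρ, map_mul, C3.mul_apply, ch_J]
  simp [fr, ch_apply']

lemma Jc_cont (f : I4 → R) : Continuous (Jc f) := (C3.continuous _).sqrt

/-- chain rule in the chart -/
lemma pd_chain (h : Imm f) (a : I3) (v : R) :
    pd a (ch v) = ∑ k, pd a (ch (f k)) * ch ((dc h).d k v) := C3.ext fun x => by
  simp only [C3.sum_apply, C3.mul_apply, pd_ch]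
  exact chart_chain f (fun k => (dc h).d k v) v (fun a => dc_E h a v) (up_ne x) _

/-- the pointwise dual bound -/
theorem dual_chart (h : Imm f) (v : R) (x s : P3) :
    2 * ∑ a, s a * pd a (ch v) x - (∑ a, ∑ b, Gc f a b x * s a * s b) / Jc f x ≤
      Jc f x * ch (∑ i, (dc h).d i v ^ 2) x := by
  have hJ := Jc_pos h x
  have e1 : ∑ a, s a * pd a (ch v) x =
      ∑ k, (∑ a, s a * pd a (ch (f k)) x) * ch ((dc h).d k v) x := by
    simp only [pd_chain h _ v, C3.add_apply, C3.mul_apply, Fin.sum_univ_three, Fin.sum_univ_four]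
    ring
  have e2 : ∑ a, ∑ b, Gc f a b x * s a * s b = ∑ k, (∑ a, s a * pd a (ch (f k)) x) ^ 2 := by
    simp only [Gc_apply, Fin.sum_univ_three, Fin.sum_univ_four]
    ring
  rw [e1, e2, map_sum, C3.sum_apply, mul_sum, mul_sum, sum_div, ← sum_sub_distrib]
  refine sum_le_sum fun k _ => ?_
  rw [map_pow, C3.pow_apply]
  generalize ∑ a, s a * pd a (ch (f k)) x = p
  generalize ch ((dc h).d k v) x = q
  have : Jc f x * q ^ 2 - (2 * (p * q) - p ^ 2 / Jc f x) = (p - Jc f x * q) ^ 2 / Jc f x := by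
    field_simp; ring
  have : 0 ≤ (p - Jc f x * q) ^ 2 / Jc f x := by positivity
  linarith

lemma I_ch {u : R} (hu : u ∈ Inv) : I u = 32 / Real.pi ^ 2 *
    ∫ a in (0 : ℝ)..1, ∫ b in (0 : ℝ)..1, ∫ c in (0 : ℝ)..1,
      ch u ![a, b, c] / ww ![a, b, c] ^ 2 := by
  rw [I_chart u hu]
  simp only [ch_vec, ww_apply, Matrix.cons_val_zero, Matrix.cons_val_one, Matrix.cons_val_two,
    Matrix.head_cons, Matrix.tail_cons]

lemma I_J (h : Imm f) {u : R} (hu : (fr h).J * u ∈ Inv) : I ((fr h).J * u) = 32 / Real.pi ^ 2 *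
    ∫ a in (0 : ℝ)..1, ∫ b in (0 : ℝ)..1, ∫ c in (0 : ℝ)..1,
      Jc f ![a, b, c] * ch u ![a, b, c] := by
  rw [I_ch hu]
  simp only [map_mul, C3.mul_apply, ch_J]
  refine congrArg _ (intervalIntegral.integral_congr fun a _ =>
    intervalIntegral.integral_congr fun b _ => intervalIntegral.integral_congr fun c _ => ?_)
  have := ww_pos ![a, b, c]
  field_simp

lemma low1 {φ : ℝ → ℝ} (hφ : Continuous φ) {p q c : ℝ} (h0 : 0 ≤ p) (h1 : p ≤ q) (h2 : q ≤ 1)
    (hn : ∀ t, 0 ≤ φ t) (hc : ∀ t, p ≤ t → t ≤ q → c ≤ φ t) :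
    (q - p) * c ≤ ∫ t in (0 : ℝ)..1, φ t := by
  have a1 := intervalIntegral.integral_mono_on h1 (intervalIntegrable_const (c := c))
    (hφ.intervalIntegrable (μ := MeasureTheory.volume) p q) fun t ht => hc t ht.1 ht.2
  rw [intervalIntegral.integral_const, smul_eq_mul] at a1
  exact a1.trans (intervalIntegral.integral_mono_interval h0 h1 h2
    (Filter.Eventually.of_forall hn) (hφ.intervalIntegrable _ _))

lemma low3 {φ : P3 → ℝ} (hφ : Continuous φ) {p q : P3} {c : ℝ} (h0 : ∀ a, 0 ≤ p a)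
    (h1 : ∀ a, p a ≤ q a) (h2 : ∀ a, q a ≤ 1) (hn : ∀ x, 0 ≤ φ x)
    (hc : ∀ x, (∀ a, p a ≤ x a ∧ x a ≤ q a) → c ≤ φ x) :
    (q 0 - p 0) * ((q 1 - p 1) * ((q 2 - p 2) * c)) ≤
      ∫ a in (0 : ℝ)..1, ∫ b in (0 : ℝ)..1, ∫ c in (0 : ℝ)..1, φ ![a, b, c] := by
  have c3 : Continuous (Function.uncurry fun (y : ℝ × ℝ) (c : ℝ) => φ ![y.1, y.2, c]) :=
    hφ.comp (continuous_pi fun i => by fin_cases i <;> simp <;> fun_prop)
  have c2 : Continuous (Function.uncurry fun a b : ℝ => ∫ c in (0 : ℝ)..1, φ ![a, b, c]) :=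
    intervalIntegral.continuous_parametric_intervalIntegral_of_continuous' c3 0 1
  have c1 := intervalIntegral.continuous_parametric_intervalIntegral_of_continuous' (μ := MeasureTheory.volume) c2 0 1
  have n2 : ∀ a b, 0 ≤ ∫ c in (0 : ℝ)..1, φ ![a, b, c] := fun a b =>
    intervalIntegral.integral_nonneg zero_le_one fun _ _ => hn _
  refine low1 c1 (h0 0) (h1 0) (h2 0)
    (fun a => intervalIntegral.integral_nonneg zero_le_one fun _ _ => n2 _ _) fun a a1 a2 => ?_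
  refine low1 (c2.comp (Continuous.prodMk_right a)) (h0 1) (h1 1) (h2 1) (n2 a) fun b b1 b2 => ?_
  refine low1 (c3.comp (Continuous.prodMk_right (a, b))) (h0 2) (h1 2) (h2 2) (fun _ => hn _)
    fun c c1 c2 => hc _ fun i => ?_
  fin_cases i
  exacts [⟨a1, a2⟩, ⟨b1, b2⟩, ⟨c1, c2⟩]

/-- a lower bound for the mean from one box of the chart -/
theorem I_box {u : R} (hu : u ∈ Inv) (hn : ∀ x, 0 ≤ u x) {p q : P3} {c : ℝ} (h0 : ∀ a, 0 ≤ p a)
    (h1 : ∀ a, p a ≤ q a) (h2 : ∀ a, q a ≤ 1) (hc0 : 0 ≤ c)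
    (hc : ∀ x : P3, (∀ a, p a ≤ x a ∧ x a ≤ q a) → c * ww x ^ 2 ≤ ch u x) :
    3 * ((q 0 - p 0) * (q 1 - p 1) * (q 2 - p 2)) * c ≤ I u := by
  have a1 := low3 (φ := fun x => ch u x / ww x ^ 2) (c := c)
    ((C3.continuous _).div ((C3.continuous _).pow 2) fun x => (pow_pos (ww_pos x) 2).ne') h0 h1 h2
    (fun x => div_nonneg (hn _) (sq_nonneg _))
    fun x hx => (le_div_iff₀ (pow_pos (ww_pos x) 2)).2 (hc x hx)
  have a2 : 3 ≤ 32 / Real.pi ^ 2 := by
    rw [le_div_iff₀ (by positivity)]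
    nlinarith [Real.pi_lt_d2, Real.pi_pos]
  have a3 : 0 ≤ (q 0 - p 0) * ((q 1 - p 1) * ((q 2 - p 2) * c)) :=
    mul_nonneg (sub_nonneg.2 (h1 0)) (mul_nonneg (sub_nonneg.2 (h1 1))
      (mul_nonneg (sub_nonneg.2 (h1 2)) hc0))
  rw [I_ch hu]
  exact (le_of_eq (by ring)).trans (mul_le_mul a2 a1 a3 (by positivity))

/-- invariant functions are symmetric in the chart -/
lemma up_perm (σ : Equiv.Perm I3) : ∃ g, SP g ∧ (∀ x : P3, g (up x) = up (x ∘ σ)) ∧
    ∀ y : E4, (∀ a : I3, g y a.castSucc = y (σ a).castSucc) ∧ g y 3 = y 3 := by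
  obtain ⟨g, g1, g2⟩ := ex_SP (finSuccEquivLast.symm.permCongr σ.optionCongr) (fun _ => 1)
    fun _ => .inl rfl
  have a1 : ∀ (y : E4) (a : I3), g y a.castSucc = y (σ a).castSucc := fun y a => by simp [g2]
  have a2 : ∀ y : E4, g y 3 = y 3 := fun y => by
    rw [g2, one_mul]
    exact congrArg y (by
      change finSuccEquivLast.symm (σ.optionCongr (finSuccEquivLast (Fin.last 3))) = Fin.last 3
      rw [finSuccEquivLast_last]; simp)
  have a3 : ∀ (x : P3) (a : I3), up x a.castSucc = x a := fun x a => by fin_cases a <;> rfl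
  refine ⟨g, g1, fun x => ?_, fun y => ⟨a1 y, a2 y⟩⟩
  ext i
  refine Fin.lastCases ?_ (fun a => ?_) i
  · exact a2 _
  · rw [a1, a3, a3]; rfl

lemma ch_perm {u : R} (hu : u ∈ Inv) (σ : Equiv.Perm I3) (x : P3) : ch u (x ∘ σ) = ch u x := by
  obtain ⟨g, g1, g2, -⟩ := up_perm σ
  rw [ch_apply, ← g2, ← Sph.hom_act g u (up_ne x), hu g g1, ch_apply]

end Pool.Agent.MP_48470b_gt.Gap
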