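import Pool.Agent.MP_48470b_gt.An.Inv
import Pool.Agent.MP_48470b_gt.Gap.Defs
import Pool.Agent.MP_48470b_gt.Gap.G6c

/-! The gap of the stability operator from the count and four approximate eigenfunctions. -/

set_option autoImplicit false
set_option maxHeartbeats 400000

namespace Pool.Agent.MP_48470b_gt.Gap
open Pool.Agent.MP48470b.An Finset Sph Matrix Dic

variable {f : I4 → R}

/-- a triple as a vector -/
def tv3 (ξ : ℝ × ℝ × ℝ) : Fin 3 → ℝ := ![ξ.1, ξ.2.1, ξ.2.2]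

/-- entries `11, 22, 33, 12, 13, 23` of the chart metric -/
noncomputable def Ge (f : I4 → R) : ℕ → C3
  | 0 => Gc f 0 0
  | 1 => Gc f 1 1
  | 2 => Gc f 2 2
  | 3 => Gc f 0 1
  | 4 => Gc f 0 2
  | _ => Gc f 1 2

/-- chart metric over volume element -/
noncomputable def bbF (f : I4 → R) (e : ℕ) (ξ : ℝ × ℝ × ℝ) : ℝ := Ge f e (tv3 ξ) / Jc f (tv3 ξ)

/-- volume element times potential -/
noncomputable def vvF (h : Imm f) (r : ℝ) (ξ : ℝ × ℝ × ℝ) : ℝ :=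
  Jc f (tv3 ξ) * ch (Vg (dc h) r) (tv3 ξ)

lemma tv3_cont : Continuous tv3 :=
  continuous_pi fun i => by fin_cases i <;> simp [tv3] <;> fun_prop

/-- a function on the sphere as a continuous function of a triple -/
noncomputable def chC : R →ₗ[ℝ] C(ℝ × ℝ × ℝ, ℝ) where
  toFun v := ⟨fun ξ => ch v (tv3 ξ), (C3.continuous _).comp tv3_cont⟩
  map_add' _ _ := rfl
  map_smul' _ _ := rfl

lemma grad_C3 (u : C3) : Grad (fun ξ => u (tv3 ξ)) (fun ξ => pd 0 u (tv3 ξ))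
    (fun ξ => pd 1 u (tv3 ξ)) (fun ξ => pd 2 u (tv3 ξ)) := by
  have key : ∀ (a : Fin 3) (p : Fin 3 → ℝ),
      HasDerivAt (fun s => u (Function.update p a s)) (pd a u p) (p a) := fun a p => by
    have h1 : HasFDerivAt (u : (Fin 3 → ℝ) → ℝ) (fderiv ℝ (u : (Fin 3 → ℝ) → ℝ) p)
        (Function.update p a (p a)) := by
      rw [Function.update_eq_self]; exact (u.diff p).hasFDerivAt
    exact h1.comp_hasDerivAt (p a) (hasDerivAt_update p a (p a))
  refine ⟨(C3.continuous _).comp tv3_cont, (C3.continuous _).comp tv3_cont,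
    (C3.continuous _).comp tv3_cont, (C3.continuous _).comp tv3_cont, fun x y z => ?_,
    fun x y z => ?_, fun x y z => ?_⟩
  · refine (key 0 ![x, y, z]).congr_of_eventuallyEq (Filter.Eventually.of_forall fun s => ?_)
    exact congrArg u.1 (by ext i; fin_cases i <;> simp [tv3])
  · refine (key 1 ![x, y, z]).congr_of_eventuallyEq (Filter.Eventually.of_forall fun s => ?_)
    exact congrArg u.1 (by ext i; fin_cases i <;> simp [tv3])
  · refine (key 2 ![x, y, z]).congr_of_eventuallyEq (Filter.Eventually.of_forall fun s => ?_)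
    exact congrArg u.1 (by ext i; fin_cases i <;> simp [tv3])

lemma sym3_ch {u : R} (hu : u ∈ Inv) : Sym3 fun ξ => ch u (tv3 ξ) :=
  ⟨fun x y z => (ch_perm hu (Equiv.swap 0 1) _).symm.trans
      (congrArg (ch u).1 (by ext i; fin_cases i <;> rfl)),
    fun x y z => (ch_perm hu (Equiv.swap 1 2) _).symm.trans
      (congrArg (ch u).1 (by ext i; fin_cases i <;> rfl))⟩

lemma dot_inv {p q : I4 → R} (hp : Eqv p {g | SP g}) (hq : Eqv q {g | SP g}) :
    ∑ k, p k * q k ∈ Inv := fun g hg => R.ext fun x => by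
  have h := g.inner_map_map (vec p x) (vec q x)
  rw [inner4, inner4] at h
  simpa only [act_apply, Fin.sum_univ_four, R.add_apply, R.mul_apply, hp g hg, hq g hg,
    vec_apply] using h

lemma e_inv (h : Imm f) (he : Eqv f {g | SP g}) : (fr h).e ∈ Inv := fun g hg => R.ext fun x => by
  have h1 := congrArg (fun u : R => u x) (dot_inv he he g hg)
  simp only [act_apply, R.sum_apply, R.pow_apply, ← sq] at h1
  simp [fr, h1]

lemma e_pos (h : Imm f) (x : S3) : 0 < (fr h).e x := Real.exp_pos _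

lemma J_inv (h : Imm f) (he : Eqv f {g | SP g}) : (fr h).J ∈ Inv := by
  obtain ⟨v, hv⟩ := Sph.exists_inv (fr h).e fun x => (e_pos h x).ne'
  have : (fr h).J = rho h * v := by rw [rho, FR.ρ, mul_assoc, hv, mul_one]
  rw [this]
  exact Inv.mul (rho_inv h he) (Inv.of_inv hv (e_inv h he))

/-- an approximate eigenfunction of `-L` -/
structure Eig (h : Imm f) (φ : R) (lam ε : ℝ) : Prop where
  mem : φ ∈ Inv
  ne : φ ≠ 0
  e0 : 0 ≤ ε
  res : (wi h).I (((dc h).L φ + lam • φ) ^ 2) ≤ ε ^ 2 * (wi h).I (φ ^ 2)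

/-- **G6.** The gap. -/
theorem gap (h : Imm f) (he : Eqv f {g | SP g}) {r γ K₀ : ℝ} (hc : Count (bbF f) (vvF h r))
    (φ : Fin 4 → R) (lam ε : Fin 4 → ℝ) (hφ : ∀ k, Eig h (φ k) (lam k) (ε k))
    (hd : ∀ k j, k ≠ j → ε k + ε j < |lam k - lam j|) (hb : ∀ k, lam k + ε k < r)
    (hg : ∀ k, γ + ε k ≤ |lam k|) (hγ : γ ≤ r) (h0 : 0 ≤ γ) (hK : 1 ≤ K₀ * γ) :
    ∀ w ∈ invSub {g | SP g}, I (rho h * w ^ 2) ≤ K₀ ^ 2 * I (rho h * (dc h).L w ^ 2) := by
  obtain ⟨l, hl⟩ := hc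
  refine gap_frame (fr h) (wi h) (wi_I h) (dc_ibp h) (e_pos h) (fun x => Real.sqrt_pos.2 (h x))
    (e_inv h he) (fun w hw => L_inv h he hw) (fun k => l k ∘ₗ chC) (fun hV v hv hN hk => ?_) φ lam ε
    (fun k => (hφ k).mem) (fun k => (hφ k).ne) (fun k => (hφ k).e0) (fun k => (hφ k).res)
    hd hb hg hγ h0 hK
  have uI : ∑ i, (fr h).d i v ^ 2 - Vg (dc h) r * v ^ 2 ∈ Inv :=
    Inv.sub_mem hN (Inv.mul hV (by rw [sq]; exact Inv.mul hv hv))
  have jI := Inv.mul (J_inv h he) uI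
  refine (I_J h jI).ge.trans' (mul_nonneg (by positivity) ?_)
  refine hl (chC v) _ _ _
    (fun ξ => Jc f (tv3 ξ) * ch (∑ i, (fr h).d i v ^ 2 - Vg (dc h) r * v ^ 2) (tv3 ξ))
    (grad_C3 (ch v)) (((Jc_cont f).mul (C3.continuous _)).comp tv3_cont) (sym3_ch hv) ?_
    (fun ξ _ p q s => ?_) hk
  · have e : ∀ x, Jc f x = ch (fr h).J x / ww x ^ 2 := fun x => by
      have := ww_pos x
      rw [ch_J]; field_simp
    have a1 := sym3_ch (J_inv h he)
    have a2 := sym3_ch uI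
    refine ⟨fun x y z => ?_, fun x y z => ?_⟩
    · have b1 := a1.1 x y z
      have b2 := a2.1 x y z
      simp only at b1 b2
      simp only [e, b1, b2, ww_apply]
      simp only [tv3, Matrix.cons_val_zero, Matrix.cons_val_one, Matrix.cons_val_two,
        Matrix.head_cons, Matrix.tail_cons]
      ring
    · have b1 := a1.2 x y z
      have b2 := a2.2 x y z
      simp only at b1 b2
      simp only [e, b1, b2, ww_apply]
      simp only [tv3, Matrix.cons_val_zero, Matrix.cons_val_one, Matrix.cons_val_two,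
        Matrix.head_cons, Matrix.tail_cons]
      ring
  · have a1 := dual_chart h v (tv3 ξ) ![p, q, s]
    have a2 : qf (fun e => bbF f e ξ) p q s =
        (∑ a, ∑ b, Gc f a b (tv3 ξ) * ![p, q, s] a * ![p, q, s] b) / Jc f (tv3 ξ) := by
      simp only [qf, bbF, Ge, Gc_apply, Fin.sum_univ_three, Fin.sum_univ_four,
        Matrix.cons_val_zero, Matrix.cons_val_one, Matrix.cons_val_two, Matrix.head_cons,
        Matrix.tail_cons]
      ring
    have a3 : chC v ξ = ch v (tv3 ξ) := rfl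
    have a4 : (dc h).d = (fr h).d := rfl
    rw [a2, a3, map_sub, map_mul, map_pow, C3.sub_apply, C3.mul_apply, C3.pow_apply, vvF]
    simp only [Fin.sum_univ_three (f := fun a => ![p, q, s] a * pd a (ch v) (tv3 ξ)),
      Matrix.cons_val_zero, Matrix.cons_val_one, Matrix.cons_val_two, Matrix.head_cons,
      Matrix.tail_cons, a4] at a1
    linarith

/-- a residual bound and a lower bound on one box of the chart -/
theorem eig_box (h : Imm f) (he : Eqv f {g | SP g}) {φ : R} (hφ : φ ∈ Inv) {lam ε η c : ℝ}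
    (hr : (wi h).I (((dc h).L φ + lam • φ) ^ 2) ≤ η ^ 2) {p q : Fin 3 → ℝ} (h0 : ∀ a, 0 ≤ p a)
    (h1 : ∀ a, p a ≤ q a) (h2 : ∀ a, q a ≤ 1) (hc0 : 0 < c)
    (hc : ∀ x : Fin 3 → ℝ, (∀ a, p a ≤ x a ∧ x a ≤ q a) →
      c * ww x ^ 2 ≤ ch (rho h) x * ch φ x ^ 2)
    (hε : 0 ≤ ε) (hη : η ^ 2 ≤ ε ^ 2 * (3 * ((q 0 - p 0) * (q 1 - p 1) * (q 2 - p 2)) * c)) :
    Eig h φ lam ε := by
  refine ⟨hφ, fun e => ?_, hε, hr.trans (hη.trans (mul_le_mul_of_nonneg_left ?_ (sq_nonneg _)))⟩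
  · have a1 := hc p fun a => ⟨le_rfl, h1 a⟩
    have a2 := mul_pos hc0 (pow_pos (ww_pos p) 2)
    rw [e, map_zero, C3.zero_apply] at a1
    linarith
  · refine I_box (Inv.mul (rho_inv h he) (by rw [sq]; exact Inv.mul hφ hφ))
      (fun x => mul_nonneg (rho_pos h x).le (by rw [R.pow_apply]; exact sq_nonneg _)) h0 h1 h2
      hc0.le fun x hx => ?_
    rw [map_mul, map_pow]
    exact hc x hx

lemma wi_le (h : Imm f) {u : R} {η : ℝ} (hu : ∀ x, rho h x * u x ^ 2 ≤ η ^ 2) :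
    (wi h).I (u ^ 2) ≤ η ^ 2 := by
  have := I_mono (u := rho h * u ^ 2) (v := (η ^ 2) • 1) fun x => by simpa using hu x
  rwa [map_smul, I_one, smul_eq_mul, mul_one] at this

/-- the same from sup bounds only -/
theorem eig_sup (h : Imm f) (he : Eqv f {g | SP g}) {φ : R} (hφ : φ ∈ Inv)
    {lam ε η r₀ r₁ c : ℝ} (hr : ∀ x, |(dc h).L φ x + lam * φ x| ≤ η) (hρ₁ : ∀ x, rho h x ≤ r₁)
    {p q : Fin 3 → ℝ} (h0 : ∀ a, 0 ≤ p a) (h1 : ∀ a, p a ≤ q a) (h2 : ∀ a, q a ≤ 1)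
    (hr0 : 0 < r₀) (hc0 : 0 < c)
    (hc : ∀ x : Fin 3 → ℝ, (∀ a, p a ≤ x a ∧ x a ≤ q a) → r₀ ≤ ch (rho h) x ∧ c ≤ |ch φ x|)
    (hε : 0 ≤ ε) (hη : r₁ * η ^ 2 * (1 + q 0 ^ 2 + q 1 ^ 2 + q 2 ^ 2) ^ 2 ≤
      ε ^ 2 * (3 * ((q 0 - p 0) * (q 1 - p 1) * (q 2 - p 2)) * (r₀ * c ^ 2))) :
    Eig h φ lam ε := by
  have hW : 0 < (1 + q 0 ^ 2 + q 1 ^ 2 + q 2 ^ 2) ^ 2 := by positivity
  have p1 : 0 ≤ r₁ := (rho_pos h (pr 0)).le.trans (hρ₁ _)
  refine eig_box h he hφ (η := √(r₁ * η ^ 2))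
    (c := r₀ * c ^ 2 / (1 + q 0 ^ 2 + q 1 ^ 2 + q 2 ^ 2) ^ 2) (wi_le h fun x => ?_) h0 h1 h2
    (by positivity) (fun x hx => ?_) hε ?_
  · rw [Real.sq_sqrt (by positivity)]
    exact mul_le_mul (hρ₁ x) (sq_le_sq' (abs_le.1 (hr x)).1 (abs_le.1 (hr x)).2) (sq_nonneg _) p1
  · have a1 : ∀ a, x a ^ 2 ≤ q a ^ 2 := fun a =>
      pow_le_pow_left₀ ((h0 a).trans (hx a).1) (hx a).2 2
    have a2 : ww x ^ 2 ≤ (1 + q 0 ^ 2 + q 1 ^ 2 + q 2 ^ 2) ^ 2 :=
      pow_le_pow_left₀ (ww_pos x).le (by rw [ww_apply]; linarith [a1 0, a1 1, a1 2]) 2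
    have a3 : c ^ 2 ≤ ch φ x ^ 2 := by
      rw [← sq_abs (ch φ x)]; exact pow_le_pow_left₀ hc0.le (hc x hx).2 2
    calc _ ≤ r₀ * c ^ 2 := by
          rw [div_mul_eq_mul_div, div_le_iff₀ hW]
          exact mul_le_mul_of_nonneg_left a2 (by positivity)
      _ ≤ _ := mul_le_mul (hc x hx).1 a3 (sq_nonneg _) (hr0.le.trans (hc x hx).1)
  · rw [Real.sq_sqrt (by positivity), ← mul_div_assoc, ← mul_div_assoc, le_div_iff₀ hW]
    exact hη

/-- the support function -/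
lemma L_lam {K : Type*} [CommRing K] [Algebra ℝ K] (D : DC K) :
    D.L D.lam + (-1 : ℝ) • D.lam = D.R + ∑ i, D.f i * D.d i D.R := by
  have h1 := D.codazzi
  have h2 : ∑ i, ∑ j, D.d i (D.ν j) * D.d i (D.f j) = D.H := by
    have a := D.A_n
    have b := fun j => D.nd (D.ν j)
    simp only [D.df, Matrix.one_apply, DC.H, Fin.sum_univ_four, Fin.reduceEq, if_true,
      if_false] at a b ⊢
    linear_combination -(D.ν 0 * b 0 + D.ν 1 * b 1 + D.ν 2 * b 2 + D.ν 3 * b 3)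
  have h3 := two_hf K
  have h4 : ∀ i, D.d i D.R = D.d i D.H - hf K * D.d i D.lam := fun i => by
    rw [D.d_R, D.d_lam]
  have h5 : D.lap D.lam = D.H + ∑ j, D.f j * D.d j D.H - fp D.A D.A * D.lam := by
    simp only [DC.lap, D.d_lam, map_sum, D.dmul]
    simp only [DC.lam, Fin.sum_univ_four] at h1 h2 ⊢
    linear_combination D.f 0 * h1 0 + D.f 1 * h1 1 + D.f 2 * h1 2 + D.f 3 * h1 3 + h2
  simp only [DC.L, DC.lf, DC.V, h4, h5, neg_smul, one_smul, Fin.sum_univ_four]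
  rw [DC.R]
  linear_combination D.lam * h3

lemma lam_inv (h : Imm f) (he : Eqv f {g | SP g}) : (dc h).lam ∈ Inv := dot_inv he (ν_eqv h he)

/-- the residual of the support function -/
theorem res_lam (h : Imm f) {ε₀ ε₁ m : ℝ} (h0 : (wi h).Dom ((wi h).v0 (dc h).R) ε₀)
    (h1 : (wi h).Dom ((wi h).vn ((dc h).gr (dc h).R)) ε₁) (hm0 : 0 ≤ m)
    (hm : ∀ x, ∑ k, f k x ^ 2 ≤ m ^ 2) :
    (wi h).I (((dc h).L (dc h).lam + (-1 : ℝ) • (dc h).lam) ^ 2) ≤ (ε₀ + m * ε₁) ^ 2 := by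
  rw [L_lam]
  refine (IS.dom_v0.1 ((h0.abs.add (h1.cmul hm0)).mono (fun x => ?_) le_rfl)).2
  simp only [IS.v0, map_add, map_sum, map_mul]
  refine (abs_add_le _ _).trans (add_le_add le_rfl ((abs_dot_le _ _).trans ?_))
  exact mul_le_mul_of_nonneg_right (nr_le_of_sq hm0 (hm x)) (nr_nonneg _)

end Pool.Agent.MP_48470b_gt.Gap
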