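import Pool.Agent.MP_48470b_gt.Dic.JetB
import Pool.Agent.MP_48470b_gt.Gap.G6

/-! The inputs of the gap in terms of jets, and the numerical instance. -/

set_option autoImplicit false
set_option maxHeartbeats 400000

namespace Pool.Agent.MP_48470b_gt.Gap
open Pool.Agent.MP48470b.An Finset Sph Matrix Dic

variable {f : I4 → R}

lemma Gc_eq (f : I4 → R) : Gc f = Fm.jG pd (Dic.cf f) := rfl

lemma Jc_jq (h : Imm f) (x : Fin 3 → ℝ) : Jc f x * jq h x = 1 := by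
  rw [jq_apply]
  exact mul_inv_cancel₀ (Jc_pos h x).ne'

/-- metric over volume element, in a recombined frame -/
lemma bbF_eq (h : Imm f) (B : Matrix I3 I3 ℝ) (hB : 0 < B.det) (e : ℕ) (ξ : ℝ × ℝ × ℝ) :
    bbF f e ξ = (B.det • (Ge f e * (Fm.ofB h B hB).q)) (tv3 ξ) := by
  have h1 := Jc_jq h (tv3 ξ)
  have h2 := Jc_pos h (tv3 ξ)
  rw [← mul_smul_comm, ← Fm.jq_eq, C3.mul_apply, bbF, div_eq_iff h2.ne']
  linear_combination -(Ge f e (tv3 ξ)) * h1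

lemma Jc_eq (h : Imm f) (B : Matrix I3 I3 ℝ) (hB : 0 < B.det) (x : Fin 3 → ℝ) :
    Jc f x = (B.det⁻¹ • ((Fm.ofB h B hB).q * Fm.jD (Fm.pb B) (Dic.cf f))) x := by
  have h1 := Jc_jq h x
  have h2 := congrArg (fun u : C3 => u x) (Fm.ofB h B hB).qsq
  rw [Fm.jq_eq h B hB] at h1
  simp only [C3.mul_apply, C3.smul_apply, C3.pow_apply, C3.one_apply, Fm.ofB_p] at h1 h2 ⊢
  rw [eq_inv_mul_iff_mul_eq₀ hB.ne']
  linear_combination (Fm.ofB h B hB).q x * Fm.jD (Fm.pb B) (Dic.cf f) x * h1 - B.det * Jc f x * h2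

/-- the potential in jets -/
lemma ch_Vg {h : Imm f} (Φ : Fm.Fr h) (r : ℝ) : ch (Vg (dc h) r) =
    algebraMap ℝ C3 (r + 5 / 4) + Φ.q ^ 6 * Fm.jQ Φ.p (Dic.cf f) -
      (1 / 16 : ℝ) • (∑ k, Dic.cf f k ^ 2 - Φ.q ^ 2 * Fm.jl Φ.p (Dic.cf f) ^ 2) +
      (1 / 4 : ℝ) • (Φ.q ^ 4 * (Fm.jH Φ.p (Dic.cf f) * Fm.jl Φ.p (Dic.cf f))) := by
  simp only [Vg, DC.V, map_add, map_sub, map_smul, map_mul, map_pow, map_sum, map_one, Φ.ch_AA,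
    Φ.ch_H, Φ.ch_lam, ch_hf, dc_f]
  refine C3.ext fun x => ?_
  have : hf C3 x = 1 / 2 := rfl
  simp only [C3.add_apply, C3.sub_apply, C3.smul_apply, C3.mul_apply, C3.pow_apply, C3.neg_apply,
    C3.sum_apply, C3.one_apply, C3.algebraMap_apply, this, Dic.cf]
  ring

/-- volume element times potential, in a recombined frame -/
lemma vvF_eq (h : Imm f) (B : Matrix I3 I3 ℝ) (hB : 0 < B.det) (r : ℝ) (ξ : ℝ × ℝ × ℝ) :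
    vvF h r ξ = (B.det⁻¹ • ((Fm.ofB h B hB).q * Fm.jD (Fm.pb B) (Dic.cf f) * ch (Vg (dc h) r)))
      (tv3 ξ) := by
  rw [vvF, Jc_eq h B hB]
  simp only [C3.smul_apply, C3.mul_apply]
  ring

/-- the support function is an approximate eigenfunction -/
theorem eig_lam (h : Imm f) (he : Eqv f {g | SP g}) {ε₀ ε₁ m ε r₀ c : ℝ} (e0 : 0 ≤ ε₀)
    (e1 : 0 ≤ ε₁) (r0 : ∀ x, rho h x * (dc h).R x ^ 2 ≤ ε₀ ^ 2)
    (r1 : ∀ x, rho h x * (wi h).vn ((dc h).gr (dc h).R) x ^ 2 ≤ ε₁ ^ 2) (hm0 : 0 ≤ m)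
    (hm : ∀ x, ∑ k, f k x ^ 2 ≤ m ^ 2) {p q : Fin 3 → ℝ} (h0 : ∀ a, 0 ≤ p a)
    (h1 : ∀ a, p a ≤ q a) (h2 : ∀ a, q a ≤ 1) (hr0 : 0 < r₀) (hc0 : 0 < c)
    (hc : ∀ x : Fin 3 → ℝ, (∀ a, p a ≤ x a ∧ x a ≤ q a) →
      r₀ ≤ ch (rho h) x ∧ c ≤ |ch (dc h).lam x|)
    (hε : 0 ≤ ε) (hη : (ε₀ + m * ε₁) ^ 2 * (1 + q 0 ^ 2 + q 1 ^ 2 + q 2 ^ 2) ^ 2 ≤
      ε ^ 2 * (3 * ((q 0 - p 0) * (q 1 - p 1) * (q 2 - p 2)) * (r₀ * c ^ 2))) :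
    Eig h (dc h).lam (-1) ε := by
  have hW : 0 < (1 + q 0 ^ 2 + q 1 ^ 2 + q 2 ^ 2) ^ 2 := by positivity
  refine eig_box h he (lam_inv h he) (η := ε₀ + m * ε₁)
    (c := r₀ * c ^ 2 / (1 + q 0 ^ 2 + q 1 ^ 2 + q 2 ^ 2) ^ 2)
    (res_lam h (IS.dom_v0.2 ⟨e0, wi_le h r0⟩) (IS.dom_vn.2 ⟨e1, ?_⟩) hm0 hm) h0 h1 h2
    (by positivity) (fun x hx => ?_) hε ?_
  · have := I_mono (u := rho h * ∑ i, (dc h).gr (dc h).R i ^ 2) (v := (ε₁ ^ 2) • 1) fun x => by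
      have := r1 x
      rw [(wi h).vn_sq] at this
      simpa using this
    rwa [map_smul, I_one, smul_eq_mul, mul_one] at this
  · have a1 : ∀ a, x a ^ 2 ≤ q a ^ 2 := fun a =>
      pow_le_pow_left₀ ((h0 a).trans (hx a).1) (hx a).2 2
    have a2 : ww x ^ 2 ≤ (1 + q 0 ^ 2 + q 1 ^ 2 + q 2 ^ 2) ^ 2 :=
      pow_le_pow_left₀ (ww_pos x).le (by rw [ww_apply]; linarith [a1 0, a1 1, a1 2]) 2
    have a3 : c ^ 2 ≤ ch (dc h).lam x ^ 2 := by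
      rw [← sq_abs (ch (dc h).lam x)]; exact pow_le_pow_left₀ hc0.le (hc x hx).2 2
    calc _ ≤ r₀ * c ^ 2 := by
          rw [div_mul_eq_mul_div, div_le_iff₀ hW]
          exact mul_le_mul_of_nonneg_left a2 (by positivity)
      _ ≤ _ := mul_le_mul (hc x hx).1 a3 (sq_nonneg _) (hr0.le.trans (hc x hx).1)
  · rw [← mul_div_assoc, ← mul_div_assoc, le_div_iff₀ hW]
    exact hη

/-- **The gap with numbers.** -/
theorem gap_num (h : Imm f) (he : Eqv f {g | SP g}) {r : ℝ} (hr : 1 / 4 ≤ r)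
    (hc : Count (bbF f) (vvF h r)) {φ₁ φ₂ φ₄ : R} {l₁ l₂ l₄ : ℝ} (h1 : Eig h φ₁ l₁ 5)
    (h2 : Eig h φ₂ l₂ 1) (h3 : Eig h (dc h).lam (-1) (4 / 5)) (h4 : Eig h φ₄ l₄ (3 / 100))
    (b1 : l₁ ≤ -11) (b2 : -4 ≤ l₂ ∧ l₂ ≤ -3) (b4 : 18 / 100 ≤ l₄ ∧ l₄ ≤ 19 / 100) :
    ∀ w ∈ invSub {g | SP g},
      I (rho h * w ^ 2) ≤ (20 / 3) ^ 2 * I (rho h * (dc h).L w ^ 2) := by
  obtain ⟨b2, b2'⟩ := b2
  obtain ⟨b4, b4'⟩ := b4
  refine gap h he (γ := 15 / 100) hc ![φ₁, φ₂, (dc h).lam, φ₄] ![l₁, l₂, -1, l₄]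
    ![5, 1, 4 / 5, 3 / 100] (fun k => ?_) (fun k j hkj => ?_) (fun k => ?_) (fun k => ?_)
    (by linarith) (by norm_num) (by norm_num)
  · fin_cases k
    exacts [h1, h2, h3, h4]
  · rw [lt_abs]
    fin_cases k <;> fin_cases j <;> simp at hkj ⊢ <;>
      first | (left; linarith) | (right; linarith)
  · fin_cases k <;> simp <;> linarith
  · rw [le_abs]
    fin_cases k <;> simp <;> first | (left; linarith) | (right; linarith)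

end Pool.Agent.MP_48470b_gt.Gap
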