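import Mathlib.Data.Nat.Notation

/-! The local stage of the eigenvalue count: the matrix of one cell, in natural numbers. -/

set_option autoImplicit false
set_option linter.unusedVariables false

namespace Pool.Agent.MP_48470b_gt.Gap

/-- choice -/
noncomputable def cnd {α : Type} (b : Bool) (x y : α) : α := Bool.rec (motive := fun _ => α) y x b

/-- offset of the entries of the local matrix, `2 ^ 122` -/
def G0 : ℕ := 5316911983139663491615228241121378304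

/-- the signed number `p - n` -/
structure Z where
  p : ℕ
  n : ℕ

namespace Z

def add (x y : Z) : Z := ⟨x.p.add y.p, x.n.add y.n⟩
def sub (x y : Z) : Z := ⟨x.p.add y.n, x.n.add y.p⟩
def neg (x : Z) : Z := ⟨x.n, x.p⟩
def sm (x : Z) (k : ℕ) : Z := ⟨x.p.mul k, x.n.mul k⟩
def ad (x : Z) (k : ℕ) : Z := ⟨x.p.add k, x.n⟩
def of (f o : ℕ) : Z := ⟨f.sub o, o.sub f⟩
def ab (x : Z) : ℕ := x.p.add x.n
def mp (x y : Z) : ℕ := (x.p.mul y.p).add (x.n.mul y.n)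
def mn (x y : Z) : ℕ := (x.p.mul y.n).add (x.n.mul y.p)
def mul (x y : Z) : Z := ⟨x.mp y, x.mn y⟩
def dot (a b c d e f : Z) : Z :=
  ⟨((a.mp b).add (c.mp d)).add (e.mp f), ((a.mn b).add (c.mn d)).add (e.mn f)⟩

end Z

namespace Loc

/-- signed field of 32 bits -/
def f32 (w k : ℕ) : Z := Z.of ((w.shiftRight k).land 4294967295) 2147483648
/-- field of 48 bits -/
def n48 (w k : ℕ) : ℕ := (w.shiftRight k).land 281474976710655
/-- signed field of 48 bits -/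
def f48 (w k : ℕ) : Z := Z.of (n48 w k) 140737488355328
/-- maximum -/
def mx (a b : ℕ) : ℕ := a.add (b.sub a)
/-- packing -/
def hz (a b : ℕ) : ℕ := a.add (b.shiftLeft 128)
/-- unpacking -/
def lk (P x y : ℕ) : ℕ :=
  (P.shiftRight ((x.mul 768).add (y.mul 128))).land 340282366920938463463374607431768211455
/-- one entry, `A = G * Λ` -/
def ent (Λ A L wt : ℕ) (p x y : Z) : ℕ :=
  (((wt.mul ((L.mul p.p).add (x.mn y))).add A).sub (wt.mul ((L.mul p.n).add (x.mp y)))).div Λ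

/-- range checks and packing -/
noncomputable def st5 (e00 e01 e02 e03 e04 e05 e11 e12 e13 e14 e15 e22 e23 e24 e25 e33 e34 e35 e44
    e45 e55 : ℕ) (k : (ℕ → ℕ → ℕ) → Bool) : Bool :=
  cnd (Nat.ble 1 ((((((((((((((((((((e00.mul e01).mul e02).mul e03).mul e04).mul e05).mul e11).mul
    e12).mul e13).mul e14).mul e15).mul e22).mul e23).mul e24).mul e25).mul e33).mul e34).mul
    e35).mul e44).mul e45).mul e55)) (cnd (Nat.ble ((((((((((((((((((((e00.lor e01).lor e02).lor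
    e03).lor e04).lor e05).lor e11).lor e12).lor e13).lor e14).lor e15).lor e22).lor e23).lor
    e24).lor e25).lor e33).lor e34).lor e35).lor e44).lor e45).lor e55)
    10633823966279326983230456482242756607) (k (lk (hz e00 (hz e01 (hz e02 (hz e03 (hz e04 (hz e05
    (hz 0 (hz e11 (hz e12 (hz e13 (hz e14 (hz e15 (hz 0 (hz 0 (hz e22 (hz e23 (hz e24 (hz e25 (hz
    0 (hz 0 (hz 0 (hz e33 (hz e34 (hz e35 (hz 0 (hz 0 (hz 0 (hz 0 (hz e44 (hz e45 (hz 0 (hz 0 (hz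
    0 (hz 0 (hz 0 e55))))))))))))))))))))))))))))))))))))) false) false

/-- elimination of the mean -/
noncomputable def st4 (Λ A B L wt : ℕ) (l0 l1 l2 l3 l4 l5 p00 p01 p02 p03 p04 p05 p11 p12 p13 p14
    p15 p22 p23 p24 p25 p33 p34 p35 p44 p45 p55 : Z) (k : (ℕ → ℕ → ℕ) → Bool) : Bool :=
  st5 (ent Λ A L wt p00 l0 l0) (ent Λ B L wt p01 l0 l1) (ent Λ B L wt p02 l0 l2) (ent Λ B L wt p03
    l0 l3) (ent Λ B L wt p04 l0 l4) (ent Λ B L wt p05 l0 l5) (ent Λ A L wt p11 l1 l1) (ent Λ B L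
    wt p12 l1 l2) (ent Λ B L wt p13 l1 l3) (ent Λ B L wt p14 l1 l4) (ent Λ B L wt p15 l1 l5) (ent
    Λ A L wt p22 l2 l2) (ent Λ B L wt p23 l2 l3) (ent Λ B L wt p24 l2 l4) (ent Λ B L wt p25 l2 l5)
    (ent Λ A L wt p33 l3 l3) (ent Λ B L wt p34 l3 l4) (ent Λ B L wt p35 l3 l5) (ent Λ A L wt p44
    l4 l4) (ent Λ B L wt p45 l4 l5) (ent Λ A L wt p55 l5 l5) k

/-- the matrix of the face means, `t b` is the odd part of the linear form -/
noncomputable def st3 (rs dl wt L : ℕ) (P0 P1 P2 P3 P4 P5 R00 R01 R02 R10 R11 R12 R20 R21 R22 z0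
    z1 z2 t0 t1 t2 : Z) (k : (ℕ → ℕ → ℕ) → Bool) : Bool :=
  cnd (Nat.ble 1 L) (cnd (dl.ble G0) (st4 (L.shiftLeft rs) ((G0.sub dl).mul (L.shiftLeft rs))
    (G0.mul (L.shiftLeft rs)) L wt (((z0.sm 2).add t0).neg) (t0.sub (z0.sm 2)) (((z1.sm 2).add
    t1).neg) (t1.sub (z1.sm 2)) (((z2.sm 2).add t2).neg) (t2.sub (z2.sm 2)) ((P0.add z0).add
    (R00.sm 2)) (z0.sub P0) (P3.add (R01.add R10)) (R10.sub (P3.add R01)) (P4.add (R02.add R20))
    (R20.sub (P4.add R02)) ((P0.add z0).sub (R00.sm 2)) (R01.sub (P3.add R10)) (P3.sub (R01.add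
    R10)) (R02.sub (P4.add R20)) (P4.sub (R02.add R20)) ((P1.add z1).add (R11.sm 2)) (z1.sub P1)
    (P5.add (R12.add R21)) (R21.sub (P5.add R12)) ((P1.add z1).sub (R11.sm 2)) (R12.sub (P5.add
    R21)) (P5.sub (R12.add R21)) ((P2.add z2).add (R22.sm 2)) (z2.sub P2) ((P2.add z2).sub (R22.sm
    2)) k) false) false

/-- truncation -/
def tr (x : Z) : ℕ := x.p.sub x.n

/-- the coefficient of the square of the mean and the linear form -/
noncomputable def st2 (k6 rs dl wt : ℕ) (P0 P1 P2 P3 P4 P5 R00 R01 R02 R10 R11 R12 R20 R21 R22 z0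
    z1 z2 c0 v1 v2 v3 : Z) (k : (ℕ → ℕ → ℕ) → Bool) : Bool :=
  st3 rs dl wt (tr ((((z0.add z1).add z2).sm 4).sub c0)) P0 P1 P2 P3 P4 P5 R00 R01 R02 R10 R11 R12
    R20 R21 R22 z0 z1 z2 ((((R00.add R10).add R20).sm 2).sub (v1.sm k6)) ((((R01.add R11).add
    R21).sm 2).sub (v2.sm k6)) ((((R02.add R12).add R22).sm 2).sub (v3.sm k6)) k

/-- entry of `kap W - s W U` -/
def pe (kap s : ℕ) (w a b c d e f : Z) : Z := (w.sm kap).sub ((Z.dot a b c d e f).sm s)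
/-- the diagonal terms -/
def ze (kap s om : ℕ) (b c : Z) : Z :=
  (Z.mk (kap.mul om) 0).sub (((b.sm 15).ad (c.ab.mul 4)).sm ((s.mul om).mul om))

/-- the blocks -/
noncomputable def st1 (kap k6 rs dl wt s o0 o1 o2 : ℕ) (b00 b01 b02 b03 b10 b11 b12 b13 b20 b21
    b22 b23 b30 b31 b32 b33 b40 b41 b42 b43 b50 b51 b52 b53 v0 v1 v2 v3 W0 W1 W2 W3 W4 W5 U00 U01
    U02 U10 U11 U12 U20 U21 U22 : Z) (k : (ℕ → ℕ → ℕ) → Bool) : Bool :=
  st2 k6 rs dl wt (pe kap (s.mul 45) W0 W0 U00 W3 U10 W4 U20) (pe kap (s.mul 45) W1 W3 U01 W1 U11 W5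
    U21) (pe kap (s.mul 45) W2 W4 U02 W5 U12 W2 U22) (pe kap (s.mul 45) W3 W0 U01 W3 U11 W4 U21)
    (pe kap (s.mul 45) W4 W0 U02 W3 U12 W4 U22) (pe kap (s.mul 45) W5 W3 U02 W1 U12 W5 U22)
    ((Z.dot b01 W0 b31 W3 b41 W4).sm ((s.mul 15).mul o0)) ((Z.dot b01 W3 b31 W1 b41 W5).sm ((s.mul
    15).mul o0)) ((Z.dot b01 W4 b31 W5 b41 W2).sm ((s.mul 15).mul o0)) ((Z.dot b32 W0 b12 W3 b52
    W4).sm ((s.mul 15).mul o1)) ((Z.dot b32 W3 b12 W1 b52 W5).sm ((s.mul 15).mul o1)) ((Z.dot b32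
    W4 b12 W5 b52 W2).sm ((s.mul 15).mul o1)) ((Z.dot b43 W0 b53 W3 b23 W4).sm ((s.mul 15).mul
    o2)) ((Z.dot b43 W3 b53 W1 b23 W5).sm ((s.mul 15).mul o2)) ((Z.dot b43 W4 b53 W5 b23 W2).sm
    ((s.mul 15).mul o2)) (ze kap s o0 b00 b01) (ze kap s o1 b10 b12) (ze kap s o2 b20 b23)
    (((Z.dot (b00.ad b01.ab) (v1.mul v1) (b10.ad b12.ab) (v2.mul v2) (b20.ad b23.ab) (v3.mul
    v3)).sm s).add (v0.sm kap)) v1 v2 v3 k

/-- sum of four sizes -/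
def sa (a b c d : Z) : ℕ := ((a.ab.add b.ab).add c.ab).add d.ab
/-- largest row sum plus one -/
def th (a0 a1 a2 a3 a4 a5 : ℕ) : ℕ :=
  (mx (mx ((a0.add a3).add a4) ((a1.add a3).add a5)) ((a2.add a4).add a5)).add 1

/-- the Poincare condition -/
noncomputable def st0 (D2 rs dl wt s o0 o1 o2 : ℕ) (b00 b01 b02 b03 b10 b11 b12 b13 b20 b21 b22
    b23 b30 b31 b32 b33 b40 b41 b42 b43 b50 b51 b52 b53 v0 v1 v2 v3 W0 W1 W2 W3 W4 W5 : Z) (k : (ℕ
    → ℕ → ℕ) → Bool) : Bool :=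
  cnd (Nat.ble 256 s) (cnd (((s.mul (th (sa b00 b01 b02 b03) (sa b10 b11 b12 b13) (sa b20 b21 b22
    b23) (sa b30 b31 b32 b33) (sa b40 b41 b42 b43) (sa b50 b51 b52 b53))).mul (tr (v0.ad
    ((v1.ab.add v2.ab).add v3.ab)))).ble ((D2.mul 8796093022208).mul (s.sub 256))) (st1 (D2.mul
    50665495807918080) (D2.mul 8444249301319680) rs dl wt s o0 o1 o2 b00 b01 b02 b03 b10 b11 b12
    b13 b20 b21 b22 b23 b30 b31 b32 b33 b40 b41 b42 b43 b50 b51 b52 b53 v0 v1 v2 v3 W0 W1 W2 W3 W4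
    W5 (Z.dot b00 W0 b30 W3 b40 W4) (Z.dot b00 W3 b30 W1 b40 W5) (Z.dot b00 W4 b30 W5 b40 W2)
    (Z.dot b30 W0 b10 W3 b50 W4) (Z.dot b30 W3 b10 W1 b50 W5) (Z.dot b30 W4 b10 W5 b50 W2) (Z.dot
    b40 W0 b50 W3 b20 W4) (Z.dot b40 W3 b50 W1 b20 W5) (Z.dot b40 W4 b50 W5 b20 W2) k) false)
    false

/-- reading the words -/
noncomputable def rd (D2 rs dl wt cw ax h0 h1 h2 h3 h4 h5 E3 E4 E5 : ℕ) (k : (ℕ → ℕ → ℕ) → Bool) :
    Bool :=
  st0 D2 rs dl wt ((ax.shiftRight 432).land 65535) (n48 ax 288) (n48 ax 336) (n48 ax 384) (((f32 cw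
    0).ad (((f32 cw 128).p.add E3).add E4)).sm h0) ((f32 cw 32).sm h0) ((f32 cw 64).sm h0) ((f32
    cw 96).sm h0) (((f32 cw 160).ad (((f32 cw 288).p.add E3).add E5)).sm h1) ((f32 cw 192).sm h1)
    ((f32 cw 224).sm h1) ((f32 cw 256).sm h1) (((f32 cw 320).ad (((f32 cw 448).p.add E4).add
    E5)).sm h2) ((f32 cw 352).sm h2) ((f32 cw 384).sm h2) ((f32 cw 416).sm h2) ((f32 cw 480).sm
    h3) ((f32 cw 512).sm h3) ((f32 cw 544).sm h3) ((f32 cw 576).sm h3) ((f32 cw 640).sm h4) ((f32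
    cw 672).sm h4) ((f32 cw 704).sm h4) ((f32 cw 736).sm h4) ((f32 cw 800).sm h5) ((f32 cw 832).sm
    h5) ((f32 cw 864).sm h5) ((f32 cw 896).sm h5) (f32 cw 960) (f32 cw 992) (f32 cw 1024) (f32 cw
    1056) (f48 ax 0) (f48 ax 48) (f48 ax 96) (f48 ax 144) (f48 ax 192) (f48 ax 240) k

end Loc

/-- `locK D2 rs dl cw ax H1 H2 H3 mu k`: runs the checks of the local stage, then continues with
`k e`, where `e x y - G0` is the local matrix. -/
noncomputable def locK (D2 rs dl cw ax H1 H2 H3 mu : ℕ) (k : (ℕ → ℕ → ℕ) → Bool) : Bool :=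
  Loc.rd D2 rs dl (mu.mul ((H1.mul H2).mul H3)) cw ax (H1.mul H1) (H2.mul H2) (H3.mul H3)
    (H1.mul H2) (H1.mul H3) (H2.mul H3) (Loc.f32 cw 608).p (Loc.f32 cw 768).p (Loc.f32 cw 928).p k

end Pool.Agent.MP_48470b_gt.Gap
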