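import Pool.Agent.MP_48470b_gt.Gap.G3
import Pool.Agent.MP_48470b_gt.Gap.Loc
import Pool.Agent.MP_48470b_gt.TM.Pack

/-! Soundness of the local stage. -/

set_option autoImplicit false
set_option maxHeartbeats 400000

namespace Pool.Agent.MP_48470b_gt.Gap
open Finset

theorem cnd_true {b c : Bool} (h : cnd b c false = true) : b = true ∧ c = true := by
  cases b
  · exact absurd h Bool.false_ne_true
  · exact ⟨rfl, h⟩

namespace Z

/-- the value -/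
noncomputable def v (x : Z) : ℝ := (x.p : ℝ) - x.n

variable (x y : Z) (k : ℕ)

theorem v_add : (x.add y).v = x.v + y.v := by simp only [v, add, Nat.add_eq]; push_cast; ring
theorem v_sub : (x.sub y).v = x.v - y.v := by simp only [v, sub, Nat.add_eq]; push_cast; ring
theorem v_neg : x.neg.v = -x.v := by simp only [v, neg]; ring
theorem v_sm : (x.sm k).v = x.v * k := by simp only [v, sm, Nat.mul_eq]; push_cast; ring
theorem v_ad : (x.ad k).v = x.v + k := by simp only [v, ad, Nat.add_eq]; push_cast; ring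
theorem v_mk : (Z.mk k 0).v = k := by simp [v]
theorem v_of (f o : ℕ) : (of f o).v = f - o := by
  simp only [v, of, Nat.sub_eq]
  rcases le_total f o with h | h
  · rw [Nat.sub_eq_zero_of_le h, Nat.cast_sub h]; ring
  · rw [Nat.sub_eq_zero_of_le h, Nat.cast_sub h]; ring
theorem mp_mn : (x.mp y : ℝ) - x.mn y = x.v * y.v := by
  simp only [v, mp, mn, Nat.add_eq, Nat.mul_eq]; push_cast; ring
theorem v_mul : (x.mul y).v = x.v * y.v := mp_mn x y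
theorem v_dot (a b c d e f : Z) : (dot a b c d e f).v = a.v * b.v + c.v * d.v + e.v * f.v := by
  rw [← mp_mn, ← mp_mn, ← mp_mn]
  simp only [v, dot, Nat.add_eq]; push_cast; ring
theorem abs_le : |x.v| ≤ x.ab := by
  have := Nat.cast_nonneg (α := ℝ) x.p
  have := Nat.cast_nonneg (α := ℝ) x.n
  simp only [v, ab, Nat.add_eq]; push_cast
  exact _root_.abs_le.2 ⟨by linarith, by linarith⟩
theorem le_p : x.v ≤ x.p := sub_le_self _ (Nat.cast_nonneg _)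

end Z

namespace Loc

theorem le_tr (x : Z) : x.v ≤ tr x := by
  simp only [Z.v, tr, Nat.sub_eq]
  rcases le_total x.p x.n with h | h
  · rw [Nat.sub_eq_zero_of_le h, Nat.cast_zero, sub_nonpos]; exact_mod_cast h
  · rw [Nat.cast_sub h]

theorem tr_eq {x : Z} (h : 1 ≤ tr x) : (tr x : ℝ) = x.v :=
  Nat.cast_sub (by simp only [tr, Nat.sub_eq] at h; omega)

theorem f32_v (w s : ℕ) : (f32 w (32 * s)).v = dat w s := by
  have : (w.shiftRight (32 * s)).land 4294967295 = w / 2 ^ (32 * s) % 2 ^ 32 := by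
    rw [← Nat.and_two_pow_sub_one_eq_mod, ← Nat.shiftRight_eq_div_pow]; rfl
  rw [f32, Z.v_of, this, dat, Int.cast_sub, Int.cast_natCast]; norm_num

theorem ent_spec {Λ G L wt : ℕ} {p x y : Z} (h : ent Λ (G.mul Λ) L wt p x y ≠ 0) :
    |(ent Λ (G.mul Λ) L wt p x y : ℝ) - G - wt * (L * p.v - x.v * y.v) / Λ| ≤ 1 := by
  rw [← Z.mp_mn, Z.v]
  simp only [ent, Nat.add_eq, Nat.mul_eq, Nat.sub_eq] at h ⊢
  change _ / Λ ≠ 0 at h
  obtain ⟨h1, h2⟩ := Nat.div_ne_zero_iff.1 h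
  have h3 : (0 : ℝ) < Λ := Nat.cast_pos.2 (Nat.pos_of_ne_zero h1)
  have h4 : wt * (L * p.n + x.mp y) ≤ wt * (L * p.p + x.mn y) + G * Λ := by omega
  have h5 := Nat.cast_sub (R := ℝ) h4
  generalize wt * (L * p.p + x.mn y) + G * Λ - wt * (L * p.n + x.mp y) = N at h5
  have h6 : ((N / Λ : ℕ) : ℝ) * Λ ≤ N := by exact_mod_cast Nat.div_mul_le_self N Λ
  have h7 : (N : ℝ) < ((N / Λ : ℕ) + 1) * Λ := by
    exact_mod_cast (Nat.div_lt_iff_lt_mul (Nat.pos_of_ne_zero h1)).1 (Nat.lt_succ_self _)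
  change |((N / Λ : ℕ) : ℝ) - _ - _| ≤ 1
  have h8 : (wt : ℝ) * (L * (p.p - p.n) - (x.mp y - x.mn y)) / Λ = N / Λ - G := by
    rw [h5]; push_cast; field_simp; ring
  rw [h8, abs_le]
  exact ⟨by linarith [(div_le_iff₀ h3).2 h7.le], by linarith [(le_div_iff₀ h3).2 h6]⟩

theorem hz_eq (a b : ℕ) : hz a b = a + 2 ^ 128 * b := by
  rw [mul_comm, ← Nat.shiftLeft_eq]; rfl

theorem hz_zero (a : ℕ) : hz a 0 = a := by rw [hz_eq, mul_zero, add_zero]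

theorem lk_hz (l : List ℕ) (hl : ∀ a ∈ l, a < 2 ^ 128) (t : ℕ) :
    l.foldr hz 0 / 2 ^ (128 * t) % 2 ^ 128 = l.getD t 0 := by
  induction l generalizing t with
  | nil => simp
  | cons a l ih =>
    have h1 := hl a List.mem_cons_self
    rw [List.foldr_cons, hz_eq]
    rcases t with _ | t
    · simp only [mul_zero, pow_zero, Nat.div_one, Nat.add_mul_mod_self_left, List.getD_cons_zero]
      exact Nat.mod_eq_of_lt h1
    · rw [List.getD_cons_succ, ← ih (fun b hb => hl b (List.mem_cons_of_mem _ hb)), mul_add,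
        mul_one, add_comm (128 * t), pow_add, ← Nat.div_div_eq_div_mul,
        Nat.add_mul_div_left _ _ (by positivity), Nat.div_eq_of_lt h1, zero_add]

theorem lk_eq (l : List ℕ) (hl : ∀ a ∈ l, a < 2 ^ 128) (x y : ℕ) :
    lk (l.foldr hz 0) x y = l.getD (6 * x + y) 0 := by
  rw [← lk_hz l hl, ← Nat.and_two_pow_sub_one_eq_mod, ← Nat.shiftRight_eq_div_pow,
    show 128 * (6 * x + y) = x * 768 + y * 128 by ring]
  rfl

theorem fin {e p : ℕ → ℕ → ℝ} {l S : ℕ → ℝ} {κ L dl m : ℝ} (hκ : 0 ≤ κ) (hL : 0 < L)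
    (h : ∀ x y, x ≤ y → y < 6 →
      |e x y + (if x = y then dl else 0) - κ * (p x y - l x * l y / L)| ≤ 1) :
    ∑ x ∈ range 6, ∑ y ∈ range 6, e (min x y) (max x y) * (S x * S y) +
      (dl - 6) * ∑ x ∈ range 6, S x ^ 2 ≤ κ * (L * m ^ 2 + 2 * m * ∑ x ∈ range 6, l x * S x +
        ∑ x ∈ range 6, ∑ y ∈ range 6, p (min x y) (max x y) * (S x * S y)) := by
  have h1 : ∀ x ∈ range 6, ∀ y ∈ range 6, e (min x y) (max x y) * (S x * S y) ≤
      κ * (p (min x y) (max x y) * (S x * S y)) - κ / L * (l x * S x * (l y * S y)) -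
      (if x = y then dl * S x ^ 2 else 0) + (S x ^ 2 / 2 + S y ^ 2 / 2) := fun x hx y hy => by
    have a := h _ _ min_le_max (max_lt (mem_range.1 hx) (mem_range.1 hy))
    rw [show l (min x y) * l (max x y) = l x * l y by
      rcases le_total x y with c | c <;> simp [c, mul_comm]] at a
    have b : (if min x y = max x y then dl else 0) * (S x * S y) =
        if x = y then dl * S x ^ 2 else 0 := by
      by_cases c : x = y
      · simp [c, sq]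
      · rw [if_neg c, if_neg (by omega), zero_mul]
    rw [← b]
    have c := (le_abs_self _).trans ((abs_mul _ (S x * S y)).trans_le
      (mul_le_of_le_one_left (abs_nonneg _) a))
    have d : |S x * S y| ≤ S x ^ 2 / 2 + S y ^ 2 / 2 :=
      abs_le.2 ⟨by nlinarith [sq_nonneg (S x + S y)], by nlinarith [sq_nonneg (S x - S y)]⟩
    have : κ / L * (l x * S x * (l y * S y)) = κ * (l x * l y / L) * (S x * S y) := by ring
    linarith
  have h2 := sum_le_sum fun x hx => sum_le_sum (h1 x hx)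
  simp only [sum_add_distrib, sum_sub_distrib, ← mul_sum, ← sum_mul, sum_ite_eq, sum_const,
    card_range, nsmul_eq_mul, ← sum_div] at h2
  rw [sum_congr rfl fun x hx => if_pos hx, ← mul_sum] at h2
  generalize ∑ x ∈ range 6, l x * S x = t at h2 ⊢
  have h3 : 0 ≤ κ / L * (L * m + t) ^ 2 := by positivity
  have h4 : κ / L * (L * m + t) ^ 2 = κ * (L * m ^ 2 + 2 * m * t) + κ / L * (t * t) := by
    field_simp; ring
  push_cast at h2
  linarith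

theorem st5_ok {e00 e01 e02 e03 e04 e05 e11 e12 e13 e14 e15 e22 e23 e24 e25 e33 e34 e35 e44 e45
      e55 : ℕ} {k : (ℕ → ℕ → ℕ) → Bool} (h : st5 e00 e01 e02 e03 e04 e05 e11 e12 e13 e14 e15 e22
      e23 e24 e25 e33 e34 e35 e44 e45 e55 k = true) : ∃ e, k e = true ∧ (∀ x y, e x y ≤ 2 * G0) ∧
      (∀ x y, e x y = [e00, e01, e02, e03, e04, e05, 0, e11, e12, e13, e14, e15, 0, 0, e22, e23,
      e24, e25, 0, 0, 0, e33, e34, e35, 0, 0, 0, 0, e44, e45, 0, 0, 0, 0, 0, e55].getD (6 * x + y)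
      0) ∧ e00 ≠ 0 ∧ e01 ≠ 0 ∧ e02 ≠ 0 ∧ e03 ≠ 0 ∧ e04 ≠ 0 ∧ e05 ≠ 0 ∧ e11 ≠ 0 ∧ e12 ≠ 0 ∧ e13 ≠ 0
      ∧ e14 ≠ 0 ∧ e15 ≠ 0 ∧ e22 ≠ 0 ∧ e23 ≠ 0 ∧ e24 ≠ 0 ∧ e25 ≠ 0 ∧ e33 ≠ 0 ∧ e34 ≠ 0 ∧ e35 ≠ 0 ∧
      e44 ≠ 0 ∧ e45 ≠ 0 ∧ e55 ≠ 0 := by
  obtain ⟨h1, h2⟩ := cnd_true h
  obtain ⟨h2, h3⟩ := cnd_true h2
  have h4 := Nat.one_le_iff_ne_zero.1 (Nat.le_of_ble_eq_true h1)
  have h5 := Nat.le_of_ble_eq_true h2
  simp only [Nat.mul_eq, mul_ne_zero_iff, and_assoc] at h4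
  have b : ∀ a b c : ℕ, a.lor b ≤ c → a ≤ c ∧ b ≤ c := fun a b c h =>
    ⟨Nat.left_le_or.trans h, Nat.right_le_or.trans h⟩
  obtain ⟨h5, c20⟩ := b _ _ _ h5
  obtain ⟨h5, c19⟩ := b _ _ _ h5
  obtain ⟨h5, c18⟩ := b _ _ _ h5
  obtain ⟨h5, c17⟩ := b _ _ _ h5
  obtain ⟨h5, c16⟩ := b _ _ _ h5
  obtain ⟨h5, c15⟩ := b _ _ _ h5
  obtain ⟨h5, c14⟩ := b _ _ _ h5
  obtain ⟨h5, c13⟩ := b _ _ _ h5
  obtain ⟨h5, c12⟩ := b _ _ _ h5
  obtain ⟨h5, c11⟩ := b _ _ _ h5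
  obtain ⟨h5, c10⟩ := b _ _ _ h5
  obtain ⟨h5, c9⟩ := b _ _ _ h5
  obtain ⟨h5, c8⟩ := b _ _ _ h5
  obtain ⟨h5, c7⟩ := b _ _ _ h5
  obtain ⟨h5, c6⟩ := b _ _ _ h5
  obtain ⟨h5, c5⟩ := b _ _ _ h5
  obtain ⟨h5, c4⟩ := b _ _ _ h5
  obtain ⟨h5, c3⟩ := b _ _ _ h5
  obtain ⟨h5, c2⟩ := b _ _ _ h5
  obtain ⟨h5, c1⟩ := b _ _ _ h5
  have hl : ∀ a ∈ [e00, e01, e02, e03, e04, e05, 0, e11, e12, e13, e14, e15, 0, 0, e22, e23, e24,
      e25, 0, 0, 0, e33, e34, e35, 0, 0, 0, 0, e44, e45, 0, 0, 0, 0, 0, e55], a ≤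
      10633823966279326983230456482242756607 := by
    simp only [List.mem_cons, List.not_mem_nil, or_false, forall_eq_or_imp, forall_eq, zero_le,
      true_and, *]
  have e := lk_eq _ fun a ha => (hl a ha).trans_lt (by norm_num)
  rw [← hz_zero e55] at h3
  simp only [List.foldr] at e
  refine ⟨_, h3, fun x y => ?_, e, h4⟩
  refine (e x y).trans_le ?_
  rw [List.getD_eq_getElem?_getD]
  rcases h : (_ : List ℕ)[6 * x + y]? with _ | a
  · exact Nat.zero_le _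
  · exact (hl a (List.mem_of_getElem? h)).trans (by norm_num [G0])

/-- the conclusion of the local stage for the form `Q` -/
def Con (k : (ℕ → ℕ → ℕ) → Bool) (dl : ℕ) (Q : (ℕ → ℝ) → ℝ → ℝ) : Prop :=
  ∃ e : ℕ → ℕ → ℕ, k e = true ∧ (∀ x y, e x y ≤ 2 * G0) ∧ ∀ (S : ℕ → ℝ) (m : ℝ),
    ∑ x ∈ range 6, ∑ y ∈ range 6, ((e (min x y) (max x y) : ℝ) - G0) * (S x * S y) +
      ((dl : ℝ) - 6) * ∑ x ∈ range 6, S x ^ 2 ≤ Q S m

theorem Con.mono {k : (ℕ → ℕ → ℕ) → Bool} {dl : ℕ} {Q Q' : (ℕ → ℝ) → ℝ → ℝ} (h : Con k dl Q)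
    (e : ∀ S m, Q S m ≤ Q' S m) : Con k dl Q' := by
  obtain ⟨a, h1, h2, h3⟩ := h
  exact ⟨a, h1, h2, fun S m => (h3 S m).trans (e S m)⟩

theorem st4_ok {rs dl L wt : ℕ} {l0 l1 l2 l3 l4 l5 p00 p01 p02 p03 p04 p05 p11 p12 p13 p14 p15 p22
      p23 p24 p25 p33 p34 p35 p44 p45 p55 : Z} {k : (ℕ → ℕ → ℕ) → Bool} (hL : 1 ≤ L) (hd : dl ≤
      G0) (h : st4 (L.shiftLeft rs) ((G0.sub dl).mul (L.shiftLeft rs)) (G0.mul (L.shiftLeft rs)) L
      wt l0 l1 l2 l3 l4 l5 p00 p01 p02 p03 p04 p05 p11 p12 p13 p14 p15 p22 p23 p24 p25 p33 p34 p35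
      p44 p45 p55 k = true) : Con k dl fun S m => wt / 2 ^ rs * (L * m ^ 2 + 2 * m * (l0.v * S 0 +
      l1.v * S 1 + l2.v * S 2 + l3.v * S 3 + l4.v * S 4 + l5.v * S 5) + (p00.v * S 0 ^ 2 + p11.v *
      S 1 ^ 2 + p22.v * S 2 ^ 2 + p33.v * S 3 ^ 2 + p44.v * S 4 ^ 2 + p55.v * S 5 ^ 2 + 2 * (p01.v
      * (S 0 * S 1) + p02.v * (S 0 * S 2) + p03.v * (S 0 * S 3) + p04.v * (S 0 * S 4) + p05.v * (S
      0 * S 5) + p12.v * (S 1 * S 2) + p13.v * (S 1 * S 3) + p14.v * (S 1 * S 4) + p15.v * (S 1 *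
      S 5) + p23.v * (S 2 * S 3) + p24.v * (S 2 * S 4) + p25.v * (S 2 * S 5) + p34.v * (S 3 * S 4)
      + p35.v * (S 3 * S 5) + p45.v * (S 4 * S 5)))) := by
  obtain ⟨e, h1, h2, h3, c00, c01, c02, c03, c04, c05, c11, c12, c13, c14, c15, c22, c23, c24,
      c25, c33, c34, c35, c44, c45, c55⟩ := st5_ok h
  have p0 : (0 : ℝ) < L := Nat.cast_pos.2 hL
  have e1 : ((L.shiftLeft rs : ℕ) : ℝ) = L * 2 ^ rs := by
    rw [Nat.shiftLeft_eq', Nat.shiftLeft_eq]; push_cast; rfl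
  have e2 : ((G0.sub dl : ℕ) : ℝ) = G0 - dl := Nat.cast_sub hd
  have e3 : ∀ a b : ℝ, wt * (L * a - b) / (L * 2 ^ rs) = wt / 2 ^ rs * (a - b / L) := fun a b => by
    field_simp
  refine ⟨e, h1, h2, fun S m => ?_⟩
  refine (fin (e := fun x y => (e x y : ℝ) - G0) (p := fun x y => ([p00, p01, p02, p03, p04, p05,
      l0, p11, p12, p13, p14, p15, l0, l0, p22, p23, p24, p25, l0, l0, l0, p33, p34, p35, l0, l0,
      l0, l0, p44, p45, l0, l0, l0, l0, l0, p55].getD (6 * x + y) l0).v) (l := fun x => ([l0, l1,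
      l2, l3, l4, l5].getD x l0).v) (κ := wt / 2 ^ rs) (m := m) (by positivity) p0 fun x y a b =>
      ?_).trans_eq ?_
  · rw [h3]
    interval_cases y <;> interval_cases x
    · have := ent_spec c00; rw [e1, e2, e3, ← sub_add] at this; simpa using this
    · have := ent_spec c01; rw [e1, e3] at this; simpa using this
    · have := ent_spec c11; rw [e1, e2, e3, ← sub_add] at this; simpa using this
    · have := ent_spec c02; rw [e1, e3] at this; simpa using this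
    · have := ent_spec c12; rw [e1, e3] at this; simpa using this
    · have := ent_spec c22; rw [e1, e2, e3, ← sub_add] at this; simpa using this
    · have := ent_spec c03; rw [e1, e3] at this; simpa using this
    · have := ent_spec c13; rw [e1, e3] at this; simpa using this
    · have := ent_spec c23; rw [e1, e3] at this; simpa using this
    · have := ent_spec c33; rw [e1, e2, e3, ← sub_add] at this; simpa using this
    · have := ent_spec c04; rw [e1, e3] at this; simpa using this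
    · have := ent_spec c14; rw [e1, e3] at this; simpa using this
    · have := ent_spec c24; rw [e1, e3] at this; simpa using this
    · have := ent_spec c34; rw [e1, e3] at this; simpa using this
    · have := ent_spec c44; rw [e1, e2, e3, ← sub_add] at this; simpa using this
    · have := ent_spec c05; rw [e1, e3] at this; simpa using this
    · have := ent_spec c15; rw [e1, e3] at this; simpa using this
    · have := ent_spec c25; rw [e1, e3] at this; simpa using this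
    · have := ent_spec c35; rw [e1, e3] at this; simpa using this
    · have := ent_spec c45; rw [e1, e3] at this; simpa using this
    · have := ent_spec c55; rw [e1, e2, e3, ← sub_add] at this; simpa using this
  · refine congrArg _ ?_
    simp [sum_range_succ]
    ring
theorem ab_of (f o h : ℕ) : (((Z.of f o).sm h).ab : ℝ) = |((Z.of f o).sm h).v| := by
  simp only [Z.v, Z.ab, Z.sm, Z.of, Nat.add_eq, Nat.mul_eq, Nat.sub_eq]
  rcases le_total f o with c | c <;> simp [Nat.sub_eq_zero_of_le c]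

theorem mul_le_abs {a t : ℝ} (h : -1 ≤ t ∧ t ≤ 1) : |a * t| ≤ |a| := by
  rw [abs_mul]; exact mul_le_of_le_one_right (abs_nonneg _) (abs_le.2 h)

theorem aff_le {x : ℕ → ℝ} {a b c d : Z} (h0 : a.v = 2 ^ 20 * x 0) (h1 : b.v = 2 ^ 20 * x 1)
    (h2 : c.v = 2 ^ 20 * x 2) (h3 : d.v = 2 ^ 20 * x 3) {t : P3} (ht : Box (-1) 1 t) :
    |aff x t| ≤ sa a b c d / 2 ^ 20 ∧
      aff x t ≤ tr (a.ad ((b.ab.add c.ab).add d.ab)) / 2 ^ 20 := by
  have e : aff x t * 2 ^ 20 = a.v + b.v * t.1 + c.v * t.2.1 + d.v * t.2.2 := by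
    rw [h0, h1, h2, h3, aff]; ring
  have a0 := abs_le.1 a.abs_le
  have a1 := abs_le.1 ((mul_le_abs ht.1).trans b.abs_le)
  have a2 := abs_le.1 ((mul_le_abs ht.2.1).trans c.abs_le)
  have a3 := abs_le.1 ((mul_le_abs ht.2.2).trans d.abs_le)
  have a4 := le_tr (a.ad ((b.ab.add c.ab).add d.ab))
  rw [Z.v_ad] at a4
  rw [le_div_iff₀ (by positivity), le_div_iff₀ (by positivity), ← abs_of_pos
    (show (0 : ℝ) < 2 ^ 20 by positivity), ← abs_mul, abs_of_pos (show (0 : ℝ) < 2 ^ 20 by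
    positivity), e, abs_le]
  simp only [sa, Nat.add_eq, Nat.cast_add] at a4 ⊢
  exact ⟨⟨by linarith, by linarith⟩, by linarith⟩

theorem qf_le {β : ℕ → ℝ} {a0 a1 a2 a3 a4 a5 : ℝ} (h0 : β 0 ≤ a0) (h1 : β 1 ≤ a1) (h2 : β 2 ≤ a2)
    (h3 : |β 3| ≤ a3) (h4 : |β 4| ≤ a4) (h5 : |β 5| ≤ a5) (p q r : ℝ) : qf β p q r ≤
      (a0 + a3 + a4) * p ^ 2 + (a1 + a3 + a5) * q ^ 2 + (a2 + a4 + a5) * r ^ 2 := by
  have k : ∀ {b a : ℝ} (x y : ℝ), |b| ≤ a → 2 * (b * x * y) ≤ a * x ^ 2 + a * y ^ 2 :=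
    fun {b a} x y h => by
      obtain ⟨c1, c2⟩ := abs_le.1 h
      nlinarith [mul_nonneg (sub_nonneg.2 c2) (sq_nonneg (x + y)),
        mul_nonneg (show 0 ≤ a + b by linarith) (sq_nonneg (x - y))]
  have := k p q h3
  have := k p r h4
  have := k q r h5
  have := mul_le_mul_of_nonneg_right h0 (sq_nonneg p)
  have := mul_le_mul_of_nonneg_right h1 (sq_nonneg q)
  have := mul_le_mul_of_nonneg_right h2 (sq_nonneg r)
  unfold qf
  linarith

theorem th_ge (a0 a1 a2 a3 a4 a5 : ℕ) : 0 < th a0 a1 a2 a3 a4 a5 ∧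
    a0 + a3 + a4 ≤ th a0 a1 a2 a3 a4 a5 ∧ a1 + a3 + a5 ≤ th a0 a1 a2 a3 a4 a5 ∧
    a2 + a4 + a5 ≤ th a0 a1 a2 a3 a4 a5 := by
  simp only [th, mx, Nat.add_eq, Nat.sub_eq]
  omega

theorem st0_ok {D2 rs dl wt s o0 o1 o2 : ℕ} {b00 b01 b02 b03 b10 b11 b12 b13 b20 b21 b22 b23 b30
      b31 b32 b33 b40 b41 b42 b43 b50 b51 b52 b53 v0 v1 v2 v3 W0 W1 W2 W3 W4 W5 : Z} {k : (ℕ → ℕ →
      ℕ) → Bool} (h : st0 D2 rs dl wt s o0 o1 o2 b00 b01 b02 b03 b10 b11 b12 b13 b20 b21 b22 b23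
      b30 b31 b32 b33 b40 b41 b42 b43 b50 b51 b52 b53 v0 v1 v2 v3 W0 W1 W2 W3 W4 W5 k = true) {b :
      ℕ → ℕ → ℝ} {v : ℕ → ℝ} (e00 : b00.v = 2 ^ 20 * b 0 0) (e01 : b01.v = 2 ^ 20 * b 0 1) (e02 :
      b02.v = 2 ^ 20 * b 0 2) (e03 : b03.v = 2 ^ 20 * b 0 3) (e10 : b10.v = 2 ^ 20 * b 1 0) (e11 :
      b11.v = 2 ^ 20 * b 1 1) (e12 : b12.v = 2 ^ 20 * b 1 2) (e13 : b13.v = 2 ^ 20 * b 1 3) (e20 :
      b20.v = 2 ^ 20 * b 2 0) (e21 : b21.v = 2 ^ 20 * b 2 1) (e22 : b22.v = 2 ^ 20 * b 2 2) (e23 :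
      b23.v = 2 ^ 20 * b 2 3) (e30 : b30.v = 2 ^ 20 * b 3 0) (e31 : b31.v = 2 ^ 20 * b 3 1) (e32 :
      b32.v = 2 ^ 20 * b 3 2) (e33 : b33.v = 2 ^ 20 * b 3 3) (e40 : b40.v = 2 ^ 20 * b 4 0) (e41 :
      b41.v = 2 ^ 20 * b 4 1) (e42 : b42.v = 2 ^ 20 * b 4 2) (e43 : b43.v = 2 ^ 20 * b 4 3) (e50 :
      b50.v = 2 ^ 20 * b 5 0) (e51 : b51.v = 2 ^ 20 * b 5 1) (e52 : b52.v = 2 ^ 20 * b 5 2) (e53 :
      b53.v = 2 ^ 20 * b 5 3) (f0 : v0.v = 2 ^ 20 * v 0) (f1 : v1.v = 2 ^ 20 * v 1) (f2 : v2.v = 2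
      ^ 20 * v 2) (f3 : v3.v = 2 ^ 20 * v 3) (a0 : (b01.ab : ℝ) = |b01.v|) (a1 : (b12.ab : ℝ) =
      |b12.v|) (a2 : (b23.ab : ℝ) = |b23.v|) : ∃ (σ θ vs : ℝ) (u : (ℕ → ℝ) → ℝ → ℕ → ℝ), 1 ≤ σ ∧ 0
      < θ ∧ (∀ t, Box (-1) 1 t → ∀ p q r : ℝ, qf (fun e => aff (b e) t) p q r ≤ θ * (p ^ 2 + q ^ 2
      + r ^ 2)) ∧ (∀ t, Box (-1) 1 t → aff v t ≤ vs) ∧ σ * θ * vs ≤ 8 * D2 * (σ - 1) ∧ Con k dl
      fun S m => wt / 2 ^ rs * (2 ^ 68 * low (4 * D2) σ b v S m (u S m)) := by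
  obtain ⟨h1, h2⟩ := cnd_true h
  obtain ⟨h2, h3⟩ := cnd_true h2
  obtain ⟨h4, h5⟩ := cnd_true h3
  obtain ⟨h5, h6⟩ := cnd_true h5
  have k1 := Nat.le_of_ble_eq_true h1
  have k2 := Nat.cast_le (α := ℝ).2 (Nat.le_of_ble_eq_true h2)
  have k3 := tr_eq (Nat.le_of_ble_eq_true h4)
  have k4 := st4_ok (Nat.le_of_ble_eq_true h4) (Nat.le_of_ble_eq_true h5) h6
  clear h h1 h2 h3 h4 h5 h6
  have k5 : (256 : ℝ) ≤ s := by exact_mod_cast k1
  obtain ⟨t0, t1, t2, t3⟩ := th_ge (sa b00 b01 b02 b03) (sa b10 b11 b12 b13) (sa b20 b21 b22 b23)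
      (sa b30 b31 b32 b33) (sa b40 b41 b42 b43) (sa b50 b51 b52 b53)
  simp only [Nat.mul_eq, Nat.sub_eq, Nat.cast_mul, Nat.cast_sub k1, Nat.cast_ofNat] at k2
  generalize th _ _ _ _ _ _ = θ at t0 t1 t2 t3 k2
  refine ⟨s / 256, θ / 2 ^ 20, _, fun S m x => [(W0.v * (S 1 - S 0) + W3.v * (S 3 - S 2) + W4.v *
      (S 5 - S 4)) / 2 ^ 20, (W3.v * (S 1 - S 0) + W1.v * (S 3 - S 2) + W5.v * (S 5 - S 4)) / 2 ^
      20, (W4.v * (S 1 - S 0) + W5.v * (S 3 - S 2) + W2.v * (S 5 - S 4)) / 2 ^ 20, o0 * (S 1 + S 0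
      - 2 * m) / 2 ^ 20, o1 * (S 3 + S 2 - 2 * m) / 2 ^ 20, o2 * (S 5 + S 4 - 2 * m) / 2 ^
      20].getD x 0, by linarith, by positivity, fun t ht p q r => ?_, fun t ht => (aff_le f0 f1 f2
      f3 ht).2, by linarith, k4.mono fun S m => le_of_eq (congrArg _ ?_)⟩
  · refine (qf_le (abs_le.1 (aff_le e00 e01 e02 e03 ht).1).2 (abs_le.1 (aff_le e10 e11 e12 e13
      ht).1).2 (abs_le.1 (aff_le e20 e21 e22 e23 ht).1).2 (aff_le e30 e31 e32 e33 ht).1 (aff_le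
      e40 e41 e42 e43 ht).1 (aff_le e50 e51 e52 e53 ht).1 p q r).trans ?_
    simp only [← add_div, ← Nat.cast_add, mul_add]
    gcongr
  · have c : ∀ x : ℝ, |2 ^ 20 * x| = 2 ^ 20 * |x| := fun x => by
      rw [abs_mul, abs_of_pos (by positivity)]
    rw [k3]
    simp only [pe, ze, Z.v_add, Z.v_sub, Z.v_neg, Z.v_sm, Z.v_ad, Z.v_mk, Z.v_mul, Z.v_dot,
      Nat.mul_eq, Nat.cast_mul, Nat.cast_ofNat, a0, a1, a2, e00, e01, e10, e12, e20, e23, e30,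
      e31, e32, e40, e41, e43, e50, e52, e53, f0, f1, f2, f3, c, low, MF, qf, List.getD_cons_succ,
      List.getD_cons_zero]
    ring

end Loc

open Loc in
/-- **Soundness of the local stage.** -/
theorem locK_sound {n D : ℕ} {br : ℕ → ℕ} (hg : Grid n D br) {i j k : ℕ} (hi : i < n) (hj : j < n)
    (hk : k < n) {bb : ℕ → P3 → ℝ} {vv : P3 → ℝ} {cw ax rs δ mu : ℕ} {K : (ℕ → ℕ → ℕ) → Bool}
    (hc : CellOK D br bb vv cw i j k)
    (h : locK (D * D) rs (δ + 6) cw ax (wd br i) (wd br j) (wd br k) mu K = true) :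
    ∃ e : ℕ → ℕ → ℕ, K e = true ∧ (∀ x y, x ≤ y → y < 6 → e x y ≤ 2 * G0) ∧
      ∀ (w w1 w2 w3 G : P3 → ℝ), Grad w w1 w2 w3 → Continuous G → Sym3 w →
      (∀ ξ, Box 0 1 ξ → ∀ p q r : ℝ, 2 * (p * w1 ξ + q * w2 ξ + r * w3 ξ) -
        qf (fun e => bb e ξ) p q r - vv ξ * w ξ ^ 2 ≤ G ξ) →
      ∑ x ∈ Finset.range 6, ∑ y ∈ Finset.range 6,
          ((e (min x y) (max x y) : ℝ) - G0) * (cf D br i j k w x * cf D br i j k w y) +
        δ * ∑ x ∈ Finset.range 6, cf D br i j k w x ^ 2 ≤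
      180 * D ^ 2 * 2 ^ 68 / 2 ^ rs * (((mu * (wd br i * wd br j * wd br k) : ℕ) : ℝ) *
        T3 fun t => G (cm D br i j k t)) := by
  obtain ⟨E, hE⟩ : ∃ E : ℕ → ℝ, E = fun e => ((f32 cw (32 * (5 * e + 4))).p : ℝ) := ⟨_, rfl⟩
  obtain ⟨b, hb⟩ : ∃ b : ℕ → ℕ → ℝ, b = fun e c => ((dat cw (5 * e + c) : ℝ) + if c = 0 then
      [E 0 + E 3 + E 4, E 1 + E 3 + E 5, E 2 + E 4 + E 5].getD e 0 else 0) *
      [(wd br i : ℝ) * wd br i, wd br j * wd br j, wd br k * wd br k, wd br i * wd br j,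
        wd br i * wd br k, wd br j * wd br k].getD e 0 / 2 ^ 20 := ⟨_, rfl⟩
  have q : ∀ x : ℝ, 2 ^ 20 * (x / 2 ^ 20) = x := fun x => by ring
  have d : ∀ s, (dat cw s : ℝ) = (f32 cw (32 * s)).v := fun s => (f32_v cw s).symm
  refine (st0_ok h (b := b) (v := fun c => (dat cw (30 + c) : ℝ) / 2 ^ 20) ?_ ?_ ?_ ?_ ?_ ?_ ?_ ?_
      ?_ ?_ ?_ ?_ ?_ ?_ ?_ ?_ ?_ ?_ ?_ ?_ ?_ ?_ ?_ ?_ ((f32_v cw 30).trans (q _).symm) ((f32_v cw
      31).trans (q _).symm) ((f32_v cw 32).trans (q _).symm) ((f32_v cw 33).trans (q _).symm)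
      (ab_of _ _ _) (ab_of _ _ _) (ab_of _ _ _)).elim ?_
  iterate 24
    simp only [hb, hE, q, d, Z.v_sm, Z.v_ad, Nat.reduceMul, Nat.reduceAdd, List.getD_cons_succ,
      List.getD_cons_zero, List.getD_nil, if_true, one_ne_zero, OfNat.ofNat_ne_zero, if_false,
      add_zero, Nat.mul_eq, Nat.add_eq, Nat.cast_mul, Nat.cast_add]
  rintro σ ⟨θ, vs, u, h1, h2, h3, h4, h5, e, h6, h7, h8⟩
  refine ⟨e, h6, fun x y _ _ => h7 x y, fun w w1 w2 w3 G g1 g2 g3 g4 => ?_⟩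
  refine (cell_real hg hi hj hk g1 g2 g3 g4 b _ h1 h2 (fun t ht p q r => ?_)
    (fun t ht => ?_) h3 h4 (by simpa [sq] using h5)).elim fun m hm => ?_
  rotate_right
  · have a := h8 (cf D br i j k w) m
    have c := mul_le_mul_of_nonneg_left (hm (u (cf D br i j k w) m)) (show (0 : ℝ) ≤
      (mu * (wd br i * wd br j * wd br k) : ℕ) / 2 ^ rs * 2 ^ 68 from
        mul_nonneg (div_nonneg (Nat.cast_nonneg _) (by positivity)) (by norm_num))
    simp only [Nat.mul_eq, Nat.cast_mul, Nat.cast_add, Nat.cast_ofNat, add_sub_cancel_right,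
      ← sq, Nat.cast_pow] at a c ⊢
    linear_combination a + c
  · have a : ∀ e < 6, |bb e (cm D br i j k t) - aff (fun c => (dat cw (5 * e + c) : ℝ)) t / 2 ^ 20|
        ≤ E e / 2 ^ 20 := fun e he => by
      have := ((hc t ht).1 e he).trans ((f32_v cw _).symm.trans_le (Z.le_p _))
      rw [hE, abs_le] at *
      constructor <;> linarith [this.1, this.2]
    have c := qf_le (β := fun e => bb e (cm D br i j k t) -
      aff (fun c => (dat cw (5 * e + c) : ℝ)) t / 2 ^ 20) (abs_le.1 (a 0 (by norm_num))).2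
      (abs_le.1 (a 1 (by norm_num))).2 (abs_le.1 (a 2 (by norm_num))).2 (a 3 (by norm_num))
      (a 4 (by norm_num)) (a 5 (by norm_num)) (wd br i * p) (wd br j * q) (wd br k * r)
    simp only [hb, qf, aff, List.getD_cons_succ, List.getD_cons_zero, List.getD_nil, if_true,
      one_ne_zero, OfNat.ofNat_ne_zero, if_false] at c ⊢
    linear_combination c
  · have := (hc t ht).2
    simp only [aff] at this ⊢
    linarith

end Pool.Agent.MP_48470b_gt.Gap
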