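import Pool.Agent.MP_48470b_gt.Gap.G2b0

/-! Splitting the cube into sorted cells. -/

set_option autoImplicit false
set_option maxHeartbeats 400000

namespace Pool.Agent.MP_48470b_gt.Gap
open intervalIntegral MeasureTheory Finset

@[fun_prop] lemma c1_cont (D : ℕ) (br : ℕ → ℕ) (i : ℕ) : Continuous (c1 D br i) := by
  unfold c1; fun_prop

@[fun_prop] lemma cm_cont (D : ℕ) (br : ℕ → ℕ) (i j k : ℕ) : Continuous (cm D br i j k) := by
  unfold cm; fun_prop

/-- face mean as a linear map -/
theorem fm_lin (D : ℕ) (br : ℕ → ℕ) (t a b : ℕ) :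
    ∃ L : C(P3, ℝ) →ₗ[ℝ] ℝ, ∀ w : C(P3, ℝ), L w = fm D br t a b w := by
  refine ⟨⟨⟨fun w => fm D br t a b w, fun v w => ?_⟩, fun c w => ?_⟩, fun _ => rfl⟩
  · have hv := v.continuous
    have hw := w.continuous
    simp only [fm, T2, ContinuousMap.add_apply]
    rw [← mul_add, ← intervalIntegral.integral_add
      (Continuous.intervalIntegrable (by fun_prop) _ _)
      (Continuous.intervalIntegrable (by fun_prop) _ _)]
    refine congrArg _ (integral_congr fun y _ => ?_)
    exact intervalIntegral.integral_add (Continuous.intervalIntegrable (by fun_prop) _ _)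
      (Continuous.intervalIntegrable (by fun_prop) _ _)
  · simp only [fm, T2, ContinuousMap.smul_apply, smul_eq_mul, intervalIntegral.integral_const_mul,
      RingHom.id_apply]
    ring

lemma split1 {n D : ℕ} {br : ℕ → ℕ} (hg : Grid n D br) {φ : ℝ → ℝ} (h : Continuous φ) :
    (D : ℝ) * ∫ a in (0 : ℝ)..1, φ a =
      ∑ i ∈ range n, (wd br i : ℝ) / 2 * ∫ x in (-1 : ℝ)..1, φ (c1 D br i x) := by
  have hD : (D : ℝ) ≠ 0 := Nat.cast_ne_zero.2 hg.pos.ne'
  have h1 := sum_integral_adjacent_intervals (μ := volume) (f := φ)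
    (a := fun i => (br i : ℝ) / D) (n := n) fun _ _ => h.intervalIntegrable _ _
  simp only [hg.h0, hg.hn, Nat.cast_zero, zero_div, div_self hD] at h1
  rw [← h1, mul_sum]
  refine sum_congr rfl fun i hi => ?_
  have h2 : (wd br i : ℝ) = br (i + 1) - br i := by
    rw [wd, Nat.cast_sub (hg.lt i (mem_range.1 hi)).le]
  have h3 := smul_integral_comp_mul_add (a := (-1 : ℝ)) (b := 1) φ
    (((br (i + 1) : ℝ) - br i) / (2 * D)) (((br i : ℝ) + br (i + 1)) / (2 * D))
  rw [show ((br (i + 1) : ℝ) - br i) / (2 * D) * -1 + ((br i : ℝ) + br (i + 1)) / (2 * D) =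
      br i / D by field_simp; ring,
    show ((br (i + 1) : ℝ) - br i) / (2 * D) * 1 + ((br i : ℝ) + br (i + 1)) / (2 * D) =
      br (i + 1) / D by field_simp; ring] at h3
  have h4 : ∀ x, c1 D br i x =
      ((br (i + 1) : ℝ) - br i) / (2 * D) * x + ((br i : ℝ) + br (i + 1)) / (2 * D) := fun x => by
    unfold c1; ring
  simp only [h4]
  rw [← h3, h2, smul_eq_mul]
  field_simp

lemma split3 {n D : ℕ} {br : ℕ → ℕ} (hg : Grid n D br) {G : P3 → ℝ} (hG : Continuous G) :
    (D : ℝ) ^ 3 * ∫ a in (0 : ℝ)..1, ∫ b in (0 : ℝ)..1, ∫ c in (0 : ℝ)..1, G (a, b, c) =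
      ∑ i ∈ range n, ∑ j ∈ range n, ∑ k ∈ range n,
        (wd br i * wd br j * wd br k : ℝ) * T3 fun t => G (cm D br i j k t) := by
  have h1 : ∀ a : ℝ, (D : ℝ) ^ 2 * ∫ b in (0 : ℝ)..1, ∫ c in (0 : ℝ)..1, G (a, b, c) =
      ∑ j ∈ range n, ∑ k ∈ range n, (wd br j * wd br k / 4 : ℝ) *
        ∫ y in (-1 : ℝ)..1, ∫ z in (-1 : ℝ)..1, G (a, c1 D br j y, c1 D br k z) := by
    intro a
    rw [sq, mul_assoc, split1 hg (by fun_prop), mul_sum]
    refine sum_congr rfl fun j _ => ?_
    rw [mul_left_comm, ← intervalIntegral.integral_const_mul (D : ℝ),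
      integral_congr fun y _ => split1 hg (φ := fun c => G (a, c1 D br j y, c)) (by fun_prop),
      intervalIntegral.integral_finsetSum fun k _ =>
        Continuous.intervalIntegrable (by fun_prop) _ _, mul_sum]
    refine sum_congr rfl fun k _ => ?_
    rw [intervalIntegral.integral_const_mul]; ring
  rw [pow_succ, mul_assoc, split1 hg (by fun_prop), mul_sum]
  refine sum_congr rfl fun i _ => ?_
  rw [mul_left_comm, ← intervalIntegral.integral_const_mul ((D : ℝ) ^ 2),
    integral_congr fun x _ => h1 (c1 D br i x),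
    intervalIntegral.integral_finsetSum fun j _ =>
      Continuous.intervalIntegrable (by fun_prop) _ _, mul_sum]
  refine sum_congr rfl fun j _ => ?_
  rw [intervalIntegral.integral_finsetSum fun k _ =>
    Continuous.intervalIntegrable (by fun_prop) _ _, mul_sum]
  refine sum_congr rfl fun k _ => ?_
  rw [intervalIntegral.integral_const_mul]
  simp only [T3, cm]
  ring

lemma sort2 {T : ℕ → ℕ → ℝ} (h : ∀ i j, T i j = T j i) (n : ℕ) :
    ∑ i ∈ range n, ∑ j ∈ range n, T i j = ∑ j ∈ range n, (2 * ∑ i ∈ range j, T i j + T j j) := by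
  induction n with
  | zero => simp
  | succ n ih =>
    simp only [sum_range_succ, sum_add_distrib, h n] at ih ⊢
    linear_combination ih

lemma sort3 {T : ℕ → ℕ → ℕ → ℝ} (h1 : ∀ i j k, T i j k = T j i k) (h2 : ∀ i j k, T i j k = T i k j)
    (n : ℕ) : ∑ i ∈ range n, ∑ j ∈ range n, ∑ k ∈ range n, T i j k =
      ∑ j ∈ range n, ∑ i ∈ range (j + 1), ∑ k ∈ range (n - j),
        (mult i j (j + k) : ℝ) * T i j (j + k) := by
  induction n with
  | zero => simp
  | succ n ih =>
    have e1 : ∑ j ∈ range n, ∑ i ∈ range (j + 1), ∑ k ∈ range (n + 1 - j),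
        (mult i j (j + k) : ℝ) * T i j (j + k) = ∑ j ∈ range n, ∑ i ∈ range (j + 1),
          ∑ k ∈ range (n - j), (mult i j (j + k) : ℝ) * T i j (j + k) +
        3 * ∑ i ∈ range n, ∑ j ∈ range n, T i j n := by
      rw [sort2 (T := fun i j => T i j n) (fun i j => h1 i j n), mul_sum, ← sum_add_distrib]
      refine sum_congr rfl fun j hj => ?_
      have hj := mem_range.1 hj
      rw [show n + 1 - j = n - j + 1 by omega]
      simp only [sum_range_succ _ (n - j), sum_add_distrib, show j + (n - j) = n by omega]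
      have e0 : ∑ i ∈ range j, (mult i j n : ℝ) * T i j n = 6 * ∑ i ∈ range j, T i j n := by
        rw [mul_sum]
        exact sum_congr rfl fun i hi => by simp [mult, (mem_range.1 hi).ne, hj.ne]
      rw [sum_range_succ (fun i => (mult i j n : ℝ) * T i j n), e0]
      simp only [mult, if_true, hj.ne, if_false]
      push_cast
      ring
    have e2 : ∑ i ∈ range (n + 1), ∑ k ∈ range (n + 1 - n), (mult i n (n + k) : ℝ) * T i n (n + k) =
        3 * ∑ i ∈ range n, T i n n + T n n n := by
      rw [show n + 1 - n = 1 by omega]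
      simp only [sum_range_one, add_zero]
      rw [sum_range_succ, sum_congr rfl (g := fun i => 3 * T i n n) fun i hi => by
          simp [mult, (mem_range.1 hi).ne], ← mul_sum]
      simp [mult]
    have e3 : ∀ i j, T n i j = T i j n := fun i j => by rw [h1, h2]
    have e4 : ∀ i j, T i n j = T i j n := fun i j => h2 _ _ _
    have e5 : ∀ i, T n i n = T i n n := fun i => h1 _ _ _
    have e6 : ∑ i ∈ range n, T n n i = ∑ i ∈ range n, T i n n :=
      sum_congr rfl fun i _ => by rw [h2, h1]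
    have e7 : ∑ i ∈ range n, ∑ j ∈ range n, T n i j = ∑ i ∈ range n, ∑ j ∈ range n, T i j n :=
      sum_congr rfl fun i _ => sum_congr rfl fun j _ => e3 i j
    have e8 : ∑ i ∈ range n, ∑ j ∈ range n, T i n j = ∑ i ∈ range n, ∑ j ∈ range n, T i j n :=
      sum_congr rfl fun i _ => sum_congr rfl fun j _ => e4 i j
    have e9 : ∑ i ∈ range n, T n i n = ∑ i ∈ range n, T i n n := sum_congr rfl fun i _ => e5 i
    rw [sum_range_succ (fun j => ∑ i ∈ range (j + 1), ∑ k ∈ range (n + 1 - j),
      (mult i j (j + k) : ℝ) * T i j (j + k)), e1, e2, ← ih]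
    simp only [sum_range_succ, sum_add_distrib]
    linear_combination e6 + e7 + e8 + e9

/-- splitting into sorted cells -/
theorem split_cells {n D : ℕ} {br : ℕ → ℕ} (hg : Grid n D br) {G : P3 → ℝ} (hG : Continuous G)
    (hs : Sym3 G) :
    (D : ℝ) ^ 3 * ∫ a in (0 : ℝ)..1, ∫ b in (0 : ℝ)..1, ∫ c in (0 : ℝ)..1, G (a, b, c) =
      ∑ j ∈ Finset.range n, ∑ i ∈ Finset.range (j + 1), ∑ k ∈ Finset.range (n - j),
        ((mult i j (j + k) * (wd br i * wd br j * wd br (j + k)) : ℕ) : ℝ) *
          T3 fun t => G (cm D br i j (j + k) t) := by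
  rw [split3 hg hG, sort3 (T := fun i j k =>
    (wd br i * wd br j * wd br k : ℝ) * T3 fun t => G (cm D br i j k t))]
  · simp only [Nat.cast_mul, mul_assoc]
  · intro i j k
    rw [← Cb.sw12 (f := fun t => G (cm D br j i k t)) (by fun_prop), mul_comm (wd br i : ℝ)]
    exact congrArg _ (congrArg T3 (funext fun t => hs.1 _ _ _))
  · intro i j k
    rw [← Cb.sw23 (f := fun t => G (cm D br i k j t)) (by fun_prop), mul_right_comm (wd br i : ℝ)]
    exact congrArg _ (congrArg T3 (funext fun t => hs.2 _ _ _))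

end Pool.Agent.MP_48470b_gt.Gap
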