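import Pool.Agent.MP_48470b_gt.Gap.Mach
import Pool.Agent.MP_48470b_gt.Gap.Loc

/-! The local stage plugged into the machine: definitions. -/

set_option autoImplicit false

namespace Pool.Agent.MP_48470b_gt.Gap.Mc

/-- the orbit size of a sorted cell -/
noncomputable def muN (i j k : ℕ) : ℕ :=
  cd (Nat.beq i j) (cd (Nat.beq j k) 1 3) (cd (Nat.beq j k) 3 6)

/-- the local stage for the table `cw` and the widths `H` -/
noncomputable def lkD (D2 rs dl : ℕ) (cw : ℕ → ℕ → ℕ → ℕ) (H : ℕ → ℕ) (a i j k : ℕ)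
    (K : (ℕ → ℕ → ℕ) → Bool) : Bool :=
  locK D2 rs dl (cw i j k) a (H i) (H j) (H k) (muN i j k) K

/-- the first state -/
noncomputable def st0 (m lab : ℕ) : St :=
  ⟨fun _ => Nat.mul (ones m) 11150372599265311570767859136324180752990208, lab, 0, 0⟩

/-- all rows are small -/
noncomputable def fin (c : Cf) (s : St) : Bool := allB (fun j => small c (s.R j)) true c.m

end Pool.Agent.MP_48470b_gt.Gap.Mc
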