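import Pool.Agent.MP_48470b_gt.Gap.MC
import Pool.Agent.MP_48470b_gt.Gap.RunX
import Pool.Agent.MP_48470b_gt.Gap.G3b
import Pool.Agent.MP_48470b_gt.Gap.LocS

/-! From a run of the machine to the count. -/

set_option autoImplicit false

open Finset

namespace Pool.Agent.MP_48470b_gt.Gap.Mc

/-- the test data of the count -/
structure Om (bb : ℕ → P3 → ℝ) (vv : P3 → ℝ) where
  w : C(P3, ℝ)
  w1 : P3 → ℝ
  w2 : P3 → ℝ
  w3 : P3 → ℝ
  G : P3 → ℝ
  h1 : Grad w w1 w2 w3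
  h2 : Continuous G
  h3 : Sym3 w
  h4 : ∀ ξ, Box 0 1 ξ → ∀ p q r : ℝ, 2 * (p * w1 ξ + q * w2 ξ + r * w3 ξ) -
      qf (fun e => bb e ξ) p q r - vv ξ * w ξ ^ 2 ≤ G ξ

open Classical in
/-- the face mean with a given name -/
noncomputable def XF (n D : ℕ) (br : ℕ → ℕ) (id : ℕ) : C(P3, ℝ) →ₗ[ℝ] ℝ :=
  if ∃ i j k x, i ≤ j ∧ j ≤ k ∧ k < n ∧ x < 6 ∧ id = idf i j k x then
    (fm_lin D br (id / 1024) (id / 32 % 32) (id % 32)).choose else 0

theorem fid_dec {t a b : ℕ} (ha : a < 32) (hb : b < 32) :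
    fid t a b / 1024 = t ∧ fid t a b / 32 % 32 = a ∧ fid t a b % 32 = b := by
  have : fid t a b = (t * 32 + a) * 32 + b := rfl
  omega

theorem XF_idf {n D : ℕ} {br : ℕ → ℕ} (hn : n ≤ 32) {i j k x : ℕ} (hi : i ≤ j) (hj : j ≤ k)
    (hk : k < n) (hx : x < 6) (w : C(P3, ℝ)) : XF n D br (idf i j k x) w = cf D br i j k w x := by
  rw [XF, if_pos ⟨i, j, k, x, hi, hj, hk, hx, rfl⟩, (fm_lin D br _ _ _).choose_spec]
  have a : i < 32 := by omega
  have b : j < 32 := by omega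
  have c : k < 32 := by omega
  interval_cases x <;> simp only [idf, cf, fid_dec a b, fid_dec a c, fid_dec b c]

theorem cd_beq (a b x y : ℕ) : cd (Nat.beq a b) x y = if a = b then x else y := by
  cases h : Nat.beq a b
  · rw [if_neg (Nat.ne_of_beq_eq_false h)]; rfl
  · rw [if_pos (Nat.eq_of_beq_eq_true h)]; rfl

theorem muN_eq (i j k : ℕ) : muN i j k = mult i j k := by
  simp only [muN, mult, cd_beq]

/-- the lower bound carried by one cell -/
noncomputable def qC (D : ℕ) (br : ℕ → ℕ) (rs δ : ℕ) (bb : ℕ → P3 → ℝ) (vv : P3 → ℝ) (i j k : ℕ)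
    (ω : Om bb vv) : ℝ :=
  180 * D ^ 2 * 2 ^ 68 / 2 ^ rs * (((mult i j k * (wd br i * wd br j * wd br k) : ℕ) : ℝ) *
    T3 fun t => ω.G (cm D br i j k t)) - δ * ∑ x ∈ range 6, cf D br i j k ω.w x ^ 2

theorem locOK {n D : ℕ} {br : ℕ → ℕ} (hg : Grid n D br) (hn : n ≤ 32) {bb : ℕ → P3 → ℝ}
    {vv : P3 → ℝ} {cw : ℕ → ℕ → ℕ → ℕ} {H : ℕ → ℕ} (hH : ∀ i < n, H i = wd br i) (rs δ : ℕ)
    (hc : ∀ i j k, i ≤ j → j ≤ k → k < n → CellOK D br bb vv (cw i j k) i j k) :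
    LocOK (XF n D br) Om.w n (lkD (D * D) rs (δ + 6) cw H) (qC D br rs δ bb vv) := by
  intro a i j k K hi hj hk h
  rw [lkD, hH i (by omega), hH j (by omega), hH k hk, muN_eq] at h
  obtain ⟨E, h1, h2, h3⟩ := locK_sound hg (by omega) (by omega) hk (hc i j k hi hj hk) h
  have e0 : G0 = 2 ^ 122 := by norm_num [G0]
  refine ⟨E, h1, fun x y a b => e0 ▸ h2 x y a b, fun ω => ?_⟩
  have := h3 _ _ _ _ _ ω.h1 ω.h2 ω.h3 ω.h4
  rw [e0] at this
  push_cast at this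
  have e1 : ∑ x ∈ range 6, ∑ y ∈ range 6, ((E (min x y) (max x y) : ℝ) - 2 ^ 122) *
      (XF n D br (idf i j k x) ω.w * XF n D br (idf i j k y) ω.w) =
      ∑ x ∈ range 6, ∑ y ∈ range 6, ((E (min x y) (max x y) : ℝ) - 2 ^ 122) *
      (cf D br i j k ω.w x * cf D br i j k ω.w y) :=
    sum_congr rfl fun x hx => sum_congr rfl fun y hy => by
      rw [XF_idf hn hi hj hk (mem_range.1 hx), XF_idf hn hi hj hk (mem_range.1 hy)]
  rw [e1, qC]
  push_cast
  linarith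

theorem count_of_inv {n D : ℕ} {br : ℕ → ℕ} (hg : Grid n D br) (hn : n ≤ 32) {bb : ℕ → P3 → ℝ}
    {vv : P3 → ℝ} {m e rs δ : ℕ} (he : e ≤ 142) (hN : nc n n ≤ 4000)
    (hδ : nc n n * (28 * m * 2 ^ e) + m * m * 2 ^ e ≤ δ) {s : St}
    (h : InvJ (XF n D br) Om.w m e n (qC D br rs δ bb vv) n s)
    (hf : fin (mkCf m (2 ^ e)) s = true) : Count bb vv := by
  obtain ⟨l, hl⟩ := fin_sound he (by omega) h hf
  refine ⟨l, fun w w1 w2 w3 G h1 h2 h3 h4 h5 h6 => ?_⟩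
  set S := ∑ j ∈ range n, ∑ i ∈ range (j + 1), ∑ k ∈ range (n - j),
    ∑ x ∈ range 6, cf D br i j (j + k) w x ^ 2 with hS
  have S0 : 0 ≤ S := by positivity
  have key := hl ⟨w, w1, w2, w3, G, h1, h2, h3, h5⟩ S (fun id => ?_) h6
  · simp only [qC, sum_sub_distrib, ← mul_sum] at key
    rw [← hS, ← split_cells hg h2 h4] at key
    have h7 : ((nc n n * (28 * m * 2 ^ e) + m * m * 2 ^ e : ℕ) : ℝ) * S ≤ δ * S :=
      mul_le_mul_of_nonneg_right (by exact_mod_cast hδ) S0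
    have hD : (0 : ℝ) < D := by exact_mod_cast hg.pos
    have h8 : (0 : ℝ) < 180 * D ^ 2 * 2 ^ 68 / 2 ^ rs := by positivity
    exact nonneg_of_mul_nonneg_right (a := (D : ℝ) ^ 3)
      (nonneg_of_mul_nonneg_right (by linarith) h8) (by positivity) 
  · by_cases hx : ∃ i j k x, i ≤ j ∧ j ≤ k ∧ k < n ∧ x < 6 ∧ id = idf i j k x
    · obtain ⟨i, j, k, x, a, b, c, d, rfl⟩ := hx
      rw [XF_idf hn a b c d]
      refine le_trans ?_ (single_le_sum (f := fun j => ∑ i ∈ range (j + 1), ∑ k ∈ range (n - j),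
        ∑ x ∈ range 6, cf D br i j (j + k) w x ^ 2) (fun _ _ => by positivity)
        (mem_range.2 (show j < n by omega)))
      refine le_trans ?_ (single_le_sum (f := fun i => ∑ k ∈ range (n - j),
        ∑ x ∈ range 6, cf D br i j (j + k) w x ^ 2) (fun _ _ => by positivity)
        (mem_range.2 (show i < j + 1 by omega)))
      refine le_trans ?_ (single_le_sum (f := fun k => ∑ x ∈ range 6, cf D br i j (j + k) w x ^ 2)
        (fun _ _ => by positivity) (mem_range.2 (show k - j < n - j by omega)))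
      rw [show j + (k - j) = k by omega]
      exact single_le_sum (f := fun x => cf D br i j k w x ^ 2) (fun _ _ => by positivity)
        (mem_range.2 d)
    · rw [XF, if_neg hx]
      simpa using S0

end Pool.Agent.MP_48470b_gt.Gap.Mc
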