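import Pool.Agent.MP_48470b_gt.Gap.G2b0

/-! The Poincare inequality on the cube. -/

set_option autoImplicit false
set_option maxHeartbeats 400000

namespace Pool.Agent.MP_48470b_gt.Gap
open intervalIntegral MeasureTheory

namespace Cb

lemma sq_sub {ψ : ℝ → ℝ} (h : Continuous ψ) (a b c : ℝ) : ∫ s in a..b, (ψ s - c) ^ 2 =
    (∫ s in a..b, ψ s ^ 2) - 2 * c * (∫ s in a..b, ψ s) + (b - a) * c ^ 2 := by
  rw [← intervalIntegral.integral_const_mul, ← smul_eq_mul (b - a),
    ← intervalIntegral.integral_const,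
    ← intervalIntegral.integral_sub (Continuous.intervalIntegrable (by fun_prop) _ _)
      (Continuous.intervalIntegrable (by fun_prop) _ _),
    ← intervalIntegral.integral_add (Continuous.intervalIntegrable (by fun_prop) _ _)
      (Continuous.intervalIntegrable (by fun_prop) _ _)]
  exact integral_congr fun s _ => by ring

lemma cs {ψ : ℝ → ℝ} (h : Continuous ψ) {a b : ℝ} (hab : a ≤ b) :
    (∫ s in a..b, ψ s) ^ 2 ≤ (b - a) * ∫ s in a..b, ψ s ^ 2 := by
  rcases hab.eq_or_lt with rfl | hl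
  · simp
  have h0 : 0 < b - a := sub_pos.2 hl
  have h1 : 0 ≤ ∫ s in a..b, (ψ s - (∫ s in a..b, ψ s) / (b - a)) ^ 2 :=
    integral_nonneg hab fun _ _ => sq_nonneg _
  rw [sq_sub h] at h1
  generalize ∫ s in a..b, ψ s = p at *
  generalize ∫ s in a..b, ψ s ^ 2 = q at *
  have e : (b - a) * (q - 2 * (p / (b - a)) * p + (b - a) * (p / (b - a)) ^ 2) =
      (b - a) * q - p ^ 2 := by field_simp; ring
  linarith [mul_nonneg h0.le h1]

lemma jensen {ψ : ℝ → ℝ} (h : Continuous ψ) : A1 ψ ^ 2 ≤ A1 fun s => ψ s ^ 2 := by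
  have := cs h (a := -1) (b := 1) (by norm_num)
  unfold A1
  linarith

lemma p1 {φ ψ : ℝ → ℝ} (h1 : Continuous φ) (h2 : Continuous ψ)
    (h : ∀ x, φ x - φ 0 = ∫ s in (0 : ℝ)..x, ψ s) :
    A1 (fun s => φ s ^ 2) ≤ A1 φ ^ 2 + 1 / 2 * A1 fun s => ψ s ^ 2 := by
  have i2 : ∀ a b, IntervalIntegrable (fun s => ψ s ^ 2) volume a b := fun a b =>
    Continuous.intervalIntegrable (by fun_prop) _ _
  have i1 : ∀ a b, IntervalIntegrable (fun s => (φ s - φ 0) ^ 2) volume a b := fun a b =>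
    Continuous.intervalIntegrable (by fun_prop) _ _
  have n : ∀ a b : ℝ, 0 ≤ᵐ[volume.restrict (Set.Ioc a b)] fun s => ψ s ^ 2 := fun a b =>
    Filter.Eventually.of_forall fun _ => sq_nonneg _
  have a1 : ∫ x in (0 : ℝ)..1, (φ x - φ 0) ^ 2 ≤
      ∫ x in (0 : ℝ)..1, x * ∫ s in (0 : ℝ)..1, ψ s ^ 2 :=
    integral_mono_on zero_le_one (i1 _ _) (Continuous.intervalIntegrable (by fun_prop) _ _)
      fun x hx => by
        rw [h]
        refine (cs h2 hx.1).trans ?_
        rw [sub_zero]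
        exact mul_le_mul_of_nonneg_left
          (integral_mono_interval le_rfl hx.1 hx.2 (n _ _) (i2 _ _)) hx.1
  have a2 : ∫ x in (-1 : ℝ)..0, (φ x - φ 0) ^ 2 ≤
      ∫ x in (-1 : ℝ)..0, x * -∫ s in (-1 : ℝ)..0, ψ s ^ 2 :=
    integral_mono_on (by norm_num) (i1 _ _) (Continuous.intervalIntegrable (by fun_prop) _ _)
      fun x hx => by
        rw [h, integral_symm, neg_sq]
        refine (cs h2 hx.2).trans ?_
        rw [zero_sub, mul_neg, ← neg_mul]
        exact mul_le_mul_of_nonneg_left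
          (integral_mono_interval hx.1 hx.2 le_rfl (n _ _) (i2 _ _)) (neg_nonneg.2 hx.2)
  rw [intervalIntegral.integral_mul_const, integral_id] at a1 a2
  have a3 := integral_add_adjacent_intervals (i1 (-1) 0) (i1 0 1)
  have a4 := integral_add_adjacent_intervals (i2 (-1) 0) (i2 0 1)
  rw [sq_sub h1 (-1) 1] at a3
  unfold A1
  nlinarith [sq_nonneg (φ 0 - 1 / 2 * ∫ x in (-1 : ℝ)..1, φ x)]

lemma lift {F ψ : ℝ → ℝ → ℝ} (h1 : Continuous F.uncurry) (h2 : Continuous ψ.uncurry)
    (h : ∀ y z, F y z - F 0 z = ∫ s in (0 : ℝ)..y, ψ s z) (y : ℝ) :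
    A1 (F y) - A1 (F 0) = ∫ s in (0 : ℝ)..y, A1 (ψ s) := by
  unfold A1
  rw [intervalIntegral.integral_const_mul, intervalIntegral_intervalIntegral_swap
    ((h2.continuousOn.integrableOn_compact (isCompact_uIcc.prod isCompact_uIcc)).mono_set
      (Set.prod_mono Set.uIoc_subset_uIcc Set.uIoc_subset_uIcc)), ← mul_sub,
    ← intervalIntegral.integral_sub ((h1.uncurry_left y).intervalIntegrable _ _)
      ((h1.uncurry_left 0).intervalIntegrable _ _)]
  simp only [h]

lemma A1_mono {φ ψ : ℝ → ℝ} (h1 : Continuous φ) (h2 : Continuous ψ) (h : ∀ s, φ s ≤ ψ s) :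
    A1 φ ≤ A1 ψ :=
  mul_le_mul_of_nonneg_left (integral_mono_on (by norm_num) (h1.intervalIntegrable _ _)
    (h2.intervalIntegrable _ _) fun s _ => h s) (by norm_num)

lemma A1_add {φ ψ : ℝ → ℝ} (h1 : Continuous φ) (h2 : Continuous ψ) (c : ℝ) :
    A1 (fun s => φ s + c * ψ s) = A1 φ + c * A1 ψ := by
  unfold A1
  rw [intervalIntegral.integral_add (h1.intervalIntegrable _ _)
    (Continuous.intervalIntegrable (by fun_prop) _ _), intervalIntegral.integral_const_mul]
  ring

lemma T3_eq (φ : P3 → ℝ) : T3 φ = A1 fun x => A1 fun y => A1 fun z => φ (x, y, z) := by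
  simp only [T3, A1, intervalIntegral.integral_const_mul]; ring

lemma ftc {φ ψ : ℝ → ℝ} (h2 : Continuous ψ) (h : ∀ x, HasDerivAt φ (ψ x) x) (x : ℝ) :
    φ x - φ 0 = ∫ s in (0 : ℝ)..x, ψ s :=
  (integral_eq_sub_of_hasDerivAt (fun s _ => h s) (h2.intervalIntegrable _ _)).symm

end Cb

open Cb

/-- **G2a.** Poincare inequality on the cube. -/
theorem poincare {w u1 u2 u3 : P3 → ℝ} (h : Grad w u1 u2 u3) :
    T3 (fun t => (w t - T3 w) ^ 2) ≤ 1 / 2 * T3 fun t => u1 t ^ 2 + u2 t ^ 2 + u3 t ^ 2 := by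
  have c0 := h.c0
  have c1 := h.c1
  have c2 := h.c2
  have c3 := h.c3
  have s1 : ∀ x y, A1 (fun z => w (x, y, z) ^ 2) ≤ A1 (fun z => w (x, y, z)) ^ 2 +
      1 / 2 * A1 fun z => u3 (x, y, z) ^ 2 := fun x y =>
    p1 (by fun_prop) (by fun_prop) (ftc (by fun_prop) (h.d3 x y))
  have s2 : ∀ x, A1 (fun y => A1 (fun z => w (x, y, z)) ^ 2) ≤
      A1 (fun y => A1 fun z => w (x, y, z)) ^ 2 +
        1 / 2 * A1 fun y => A1 fun z => u2 (x, y, z) ^ 2 := fun x =>
    (p1 (ψ := fun y => A1 fun z => u2 (x, y, z)) (by unfold A1; fun_prop) (by unfold A1; fun_prop)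
      (lift (F := fun y z => w (x, y, z)) (ψ := fun y z => u2 (x, y, z))
        (by unfold Function.uncurry; fun_prop) (by unfold Function.uncurry; fun_prop)
        fun y z => ftc (φ := fun s => w (x, s, z)) (ψ := fun s => u2 (x, s, z)) (by fun_prop)
          (fun s => h.d2 x s z) y)).trans
      (add_le_add le_rfl (mul_le_mul_of_nonneg_left (A1_mono (by unfold A1; fun_prop)
        (by unfold A1; fun_prop) fun y => jensen (by fun_prop)) (by norm_num)))
  have s3 : A1 (fun x => A1 (fun y => A1 fun z => w (x, y, z)) ^ 2) ≤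
      T3 w ^ 2 + 1 / 2 * T3 fun t => u1 t ^ 2 := by
    rw [T3_eq, T3_eq]
    refine (p1 (ψ := fun x => A1 fun y => A1 fun z => u1 (x, y, z)) (by unfold A1; fun_prop)
      (by unfold A1; fun_prop)
      (lift (F := fun x y => A1 fun z => w (x, y, z)) (ψ := fun x y => A1 fun z => u1 (x, y, z))
        (by unfold Function.uncurry A1; fun_prop) (by unfold Function.uncurry A1; fun_prop)
        fun x y => lift (F := fun x z => w (x, y, z)) (ψ := fun x z => u1 (x, y, z))
          (by unfold Function.uncurry; fun_prop) (by unfold Function.uncurry; fun_prop)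
          (fun x z => ftc (φ := fun s => w (s, y, z)) (ψ := fun s => u1 (s, y, z)) (by fun_prop)
            (fun s => h.d1 s y z) x) x)).trans
      (add_le_add le_rfl (mul_le_mul_of_nonneg_left (A1_mono (by unfold A1; fun_prop)
        (by unfold A1; fun_prop) fun x => ?_) (by norm_num)))
    exact (jensen (by unfold A1; fun_prop)).trans (A1_mono (by unfold A1; fun_prop)
      (by unfold A1; fun_prop) fun y => jensen (by fun_prop))
  have t1 : T3 (fun t => w t ^ 2) ≤ A1 (fun x => A1 (fun y => A1 (fun z => w (x, y, z)) ^ 2)) +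
      1 / 2 * T3 fun t => u3 t ^ 2 := by
    rw [T3_eq, T3_eq, ← A1_add (by unfold A1; fun_prop) (by unfold A1; fun_prop)]
    refine A1_mono (by unfold A1; fun_prop) (by unfold A1; fun_prop) fun x => ?_
    rw [← A1_add (by unfold A1; fun_prop) (by unfold A1; fun_prop)]
    exact A1_mono (by unfold A1; fun_prop) (by unfold A1; fun_prop) (s1 x)
  have t2 : A1 (fun x => A1 (fun y => A1 (fun z => w (x, y, z)) ^ 2)) ≤
      A1 (fun x => A1 (fun y => A1 fun z => w (x, y, z)) ^ 2) + 1 / 2 * T3 fun t => u2 t ^ 2 := by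
    rw [T3_eq, ← A1_add (by unfold A1; fun_prop) (by unfold A1; fun_prop)]
    exact A1_mono (by unfold A1; fun_prop) (by unfold A1; fun_prop) s2
  have e1 : T3 (fun t => (w t - T3 w) ^ 2) = T3 (fun t => w t ^ 2) - T3 w ^ 2 := by
    have o : T3 (fun _ => 1) = 1 := by simp [T3]; norm_num
    have : T3 (fun t => w t ^ 2 + (-2 * T3 w) * w t + T3 w ^ 2 * 1) =
        T3 (fun t => w t ^ 2) + (-2 * T3 w) * T3 w + T3 w ^ 2 * 1 := by
      rw [add (by fun_prop) (by fun_prop), add (by fun_prop) (by fun_prop), cmul, cmul, o]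
    exact (congrArg T3 (funext fun t => by ring)).trans (this.trans (by ring))
  rw [e1, add (by fun_prop) (by fun_prop), add (by fun_prop) (by fun_prop)]
  linarith

end Pool.Agent.MP_48470b_gt.Gap
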