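import Pool.Agent.MP_48470b_gt.Gap.Defs

/-! Means over the cube: linearity, products, integration by parts. -/

set_option autoImplicit false
set_option maxHeartbeats 400000

namespace Pool.Agent.MP_48470b_gt.Gap.Cb
open intervalIntegral MeasureTheory

/-- mean over `[-1, 1]` -/
noncomputable def A1 (φ : ℝ → ℝ) : ℝ := 1 / 2 * ∫ x in (-1 : ℝ)..1, φ x

lemma add {f g : P3 → ℝ} (hf : Continuous f) (hg : Continuous g) :
    T3 (fun t => f t + g t) = T3 f + T3 g := by
  unfold T3
  rw [← mul_add, ← intervalIntegral.integral_add (Continuous.intervalIntegrable (by fun_prop) _ _)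
    (Continuous.intervalIntegrable (by fun_prop) _ _)]
  refine congrArg _ (integral_congr fun x _ => ?_)
  rw [← intervalIntegral.integral_add (Continuous.intervalIntegrable (by fun_prop) _ _)
    (Continuous.intervalIntegrable (by fun_prop) _ _)]
  refine integral_congr fun y _ => ?_
  exact intervalIntegral.integral_add (Continuous.intervalIntegrable (by fun_prop) _ _)
    (Continuous.intervalIntegrable (by fun_prop) _ _)

lemma cmul (c : ℝ) (f : P3 → ℝ) : T3 (fun t => c * f t) = c * T3 f := by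
  simp only [T3, intervalIntegral.integral_const_mul]; ring

lemma mono {f g : P3 → ℝ} (hf : Continuous f) (hg : Continuous g)
    (h : ∀ t, Box (-1) 1 t → f t ≤ g t) : T3 f ≤ T3 g := by
  unfold T3
  refine mul_le_mul_of_nonneg_left ?_ (by norm_num)
  refine integral_mono_on (by norm_num) (Continuous.intervalIntegrable (by fun_prop) _ _)
    (Continuous.intervalIntegrable (by fun_prop) _ _) fun x hx => ?_
  refine integral_mono_on (by norm_num) (Continuous.intervalIntegrable (by fun_prop) _ _)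
    (Continuous.intervalIntegrable (by fun_prop) _ _) fun y hy => ?_
  exact integral_mono_on (by norm_num) (Continuous.intervalIntegrable (by fun_prop) _ _)
    (Continuous.intervalIntegrable (by fun_prop) _ _) fun z hz => h _ ⟨hx, hy, hz⟩

lemma swap {F : ℝ → ℝ → ℝ} (hF : Continuous F.uncurry) :
    ∫ x in (-1 : ℝ)..1, ∫ y in (-1 : ℝ)..1, F x y =
      ∫ y in (-1 : ℝ)..1, ∫ x in (-1 : ℝ)..1, F x y :=
  intervalIntegral_intervalIntegral_swap ((hF.continuousOn.integrableOn_compact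
    (isCompact_uIcc.prod isCompact_uIcc)).mono_set
      (Set.prod_mono Set.uIoc_subset_uIcc Set.uIoc_subset_uIcc))

lemma sw12 {f : P3 → ℝ} (hf : Continuous f) : T3 (fun t => f (t.2.1, t.1, t.2.2)) = T3 f :=
  congrArg (1 / 8 * ·) (swap (F := fun x y => ∫ z in (-1 : ℝ)..1, f (y, x, z))
    (by unfold Function.uncurry; fun_prop))

lemma sw23 {f : P3 → ℝ} (hf : Continuous f) : T3 (fun t => f (t.1, t.2.2, t.2.1)) = T3 f :=
  congrArg (1 / 8 * ·) (integral_congr fun x _ => swap (F := fun y z => f (x, z, y))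
    (by unfold Function.uncurry; fun_prop))

lemma cyc {f : P3 → ℝ} (hf : Continuous f) : T3 (fun t => f (t.2.2, t.1, t.2.1)) = T3 f :=
  (sw23 (f := fun t => f (t.2.1, t.1, t.2.2)) (by fun_prop)).trans (sw12 hf)

lemma prod (φ ψ χ : ℝ → ℝ) :
    T3 (fun t => φ t.1 * ψ t.2.1 * χ t.2.2) = A1 φ * A1 ψ * A1 χ := by
  simp only [T3, A1, intervalIntegral.integral_const_mul, intervalIntegral.integral_mul_const]
  ring

lemma A1_poly (a0 a1 a2 a3 a4 a5 : ℝ) {φ : ℝ → ℝ}
    (h : ∀ s, φ s = a0 + a1 * s + a2 * s ^ 2 + a3 * s ^ 3 + a4 * s ^ 4 + a5 * s ^ 5) :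
    A1 φ = a0 + a2 / 3 + a4 / 5 := by
  have := integral_eq_sub_of_hasDerivAt (a := (-1 : ℝ)) (b := 1) (f' := φ)
    (f := fun s => a0 * s + a1 / 2 * s ^ 2 + a2 / 3 * s ^ 3 + a3 / 4 * s ^ 4 + a4 / 5 * s ^ 5 +
      a5 / 6 * s ^ 6) (fun s _ => by
        have p := fun n => (hasDerivAt_pow n s)
        refine (((((((hasDerivAt_id' s).const_mul a0).add ((p 2).const_mul _)).add
          ((p 3).const_mul _)).add ((p 4).const_mul _)).add ((p 5).const_mul _)).add
          ((p 6).const_mul _)).congr_deriv ?_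
        rw [h]; norm_num; ring)
    (by rw [funext h]; exact Continuous.intervalIntegrable (by fun_prop) _ _)
  rw [A1, this]; ring

lemma affp (x : ℕ → ℝ) {φ ψ χ : ℝ → ℝ} (h1 : Continuous φ) (h2 : Continuous ψ)
    (h3 : Continuous χ) : T3 (fun t => aff x t * (φ t.1 * ψ t.2.1 * χ t.2.2)) =
      x 0 * (A1 φ * A1 ψ * A1 χ) + x 1 * (A1 (fun s => s * φ s) * A1 ψ * A1 χ) +
      x 2 * (A1 φ * A1 (fun s => s * ψ s) * A1 χ) +
      x 3 * (A1 φ * A1 ψ * A1 (fun s => s * χ s)) := by
  rw [← prod, ← prod, ← prod, ← prod, ← cmul, ← cmul, ← cmul, ← cmul,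
    ← add (by fun_prop) (by fun_prop), ← add (by fun_prop) (by fun_prop),
    ← add (by fun_prop) (by fun_prop)]
  exact congrArg T3 (funext fun t => by unfold aff; ring)

/-- one component of the flux -/
noncomputable def fl (F d e s : ℝ) : ℝ := F + d * s + e * (1 / 3 - s ^ 2)

@[fun_prop] lemma fl_cont (F d e : ℝ) : Continuous (fl F d e) := by unfold fl; fun_prop

lemma a0 : A1 (fun _ => 1) = 1 := (A1_poly 1 0 0 0 0 0 fun s => by ring).trans (by ring)
lemma a1 : A1 (fun s => s * 1) = 0 := (A1_poly 0 1 0 0 0 0 fun s => by ring).trans (by ring)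
lemma a2 (F d e : ℝ) : A1 (fl F d e) = F :=
  (A1_poly (F + e / 3) d (-e) 0 0 0 fun s => by unfold fl; ring).trans (by ring)
lemma a3 (F d e : ℝ) : A1 (fun s => s * fl F d e s) = d / 3 :=
  (A1_poly 0 (F + e / 3) d (-e) 0 0 fun s => by unfold fl; ring).trans (by ring)
lemma a4 (F d e : ℝ) : A1 (fun s => fl F d e s ^ 2) = F ^ 2 + d ^ 2 / 3 + 4 * e ^ 2 / 45 :=
  (A1_poly ((F + e / 3) ^ 2) (2 * (F + e / 3) * d) (d ^ 2 - 2 * (F + e / 3) * e) (-2 * d * e)
    (e ^ 2) 0 fun s => by unfold fl; ring).trans (by ring)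
lemma a5 (F d e : ℝ) : A1 (fun s => s * fl F d e s ^ 2) = 2 * F * d / 3 - 8 * d * e / 45 :=
  (A1_poly 0 ((F + e / 3) ^ 2) (2 * (F + e / 3) * d) (d ^ 2 - 2 * (F + e / 3) * e) (-2 * d * e)
    (e ^ 2) fun s => by unfold fl; ring).trans (by ring)

lemma aff_cont (x : ℕ → ℝ) : Continuous (aff x) := by unfold aff; fun_prop

/-- the mean of the flux energy -/
lemma energy (b : ℕ → ℕ → ℝ) (u e : ℕ → ℝ) :
    45 * T3 (fun t => qf (fun k => aff (b k) t) (fl (u 0) (u 3) (e 1) t.1)
      (fl (u 1) (u 4) (e 2) t.2.1) (fl (u 2) (u 5) (e 3) t.2.2)) ≤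
      MF b u + 4 * ((b 0 0 + |b 0 1|) * e 1 ^ 2 + (b 1 0 + |b 1 2|) * e 2 ^ 2 +
        (b 2 0 + |b 2 3|) * e 3 ^ 2) := by
  have c := fun k => aff_cont (b k)
  have o : Continuous fun _ : ℝ => (1 : ℝ) := continuous_const
  have h0 := affp (b 0) (φ := fun s => fl (u 0) (u 3) (e 1) s ^ 2) (by fun_prop) o o
  have h1 := affp (b 1) (ψ := fun s => fl (u 1) (u 4) (e 2) s ^ 2) o (by fun_prop) o
  have h2 := affp (b 2) (χ := fun s => fl (u 2) (u 5) (e 3) s ^ 2) o o (by fun_prop)
  have h3 := affp (b 3) (fl_cont (u 0) (u 3) (e 1)) (fl_cont (u 1) (u 4) (e 2)) o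
  have h4 := affp (b 4) (fl_cont (u 0) (u 3) (e 1)) o (fl_cont (u 2) (u 5) (e 3))
  have h5 := affp (b 5) o (fl_cont (u 1) (u 4) (e 2)) (fl_cont (u 2) (u 5) (e 3))
  simp only [a0, a1, a2, a3, a4, a5] at h0 h1 h2 h3 h4 h5
  have k : ∀ x d e : ℝ, -(8 * x * d * e) ≤ 4 * |x| * (d ^ 2 + e ^ 2) := fun x d e => by
    rcases abs_cases x with ⟨h, h'⟩ | ⟨h, h'⟩ <;> rw [h]
    · nlinarith [mul_nonneg h' (sq_nonneg (d + e))]
    · nlinarith [mul_nonneg (neg_pos.2 h').le (sq_nonneg (d - e))]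
  have s := congrArg₂ (· + ·) (congrArg₂ (· + ·) (congrArg₂ (· + ·) h0 h1) h2)
    (congrArg (2 * ·) (congrArg₂ (· + ·) (congrArg₂ (· + ·) h3 h4) h5))
  rw [← add (by fun_prop) (by fun_prop), ← add (by fun_prop) (by fun_prop),
    ← add (by fun_prop) (by fun_prop), ← add (by fun_prop) (by fun_prop), ← cmul,
    ← add (by fun_prop) (by fun_prop)] at s
  refine (congrArg (45 * ·) ((congrArg T3 (funext fun t => by unfold qf; ring)).trans s)).trans_le ?_
  simp only [MF, qf]
  linarith [k (b 0 1) (u 3) (e 1), k (b 1 2) (u 4) (e 2), k (b 2 3) (u 5) (e 3)]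

/-- integration by parts in the last variable -/
lemma ibp {w u : P3 → ℝ} (hw : Continuous w) (hu : Continuous u)
    (h : ∀ x y z, HasDerivAt (fun s => w (x, y, s)) (u (x, y, z)) z) (F d e : ℝ) :
    2 * T3 (fun t => fl F d e t.2.2 * u t) =
      (F - 2 * e / 3) * (T2 (fun x y => w (x, y, 1)) - T2 fun x y => w (x, y, -1)) +
      d * (T2 (fun x y => w (x, y, 1)) + T2 (fun x y => w (x, y, -1)) - 2 * T3 w) +
      4 * e * T3 fun t => t.2.2 * w t := by
  have h1 : T3 (fun t => fl F d e t.2.2 * u t + (d * w t + (-2 * e) * (t.2.2 * w t))) =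
      1 / 8 * ∫ x in (-1 : ℝ)..1, ∫ y in (-1 : ℝ)..1,
        (fl F d e 1 * w (x, y, 1) + (-fl F d e (-1)) * w (x, y, -1)) := by
    refine congrArg _ (integral_congr fun x _ => integral_congr fun y _ => ?_)
    have := integral_eq_sub_of_hasDerivAt (a := (-1 : ℝ)) (b := 1)
      (f := fun s => fl F d e s * w (x, y, s))
      (f' := fun s => fl F d e s * u (x, y, s) + (d * w (x, y, s) + (-2 * e) * (s * w (x, y, s))))
      (fun s _ => by
        have p : HasDerivAt (fl F d e) (d - 2 * e * s) s :=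
          ((((hasDerivAt_id' s).const_mul d).const_add F).add
            (((hasDerivAt_pow 2 s).const_sub (1 / 3)).const_mul e)).congr_deriv (by norm_num; ring)
        exact (p.mul (h x y s)).congr_deriv (by ring))
      (Continuous.intervalIntegrable (by fun_prop) _ _)
    exact this.trans (by ring)
  have h2 : ∫ x in (-1 : ℝ)..1, ∫ y in (-1 : ℝ)..1,
      (fl F d e 1 * w (x, y, 1) + (-fl F d e (-1)) * w (x, y, -1)) =
      fl F d e 1 * (∫ x in (-1 : ℝ)..1, ∫ y in (-1 : ℝ)..1, w (x, y, 1)) +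
        (-fl F d e (-1)) * ∫ x in (-1 : ℝ)..1, ∫ y in (-1 : ℝ)..1, w (x, y, -1) := by
    simp only [← intervalIntegral.integral_const_mul]
    rw [← intervalIntegral.integral_add (Continuous.intervalIntegrable (by fun_prop) _ _)
      (Continuous.intervalIntegrable (by fun_prop) _ _)]
    exact integral_congr fun x _ => intervalIntegral.integral_add
      (Continuous.intervalIntegrable (by fun_prop) _ _)
      (Continuous.intervalIntegrable (by fun_prop) _ _)
  rw [h2, add (by fun_prop) (by fun_prop), add (by fun_prop) (by fun_prop), cmul, cmul] at h1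
  simp only [T2]
  unfold fl at h1 ⊢
  linear_combination 2 * h1

end Pool.Agent.MP_48470b_gt.Gap.Cb
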