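import Pool.Agent.MP_48470b_gt.Gap.G2a
import Pool.Agent.MP_48470b_gt.Gap.G2b0

/-! The cell inequality. -/

set_option autoImplicit false
set_option maxHeartbeats 400000

namespace Pool.Agent.MP_48470b_gt.Gap
open Cb

lemma cell_point {c σ θ vs m w u1 u2 u3 G V p q r : ℝ} {B : ℝ → ℝ → ℝ → ℝ} (hc : 0 < c)
    (hσ : 1 ≤ σ) (hθ : 0 < θ) (hB : ∀ s p q r, B (s * p) (s * q) (s * r) = s ^ 2 * B p q r)
    (h1 : ∀ p q r, 2 * c * (p * u1 + q * u2 + r * u3) - B p q r - c * V * w ^ 2 ≤ c * G)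
    (h2 : ∀ p q r, B p q r ≤ θ * (p ^ 2 + q ^ 2 + r ^ 2)) (h3 : V ≤ vs) :
    2 * c * (p * u1) + 2 * c * (q * u2) + 2 * c * (r * u3) + (-σ) * B p q r +
      ((σ - 1) * c ^ 2 / (σ * θ)) * (u1 ^ 2 + u2 ^ 2 + u3 ^ 2) + (-c * vs) * (w - m) ^ 2 +
      (-2 * c * m) * (V * w) + c * m ^ 2 * V ≤ c * G := by
  have s0 : 0 < σ := zero_lt_one.trans_le hσ
  have a1 := h1 (σ * p) (σ * q) (σ * r)
  have a2 := h1 (c / θ * u1) (c / θ * u2) (c / θ * u3)
  have a3 := h2 (c / θ * u1) (c / θ * u2) (c / θ * u3)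
  rw [hB] at a1
  have a4 : c ^ 2 / θ * (u1 ^ 2 + u2 ^ 2 + u3 ^ 2) - c * V * w ^ 2 ≤ c * G := by
    have e1 : 2 * c * (c / θ * u1 * u1 + c / θ * u2 * u2 + c / θ * u3 * u3) =
        2 * (c ^ 2 / θ * (u1 ^ 2 + u2 ^ 2 + u3 ^ 2)) := by ring
    have e2 : θ * ((c / θ * u1) ^ 2 + (c / θ * u2) ^ 2 + (c / θ * u3) ^ 2) =
        c ^ 2 / θ * (u1 ^ 2 + u2 ^ 2 + u3 ^ 2) := by field_simp
    linarith
  have a5 := mul_le_mul_of_nonneg_right (mul_le_mul_of_nonneg_left h3 hc.le) (sq_nonneg (w - m))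
  have a6 := mul_le_mul_of_nonneg_left a4 (sub_nonneg.2 hσ)
  refine le_of_mul_le_mul_left ?_ s0
  have e3 : σ * ((σ - 1) * c ^ 2 / (σ * θ)) = (σ - 1) * (c ^ 2 / θ) := by field_simp
  have a7 := mul_le_mul_of_nonneg_left a5 s0.le
  linear_combination a1 + a6 + a7 + (u1 ^ 2 + u2 ^ 2 + u3 ^ 2) * e3

/-- **G2b.** The cell inequality in local coordinates. -/
theorem cell_ineq {w u1 u2 u3 G : P3 → ℝ} (h : Grad w u1 u2 u3) (hG : Continuous G)
    {c σ θ vs : ℝ} (b : ℕ → ℕ → ℝ) (v : ℕ → ℝ) (hc : 0 < c) (hσ : 1 ≤ σ) (hθ : 0 < θ)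
    (h1 : ∀ t, Box (-1) 1 t → ∀ p q r : ℝ, 2 * c * (p * u1 t + q * u2 t + r * u3 t) -
      qf (fun e => aff (b e) t) p q r - c * aff v t * w t ^ 2 ≤ c * G t)
    (h2 : ∀ t, Box (-1) 1 t → ∀ p q r : ℝ,
      qf (fun e => aff (b e) t) p q r ≤ θ * (p ^ 2 + q ^ 2 + r ^ 2))
    (h3 : ∀ t, Box (-1) 1 t → aff v t ≤ vs) (h4 : σ * θ * vs ≤ 2 * c * (σ - 1)) (u : ℕ → ℝ) :
    low c σ b v (fav w) (T3 w) u ≤ 45 * c * T3 G := by
  have s0 : 0 < σ := zero_lt_one.trans_le hσ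
  have c0 := h.c0
  have c1 := h.c1
  have c2 := h.c2
  have c3 := h.c3
  have cv := aff_cont v
  have cb := fun k => aff_cont (b k)
  obtain ⟨m, hm⟩ : ∃ m, m = T3 w := ⟨_, rfl⟩
  have cq : Continuous fun t : P3 => qf (fun k => aff (b k) t) (fl (u 0) (u 3) (m * v 1 / 2) t.1)
      (fl (u 1) (u 4) (m * v 2 / 2) t.2.1) (fl (u 2) (u 5) (m * v 3 / 2) t.2.2) := by
    unfold qf; fun_prop
  have a1 := mono (by fun_prop) (by fun_prop) fun t ht => cell_point (m := m)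
    (p := fl (u 0) (u 3) (m * v 1 / 2) t.1) (q := fl (u 1) (u 4) (m * v 2 / 2) t.2.1)
    (r := fl (u 2) (u 5) (m * v 3 / 2) t.2.2) (B := qf fun e => aff (b e) t) hc hσ hθ
    (fun s p q r => by unfold qf; ring) (h1 t ht) (h2 t ht) (h3 t ht)
  rw [add (by fun_prop) (by fun_prop), add (by fun_prop) (by fun_prop),
    add (by fun_prop) (by fun_prop), add (by fun_prop) (by fun_prop),
    add (by fun_prop) (by fun_prop), add (by fun_prop) (by fun_prop),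
    add (by fun_prop) (by fun_prop)] at a1
  simp only [cmul] at a1
  have a2 := energy b u fun i => m * v i / 2
  have a3 := poincare h
  have i3 := ibp c0 c3 h.d3 (u 2) (u 5) (m * v 3 / 2)
  have i2 := ibp (w := fun t => w (t.1, t.2.2, t.2.1)) (u := fun t => u2 (t.1, t.2.2, t.2.1))
    (by fun_prop) (by fun_prop) (fun x y z => h.d2 x z y) (u 1) (u 4) (m * v 2 / 2)
  have i1 := ibp (w := fun t => w (t.2.2, t.1, t.2.1)) (u := fun t => u1 (t.2.2, t.1, t.2.1))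
    (by fun_prop) (by fun_prop) (fun x y z => h.d1 z x y) (u 0) (u 3) (m * v 1 / 2)
  rw [sw23 c0, sw23 (f := fun t => t.2.1 * w t) (by fun_prop),
    sw23 (f := fun t => fl (u 1) (u 4) (m * v 2 / 2) t.2.1 * u2 t) (by fun_prop)] at i2
  rw [cyc c0, cyc (f := fun t => t.1 * w t) (by fun_prop),
    cyc (f := fun t => fl (u 0) (u 3) (m * v 1 / 2) t.1 * u1 t) (by fun_prop)] at i1
  have o : Continuous fun _ : ℝ => (1 : ℝ) := continuous_const
  have a4 : T3 (fun t => aff v t) = v 0 := by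
    have := affp v o o o
    rw [a0, Cb.a1] at this
    simpa only [mul_one, mul_zero, zero_mul, add_zero] using this
  have a5 : T3 (fun t => aff v t * w t) = v 0 * T3 w + v 1 * T3 (fun t => t.1 * w t) +
      v 2 * T3 (fun t => t.2.1 * w t) + v 3 * T3 (fun t => t.2.2 * w t) := by
    rw [← cmul, ← cmul, ← cmul, ← cmul, ← add (by fun_prop) (by fun_prop),
      ← add (by fun_prop) (by fun_prop), ← add (by fun_prop) (by fun_prop)]
    exact congrArg T3 (funext fun t => by unfold aff; ring)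
  have z : T3 (fun _ => 0) = 0 := by simp [T3]
  have n1 : 0 ≤ T3 fun t => (w t - m) ^ 2 :=
    z.ge.trans (mono (by fun_prop) (by fun_prop) fun t _ => sq_nonneg _)
  have n2 : 0 ≤ T3 fun t => u1 t ^ 2 + u2 t ^ 2 + u3 t ^ 2 :=
    z.ge.trans (mono (by fun_prop) (by fun_prop) fun t _ => by positivity)
  rw [a4, a5] at a1
  rw [← hm] at a1 a3 i1 i2 i3 ⊢
  have a6 : c * vs * T3 (fun t => (w t - m) ^ 2) ≤
      (σ - 1) * c ^ 2 / (σ * θ) * T3 fun t => u1 t ^ 2 + u2 t ^ 2 + u3 t ^ 2 := by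
    have k0 : 0 ≤ (σ - 1) * c ^ 2 / (σ * θ) := by
      have := sub_nonneg.2 hσ
      positivity
    rcases le_total vs 0 with hv | hv
    · exact (mul_nonpos_of_nonpos_of_nonneg (mul_nonpos_of_nonneg_of_nonpos hc.le hv) n1).trans
        (mul_nonneg k0 n2)
    · refine (mul_le_mul_of_nonneg_left a3 (mul_nonneg hc.le hv)).trans ?_
      rw [← mul_assoc]
      refine mul_le_mul_of_nonneg_right ?_ n2
      rw [le_div_iff₀ (mul_pos s0 hθ)]
      nlinarith [mul_le_mul_of_nonneg_left h4 hc.le]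
  have a7 := mul_le_mul_of_nonneg_left a2 s0.le
  simp only [low, fav]
  linear_combination 45 * a1 + 45 * a6 + a7 - 45 * c * i1 - 45 * c * i2 - 45 * c * i3

end Pool.Agent.MP_48470b_gt.Gap
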