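import Pool.Agent.MP_48470b_gt.Gap.G2b

/-! The cell inequality on a cell of the grid. -/

set_option autoImplicit false
set_option maxHeartbeats 400000

namespace Pool.Agent.MP_48470b_gt.Gap

section
variable {n D : ℕ} {br : ℕ → ℕ}

lemma Grid.le_D (hg : Grid n D br) {i : ℕ} (hi : i ≤ n) : br i ≤ D := by
  rw [← hg.hn]
  induction hi using Nat.decreasingInduction with
  | self => exact le_rfl
  | of_succ k hk ih => exact (hg.lt k hk).le.trans ih

lemma Grid.wd_cast (hg : Grid n D br) {i : ℕ} (hi : i < n) :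
    (wd br i : ℝ) = (br (i + 1) : ℝ) - br i := Nat.cast_sub (hg.lt i hi).le

lemma Grid.c1_mem (hg : Grid n D br) {i : ℕ} (hi : i < n) {x : ℝ} (hx : -1 ≤ x ∧ x ≤ 1) :
    0 ≤ c1 D br i x ∧ c1 D br i x ≤ 1 := by
  have h0 : (0 : ℝ) < D := Nat.cast_pos.2 hg.pos
  have h1 : (br i : ℝ) < br (i + 1) := Nat.cast_lt.2 (hg.lt i hi)
  have h2 : (br (i + 1) : ℝ) ≤ D := Nat.cast_le.2 (hg.le_D hi)
  have h3 : (0 : ℝ) ≤ br i := Nat.cast_nonneg _
  unfold c1
  rw [div_le_one (by positivity)]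
  exact ⟨div_nonneg (by nlinarith [hx.1]) (by positivity), by nlinarith [hx.2]⟩

lemma Grid.c1_neg (hg : Grid n D br) (i : ℕ) : c1 D br i (-1) = br i / D := by
  have h0 : (0 : ℝ) < D := Nat.cast_pos.2 hg.pos
  unfold c1; field_simp; ring

lemma Grid.c1_one (hg : Grid n D br) (i : ℕ) : c1 D br i 1 = br (i + 1) / D := by
  have h0 : (0 : ℝ) < D := Nat.cast_pos.2 hg.pos
  unfold c1; field_simp; ring

lemma Grid.c1_deriv (hg : Grid n D br) {i : ℕ} (hi : i < n) (x : ℝ) :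
    HasDerivAt (c1 D br i) (wd br i / (2 * D)) x := by
  rw [hg.wd_cast hi]
  exact ((((hasDerivAt_id' x).const_mul _).const_add _).div_const _).congr_deriv (by rw [mul_one])

end

/-- **G3c.** The cell inequality on the cell `i, j, k`. -/
theorem cell_real {n D : ℕ} {br : ℕ → ℕ} (hg : Grid n D br) {i j k : ℕ} (hi : i < n) (hj : j < n)
    (hk : k < n) {bb : ℕ → P3 → ℝ} {vv : P3 → ℝ} {w w1 w2 w3 G : P3 → ℝ} (h : Grad w w1 w2 w3)
    (hG : Continuous G) (hs : Sym3 w)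
    (h0 : ∀ ξ, Box 0 1 ξ → ∀ p q r : ℝ, 2 * (p * w1 ξ + q * w2 ξ + r * w3 ξ) -
      qf (fun e => bb e ξ) p q r - vv ξ * w ξ ^ 2 ≤ G ξ)
    {σ θ vs : ℝ} (b : ℕ → ℕ → ℝ) (v : ℕ → ℝ) (hσ : 1 ≤ σ) (hθ : 0 < θ)
    (hb : ∀ t, Box (-1) 1 t → ∀ p q r : ℝ,
      qf (fun e => bb e (cm D br i j k t)) (wd br i * p) (wd br j * q) (wd br k * r) ≤
        qf (fun e => aff (b e) t) p q r)
    (hv : ∀ t, Box (-1) 1 t → vv (cm D br i j k t) ≤ aff v t)
    (h2 : ∀ t, Box (-1) 1 t → ∀ p q r : ℝ,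
      qf (fun e => aff (b e) t) p q r ≤ θ * (p ^ 2 + q ^ 2 + r ^ 2))
    (h3 : ∀ t, Box (-1) 1 t → aff v t ≤ vs) (h4 : σ * θ * vs ≤ 8 * D ^ 2 * (σ - 1)) :
    ∃ m : ℝ, ∀ u : ℕ → ℝ, low (4 * D ^ 2) σ b v (cf D br i j k w) m u ≤
      45 * (4 * D ^ 2) * T3 fun t => G (cm D br i j k t) := by
  have p0 : (0 : ℝ) < D := Nat.cast_pos.2 hg.pos
  have cc : Continuous (cm D br i j k) := by unfold cm c1; fun_prop
  have g : Grad (fun t => w (cm D br i j k t))
      (fun t => w1 (cm D br i j k t) * (wd br i / (2 * D)))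
      (fun t => w2 (cm D br i j k t) * (wd br j / (2 * D)))
      (fun t => w3 (cm D br i j k t) * (wd br k / (2 * D))) :=
    ⟨h.c0.comp cc, (h.c1.comp cc).mul continuous_const, (h.c2.comp cc).mul continuous_const,
      (h.c3.comp cc).mul continuous_const,
      fun x y z => (h.d1 _ (c1 D br j y) (c1 D br k z)).comp x (hg.c1_deriv hi x),
      fun x y z => (h.d2 (c1 D br i x) _ (c1 D br k z)).comp y (hg.c1_deriv hj y),
      fun x y z => (h.d3 (c1 D br i x) (c1 D br j y) _).comp z (hg.c1_deriv hk z)⟩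
  refine ⟨T3 fun t => w (cm D br i j k t), fun u => ?_⟩
  have a := cell_ineq g (hG.comp cc) (c := 4 * D ^ 2) b v (by positivity) hσ hθ
    (fun t ht p q r => ?_) h2 h3 (h4.trans_eq (by ring)) u
  · have e : fav (fun t => w (cm D br i j k t)) = cf D br i j k w := by
      have s3 : ∀ x y z, w (x, y, z) = w (z, x, y) := fun x y z => by rw [hs.2, hs.1]
      funext s
      rcases s with _ | _ | _ | _ | _ | s <;>
        simp only [fav, cf, fm, cm, hg.c1_neg, hg.c1_one, zero_add, Nat.reduceAdd]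
      · simp only [hs.1 (c1 D br i _)]
      · simp only [hs.1 (c1 D br i _)]
      · simp only [s3 (c1 D br i _)]
      · simp only [s3 (c1 D br i _)]
    rw [← e]
    exact a
  · have a1 := h0 (cm D br i j k t) ⟨hg.c1_mem hi ht.1, hg.c1_mem hj ht.2.1, hg.c1_mem hk ht.2.2⟩
      (wd br i * p / (2 * D)) (wd br j * q / (2 * D)) (wd br k * r / (2 * D))
    have a2 := hb t ht p q r
    have a3 := mul_le_mul_of_nonneg_right (hv t ht) (sq_nonneg (w (cm D br i j k t)))
    have e : 4 * (D : ℝ) ^ 2 * qf (fun e => bb e (cm D br i j k t)) (wd br i * p / (2 * D))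
        (wd br j * q / (2 * D)) (wd br k * r / (2 * D)) =
        qf (fun e => bb e (cm D br i j k t)) (wd br i * p) (wd br j * q) (wd br k * r) := by
      unfold qf; field_simp; ring
    have c0 : (0 : ℝ) ≤ 4 * D ^ 2 := by positivity
    have a4 := mul_le_mul_of_nonneg_left a1 c0
    have a5 := mul_le_mul_of_nonneg_left a3 c0
    simp only [Function.comp]
    linear_combination a4 + a5 + a2 + e

end Pool.Agent.MP_48470b_gt.Gap
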