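import Pool.Agent.MP_48470b_gt.Gap.MSem

/-! Adding a cell to the packed rows. -/

set_option autoImplicit false

open Finset

namespace Pool.Agent.MP_48470b_gt.Gap.Mc

theorem addM_symm (e : ℕ → ℕ → ℕ) (t : ℕ → ℕ) (j l : ℕ) : addM e t j l = addM e t l j := by
  rw [addM, addM, sum_comm]
  refine sum_congr rfl fun x _ => sum_congr rfl fun y _ => ?_
  rw [min_comm, max_comm]
  exact if_congr and_comm rfl rfl

namespace MA

/-- one row of the added matrix -/
def rw6 (e : ℕ → ℕ → ℕ) (t : ℕ → ℕ) (x l : ℕ) : ℤ :=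
  ∑ y ∈ range 6, if t y = l then (e (min x y) (max x y) : ℤ) - 2 ^ 122 else 0

/-- the rows that are added in the first `k` steps -/
def ps (e : ℕ → ℕ → ℕ) (t : ℕ → ℕ) (k j l : ℕ) : ℤ :=
  ∑ x ∈ range k, if t x = j then rw6 e t x l else 0

theorem addM_eq (e : ℕ → ℕ → ℕ) (t : ℕ → ℕ) (j l : ℕ) : addM e t j l = ps e t 6 j l := by
  refine sum_congr rfl fun x _ => ?_
  by_cases h : t x = j <;> simp [h, rw6]

theorem rw6_bd {e : ℕ → ℕ → ℕ} (he : ∀ x y, x ≤ y → y < 6 → e x y ≤ 2 * 2 ^ 122) (t : ℕ → ℕ)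
    {x : ℕ} (hx : x < 6) (l : ℕ) : |rw6 e t x l| ≤ 6 * 2 ^ 122 := by
  refine (abs_sum_le_sum_abs _ _).trans
    ((sum_le_card_nsmul _ _ (2 ^ 122) fun y hy => ?_).trans (by simp))
  have h1 : (e (min x y) (max x y) : ℤ) ≤ 2 * 2 ^ 122 := by
    exact_mod_cast he _ _ min_le_max (max_lt hx (mem_range.1 hy))
  have h2 : (0 : ℤ) ≤ e (min x y) (max x y) := Int.natCast_nonneg _
  split_ifs
  · exact abs_le.2 ⟨by linarith, by linarith⟩
  · simp

theorem ps_bd {e : ℕ → ℕ → ℕ} (he : ∀ x y, x ≤ y → y < 6 → e x y ≤ 2 * 2 ^ 122) (t : ℕ → ℕ)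
    {k : ℕ} (hk : k ≤ 6) (j l : ℕ) : |ps e t k j l| ≤ 2 ^ 128 := by
  refine (abs_sum_le_sum_abs _ _).trans
    ((sum_le_card_nsmul _ _ (6 * 2 ^ 122) fun x hx => ?_).trans ?_)
  · split_ifs
    · exact rw6_bd he t ((mem_range.1 hx).trans_le hk) l
    · simp
  · have h1 : (k : ℤ) ≤ 6 := by exact_mod_cast hk
    rw [card_range, nsmul_eq_mul]
    linarith

theorem row6_eq (f t : ℕ → ℕ) : (row6 (f 0) (f 1) (f 2) (f 3) (f 4) (f 5) t : ℤ) =
    ∑ y ∈ range 6, (f y : ℤ) * 2 ^ (144 * t y) := by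
  simp only [row6, Nat.add_eq, Nat.mul_eq, Nat.shiftLeft_eq', Nat.shiftLeft_eq, sum_range_succ,
    sum_range_zero]
  push_cast
  ring

theorem pk_rw6 {m : ℕ} (e : ℕ → ℕ → ℕ) {t : ℕ → ℕ} (ht : ∀ x < 6, t x < m) (x : ℕ) :
    pk m (rw6 e t x) = ∑ y ∈ range 6, (e (min x y) (max x y) : ℤ) * 2 ^ (144 * t y) -
      ∑ y ∈ range 6, ((5316911983139663491615228241121378304 : ℕ) : ℤ) * 2 ^ (144 * t y) := by
  simp only [pk, rw6, sum_mul]
  rw [sum_comm, ← sum_sub_distrib]
  refine sum_congr rfl fun y hy => ?_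
  simp only [ite_mul, zero_mul]
  rw [sum_ite_eq, if_pos (mem_range.2 (ht y (mem_range.1 hy))), sub_mul]
  norm_num

theorem step {m b r j k : ℕ} {a : ℕ → ℤ} (hb : ∀ l, |a l| ≤ b * 2 ^ 128) (hb' : b + 1 < 2 ^ 15)
    {e : ℕ → ℕ → ℕ} (he : ∀ x y, x ≤ y → y < 6 → e x y ≤ 2 * 2 ^ 122) {t : ℕ → ℕ}
    (ht : ∀ x < 6, t x < m) (hk : k < 6)
    (h : (r : ℤ) = pk m fun l => a l + ps e t k j l + 2 ^ 143) :
    (ad (t k) (row6 (e (min k 0) (max k 0)) (e (min k 1) (max k 1)) (e (min k 2) (max k 2))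
      (e (min k 3) (max k 3)) (e (min k 4) (max k 4)) (e (min k 5) (max k 5)) t)
      (row6 5316911983139663491615228241121378304
      5316911983139663491615228241121378304 5316911983139663491615228241121378304
      5316911983139663491615228241121378304 5316911983139663491615228241121378304
      5316911983139663491615228241121378304 t) j r : ℤ) =
      pk m fun l => a l + ps e t (k + 1) j l + 2 ^ 143 := by
  by_cases c : t k = j
  · have h1 := row6_eq (fun y => e (min k y) (max k y)) t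
    have h2 := row6_eq (fun _ => 5316911983139663491615228241121378304) t
    have h3 := pk_rw6 e ht k
    rw [← h1, ← h2] at h3
    have h4 : (pk m fun l => a l + ps e t (k + 1) j l + 2 ^ 143) = r + pk m (rw6 e t k) := by
      rw [h, pk, pk, pk, ← sum_add_distrib]
      refine sum_congr rfl fun l _ => ?_
      simp only [ps, sum_range_succ, if_pos c]
      ring
    have h5 : 0 ≤ pk m fun l => a l + ps e t (k + 1) j l + 2 ^ 143 := by
      refine sum_nonneg fun l _ => mul_nonneg ?_ (by positivity)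
      have a1 := (abs_le.1 (hb l)).1
      have a2 := (abs_le.1 (ps_bd he t (k := k + 1) hk j l)).1
      have a3 : (b : ℤ) + 1 < 2 ^ 15 := by exact_mod_cast hb'
      linarith
    rw [ad, Nat.beq_eq.mpr c, cd_true, h4, h3]
    rw [h4, h3] at h5
    simp only [Nat.sub_eq, Nat.add_eq]
    omega
  · rw [ad, Bool.eq_false_iff.2 fun hc => c (Nat.eq_of_beq_eq_true hc), cd_false, h]
    simp only [ps, sum_range_succ, if_neg c, add_zero]

theorem bit {t : ℕ → ℕ} {j x : ℕ} (hx : x < 6) (h : t x = j) : (bits6 t).testBit j = true := by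
  simp only [bits6, Nat.lor_eq, Nat.shiftLeft_eq', Nat.one_shiftLeft, Nat.testBit_or,
    Nat.testBit_two_pow, Bool.or_eq_true, decide_eq_true_eq]
  interval_cases x <;> simp [h]

end MA

theorem addM_bd {e : ℕ → ℕ → ℕ} (he : ∀ x y, x ≤ y → y < 6 → e x y ≤ 2 * 2 ^ 122) (t : ℕ → ℕ)
    (j l : ℕ) : |addM e t j l| ≤ 2 ^ 128 := by
  rw [MA.addM_eq]
  exact MA.ps_bd he t le_rfl j l

theorem addM_val {m : ℕ} (e : ℕ → ℕ → ℕ) {t : ℕ → ℕ} (ht : ∀ x < 6, t x < m) (A : ℕ → ℕ → ℤ)
    (lab : ℕ) (z : ℕ → ℝ) :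
    val m (fun j l => A j l + addM e t j l) lab z = val m A lab z +
      ∑ x ∈ range 6, ∑ y ∈ range 6, ((e (min x y) (max x y) : ℝ) - 2 ^ 122) *
        (z (lb lab (t x)) * z (lb lab (t y))) := by
  simp only [val, Int.cast_add, add_mul, sum_add_distrib, add_right_inj, addM, Int.cast_sum,
    sum_mul]
  rw [sum_congr rfl fun j _ => sum_comm, sum_comm]
  refine sum_congr rfl fun x hx => ?_
  rw [sum_congr rfl fun j _ => sum_comm, sum_comm]
  refine sum_congr rfl fun y hy => ?_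
  rw [sum_eq_single_of_mem (t x) (mem_range.2 (ht x (mem_range.1 hx))) fun j _ hj =>
      sum_eq_zero fun l _ => by simp [hj.symm],
    sum_eq_single_of_mem (t y) (mem_range.2 (ht y (mem_range.1 hy))) fun l _ hl => by
      simp [hl.symm], if_pos ⟨rfl, rfl⟩]
  rw [Int.cast_sub, Int.cast_pow, Int.cast_natCast, Int.cast_ofNat]

theorem addL_rep {m b : ℕ} {R : ℕ → ℕ} {A : ℕ → ℕ → ℤ} (h : Rep m R A)
    (hb : ∀ j l, |A j l| ≤ b * 2 ^ 128) (hb' : b + 1 < 2 ^ 15) {e : ℕ → ℕ → ℕ}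
    (he : ∀ x y, x ≤ y → y < 6 → e x y ≤ 2 * 2 ^ 122) {t : ℕ → ℕ} (ht : ∀ x < 6, t x < m) :
    Rep m (addL R (bits6 t) (slow e t (row6 5316911983139663491615228241121378304
      5316911983139663491615228241121378304 5316911983139663491615228241121378304
      5316911983139663491615228241121378304 5316911983139663491615228241121378304
      5316911983139663491615228241121378304 t))) fun j l => A j l + addM e t j l := by
  intro j hj
  simp only [MA.addM_eq]
  unfold addL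
  cases c : Nat.beq (Nat.land (Nat.shiftRight (bits6 t) j) 1) 0
  · have h0 : (R j : ℤ) = pk m fun l => A j l + MA.ps e t 0 j l + 2 ^ 143 := by
      simpa [MA.ps] using h j hj
    exact MA.step (hb j) hb' he ht (k := 5) (by norm_num) (MA.step (hb j) hb' he ht (by norm_num)
      (MA.step (hb j) hb' he ht (by norm_num) (MA.step (hb j) hb' he ht (by norm_num)
      (MA.step (hb j) hb' he ht (by norm_num) (MA.step (hb j) hb' he ht (by norm_num) h0)))))
  · have h1 : ∀ l, MA.ps e t 6 j l = 0 := fun l => sum_eq_zero fun x hx => if_neg fun hc => by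
      have h2 := MA.bit (mem_range.1 hx) hc
      have h3 := Nat.eq_of_beq_eq_true c
      simp only [Nat.land_eq, Nat.shiftRight_eq] at h3
      rw [Nat.testBit, Nat.and_comm, h3] at h2
      exact absurd h2 (by decide)
    simp only [h1, add_zero]
    rw [← h j hj]
    exact congrArg Nat.cast (Nat.mod_zero _)

end Pool.Agent.MP_48470b_gt.Gap.Mc
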