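import Pool.Agent.MP_48470b_gt.Gap.ME
import Pool.Agent.MP_48470b_gt.Gap.MA
import Pool.Agent.MP_48470b_gt.Gap.RunX

/-! Soundness of the loops of the elimination machine. -/

set_option autoImplicit false

open Finset

namespace Pool.Agent.MP_48470b_gt.Gap.Mc

variable {V Ω : Type} [AddCommGroup V] [Module ℝ V] {X : ℕ → V →ₗ[ℝ] ℝ} {π : Ω → V}

/-- the names of the six faces of a cell -/
def idf (i j k : ℕ) : ℕ → ℕ
  | 0 => fid i j k
  | 1 => fid (i + 1) j k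
  | 2 => fid j i k
  | 3 => fid (j + 1) i k
  | 4 => fid k i j
  | _ => fid (k + 1) i j

theorem chk_true {c : Cf} {lab s id : ℕ} {b : Bool} (h : chk c lab s id b = true) :
    s < c.m ∧ lb lab s = id ∧ b = true := by
  simp only [chk, cd_and] at h
  exact ⟨Nat.le_of_ble_eq_true h.1, Nat.eq_of_beq_eq_true h.2.1, h.2.2⟩

theorem cell2_sound {m e b er ax i j k : ℕ} (he : e ≤ 142) (hb : b + 8 < 2 ^ 15) {s : St}
    {Q : Ω → ℝ} {K : St → Bool} {t : ℕ → ℕ} {E : ℕ → ℕ → ℕ}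
    (hE : ∀ x y, x ≤ y → y < 6 → E x y ≤ 2 * 2 ^ 122) (h : Inv X π m s b er Q)
    (hr : cell2 (mkCf m (2 ^ e)) ax i j k t E s K = true) :
    ∃ s', K s' = true ∧ Inv X π m s' (b + 8) (er + 28 * m * 2 ^ e) fun ω => Q ω +
      ∑ x ∈ range 6, ∑ y ∈ range 6, ((E (min x y) (max x y) : ℝ) - 2 ^ 122) *
        (X (idf i j k x) (π ω) * X (idf i j k y) (π ω)) := by
  obtain ⟨R, lab, act, cnt⟩ := s
  obtain ⟨a0, b0, hr⟩ := chk_true hr
  obtain ⟨a1, b1, hr⟩ := chk_true hr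
  obtain ⟨a2, b2, hr⟩ := chk_true hr
  obtain ⟨a3, b3, hr⟩ := chk_true hr
  obtain ⟨a4, b4, hr⟩ := chk_true hr
  obtain ⟨a5, b5, hr⟩ := chk_true hr
  have ht : ∀ x < 6, t x < m := fun x hx => by interval_cases x <;> assumption
  have hl : ∀ x < 6, lb lab (t x) = idf i j k x := fun x hx => by interval_cases x <;> assumption
  have h7 : fl ax 496 7 ≤ 7 := Nat.and_le_right
  obtain ⟨hc, A, L, h1, h2, h3, h4, h5⟩ := h
  have hI := elims_sound (X := X) (π := π) (b := b + 1) (er := er) (Q := fun ω => Q ω +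
      ∑ x ∈ range 6, ∑ y ∈ range 6, ((E (min x y) (max x y) : ℝ) - 2 ^ 122) *
        (X (idf i j k x) (π ω) * X (idf i j k y) (π ω))) he (fl ax 496 7) (by omega) ?_ hr
  · obtain ⟨s', k1, k2⟩ := hI
    refine ⟨s', k1, k2.mono (by omega) ?_ fun _ => le_rfl⟩
    have := Nat.mul_le_mul_right (4 * m * 2 ^ e) h7
    nlinarith
  · refine ⟨hc, fun j l => A j l + addM E t j l, L, addL_rep h1 h3 (by omega) hE ht,
      fun j l => by simp only [h2 j l, addM_symm E t j l], fun j l => ?_, h4, fun ω S k1 k2 => ?_⟩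
    · have := addM_bd hE t j l
      have := h3 j l
      have := abs_add_le (A j l) (addM E t j l)
      push_cast; linarith
    · have := h5 ω S k1 k2
      rw [addM_val E ht]
      have e1 : ∑ x ∈ range 6, ∑ y ∈ range 6, ((E (min x y) (max x y) : ℝ) - 2 ^ 122) *
          (X (lb lab (t x)) (π ω) * X (lb lab (t y)) (π ω)) =
          ∑ x ∈ range 6, ∑ y ∈ range 6, ((E (min x y) (max x y) : ℝ) - 2 ^ 122) *
          (X (idf i j k x) (π ω) * X (idf i j k y) (π ω)) :=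
        sum_congr rfl fun x hx => sum_congr rfl fun y hy => by
          rw [hl x (mem_range.1 hx), hl y (mem_range.1 hy)]
      simp only at this ⊢
      linarith

theorem iter_sound {f : ℕ → St → (St → Bool) → Bool} (P : ℕ → St → Prop) {K : St → Bool} (k : ℕ) :
    ∀ (a : ℕ) (s : St), (∀ x, a ≤ x → x < a + k → ∀ s K, P x s → f x s K = true →
      ∃ s', K s' = true ∧ P (x + 1) s') → P a s → iter f k a s K = true →
      ∃ s', K s' = true ∧ P (a + k) s' := by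
  induction k with
  | zero => exact fun a s _ h hr => ⟨s, hr, h⟩
  | succ k ih =>
    intro a s hf h hr
    obtain ⟨s', h1, h2⟩ := hf a le_rfl (by omega) s _ h hr
    obtain ⟨s'', h3, h4⟩ := ih (a + 1) s' (fun x h1 h2 => hf x (by omega) (by omega)) h2 h1
    exact ⟨s'', h3, by rwa [show a + (k + 1) = a + 1 + k by omega]⟩

theorem allB_true {P : ℕ → Bool} {b : Bool} (k : ℕ) (h : allB P b k = true) :
    b = true ∧ ∀ j < k, P j = true := by
  induction k with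
  | zero => exact ⟨h, fun j hj => absurd hj (Nat.not_lt_zero _)⟩
  | succ k ih =>
    obtain ⟨h1, h2⟩ := cd_and.1 h
    obtain ⟨h3, h4⟩ := ih h2
    refine ⟨h3, fun j hj => ?_⟩
    rcases Nat.lt_succ_iff_lt_or_eq.1 hj with h | rfl
    · exact h4 j h
    · exact h1

/-- what is needed from the local stage -/
def LocOK (X : ℕ → V →ₗ[ℝ] ℝ) (π : Ω → V) (n : ℕ)
    (lk : ℕ → ℕ → ℕ → ℕ → ((ℕ → ℕ → ℕ) → Bool) → Bool) (q : ℕ → ℕ → ℕ → Ω → ℝ) : Prop :=
  ∀ a i j k K, i ≤ j → j ≤ k → k < n → lk a i j k K = true → ∃ E : ℕ → ℕ → ℕ, K E = true ∧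
    (∀ x y, x ≤ y → y < 6 → E x y ≤ 2 * 2 ^ 122) ∧ ∀ ω,
      ∑ x ∈ range 6, ∑ y ∈ range 6, ((E (min x y) (max x y) : ℝ) - 2 ^ 122) *
        (X (idf i j k x) (π ω) * X (idf i j k y) (π ω)) ≤ q i j k ω

/-- the invariant after `N` cells -/
def InvN (X : ℕ → V →ₗ[ℝ] ℝ) (π : Ω → V) (m e : ℕ) (s : St) (N : ℕ) (Q : Ω → ℝ) : Prop :=
  Inv X π m s (8 * N) (N * (28 * m * 2 ^ e)) Q

variable {m e n : ℕ} {lk : ℕ → ℕ → ℕ → ℕ → ((ℕ → ℕ → ℕ) → Bool) → Bool} {q : ℕ → ℕ → ℕ → Ω → ℝ}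
  {ax : ℕ → ℕ → ℕ → ℕ}

theorem cell_sound (he : e ≤ 142) (hl : LocOK X π n lk q) {a i j k N : ℕ} (hi : i ≤ j) (hj : j ≤ k)
    (hk : k < n) (hN : N < 4000) {s : St} {Q : Ω → ℝ} {K : St → Bool} (h : InvN X π m e s N Q)
    (hr : cell (mkCf m (2 ^ e)) lk a i j k s K = true) :
    ∃ s', K s' = true ∧ InvN X π m e s' (N + 1) fun ω => Q ω + q i j k ω := by
  obtain ⟨E, h1, h2, h3⟩ := hl a i j k _ hi hj hk hr
  obtain ⟨s', k1, k2⟩ := cell2_sound he (by omega) h2 h h1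
  exact ⟨s', k1, k2.mono (by omega) (by rw [add_mul, one_mul]) fun ω => by linarith [h3 ω]⟩

theorem runI_sound (he : e ≤ 142) (hl : LocOK X π n lk q) {i j N : ℕ} (hi : i ≤ j) (hj : j < n)
    (hN : N + (n - j) ≤ 4000) {s : St} {Q : Ω → ℝ} {K : St → Bool} (h : InvN X π m e s N Q)
    (hr : runI (mkCf m (2 ^ e)) lk ax n j i s K = true) :
    ∃ s', K s' = true ∧ InvN X π m e s' (N + (n - j))
      fun ω => Q ω + ∑ k ∈ range (n - j), q i j (j + k) ω := by
  obtain ⟨R, lab, act, cnt⟩ := s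
  have h1 := (allB_true _ hr).1
  have := iter_sound (fun x s => InvN X π m e s (N + (x - j))
    fun ω => Q ω + ∑ k ∈ range (x - j), q i j (j + k) ω) (n - j) j _ ?_ (by simpa using h) h1
  · simpa using this
  · intro x h1 h2 s K h3 h4
    obtain ⟨s', k1, k2⟩ := cell_sound he hl hi h1 (by omega) (by omega) h3 h4
    refine ⟨s', k1, ?_⟩
    rw [show x + 1 - j = x - j + 1 by omega]
    simp only [sum_range_succ, show j + (x - j) = x by omega, ← add_assoc]
    exact k2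

theorem runJ_sound (he : e ≤ 142) (hl : LocOK X π n lk q) {j N : ℕ} (hj : j < n)
    (hN : N + (j + 1) * (n - j) ≤ 4000) {s : St} {Q : Ω → ℝ} {K : St → Bool}
    (h : InvN X π m e s N Q) (hr : runJ (mkCf m (2 ^ e)) lk ax n j s K = true) :
    ∃ s', K s' = true ∧ InvN X π m e s' (N + (j + 1) * (n - j))
      fun ω => Q ω + ∑ i ∈ range (j + 1), ∑ k ∈ range (n - j), q i j (j + k) ω := by
  have := iter_sound (fun x s => InvN X π m e s (N + x * (n - j))
    fun ω => Q ω + ∑ i ∈ range x, ∑ k ∈ range (n - j), q i j (j + k) ω) (j + 1) 0 _ ?_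
    (by simpa using h) hr
  · simpa using this
  · intro x _ h2 s K h3 h4
    have h5 : (x + 1) * (n - j) ≤ (j + 1) * (n - j) := Nat.mul_le_mul_right _ (by omega)
    rw [add_mul, one_mul] at h5
    obtain ⟨s', k1, k2⟩ := runI_sound he hl (by omega) hj (by omega) h3 h4
    refine ⟨s', k1, ?_⟩
    simp only [sum_range_succ _ x, add_mul, one_mul, ← add_assoc]
    exact k2

/-- number of cells in the first `J` layers -/
def nc (n J : ℕ) : ℕ := ∑ j ∈ range J, (j + 1) * (n - j)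

/-- the invariant after `J` layers -/
def InvJ (X : ℕ → V →ₗ[ℝ] ℝ) (π : Ω → V) (m e n : ℕ) (q : ℕ → ℕ → ℕ → Ω → ℝ) (J : ℕ) (s : St) :
    Prop :=
  InvN X π m e s (nc n J)
    fun ω => ∑ j ∈ range J, ∑ i ∈ range (j + 1), ∑ k ∈ range (n - j), q i j (j + k) ω

theorem chunk_sound (he : e ≤ 142) (hl : LocOK X π n lk q) (hn : nc n n ≤ 4000) {j0 nj : ℕ}
    (hj : j0 + nj ≤ n) {s t : St} (h : InvJ X π m e n q j0 s)
    (hr : chunk (mkCf m (2 ^ e)) lk ax n j0 nj s t = true) : InvJ X π m e n q (j0 + nj) t := by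
  have := iter_sound (InvJ X π m e n q) nj j0 s ?_ h hr
  · obtain ⟨⟨R, lab, act, cnt⟩, k1, k2⟩ := this
    obtain ⟨h1, h2⟩ := allB_true _ k1
    obtain ⟨h3, h4⟩ := cd_and.1 h1
    obtain ⟨hc, A, L, a1, a2, a3, a4, a5⟩ := k2
    have e1 : lab = t.lab := Nat.eq_of_beq_eq_true h3
    have e2 : cnt = t.cnt := Nat.eq_of_beq_eq_true h4
    refine ⟨e2 ▸ hc, A, L, fun j hj => ?_, a2, a3, e2 ▸ a4, e1 ▸ a5⟩
    rw [← Nat.eq_of_beq_eq_true (h2 j hj)]
    exact a1 j hj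
  · intro x _ h2 s K h3 h4
    have h5 : nc n (x + 1) ≤ nc n n := sum_le_sum_of_subset (range_subset_range.2 (by omega))
    have h6 : nc n (x + 1) = nc n x + (x + 1) * (n - x) := sum_range_succ _ _
    obtain ⟨s', k1, k2⟩ := runJ_sound he hl (by omega) (by omega) h3 h4
    refine ⟨s', k1, ?_⟩
    rw [InvJ, h6]
    exact k2.mono le_rfl le_rfl fun ω => (sum_range_succ _ x).ge

theorem st0_inv (lab : ℕ) : InvJ X π m e n q 0 (st0 m lab) := by
  refine ⟨Nat.zero_le _, fun _ _ => 0, [], fun j _ => ?_, fun _ _ => rfl, by simp, rfl,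
    fun ω S _ _ => by simp [val, nc]⟩
  have : (((st0 m lab).R j : ℕ) : ℤ) = ones m * 2 ^ 143 := by
    simp only [st0, Nat.mul_eq]; push_cast; rfl
  rw [this, ones_eq, pk, pk, sum_mul]
  exact sum_congr rfl fun l _ => by ring

theorem fin_sound (he : e ≤ 142) {s : St} {b er : ℕ} (hb : b < 2 ^ 15) {Q : Ω → ℝ}
    (h : Inv X π m s b er Q) (hr : fin (mkCf m (2 ^ e)) s = true) :
    ∃ l : Fin 4 → V →ₗ[ℝ] ℝ, ∀ (ω : Ω) (S : ℝ), (∀ id, X id (π ω) ^ 2 ≤ S) →
      (∀ k, l k (π ω) = 0) → -((er + m * m * 2 ^ e : ℕ) * S) ≤ Q ω := by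
  obtain ⟨hc, A, L, a1, a2, a3, a4, a5⟩ := h
  have h2 := (allB_true _ hr).2
  have hs : ∀ j < m, ∀ l < m, |A j l| ≤ 2 ^ e := fun j hj =>
    small_sound he (h2 j hj) (a1 j hj) fun l _ => by
      have := a3 j l
      have : (b : ℤ) < 2 ^ 15 := by exact_mod_cast hb
      linarith
  refine ⟨fun k => L.getD k 0, fun ω S k1 k2 => ?_⟩
  have k3 := a5 ω S k1 fun f hf => by
    obtain ⟨i, hi, rfl⟩ := List.getElem_of_mem hf
    have : L.getD i 0 (π ω) = 0 := k2 ⟨i, by omega⟩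
    rwa [List.getD_eq_getElem _ _ hi] at this
  have k4 : ∑ j ∈ range m, ∑ l ∈ range m, -((2 : ℝ) ^ e * S) ≤ val m A s.lab fun id => X id (π ω) :=
    sum_le_sum fun j hj => sum_le_sum fun l hl => by
      have b1 : |(A j l : ℝ)| ≤ 2 ^ e := by
        exact_mod_cast hs j (mem_range.1 hj) l (mem_range.1 hl)
      have b2 := k1 (lb s.lab j)
      have b3 := k1 (lb s.lab l)
      have b4 : |X (lb s.lab j) (π ω) * X (lb s.lab l) (π ω)| ≤ S :=
        abs_le.2 ⟨by nlinarith [sq_nonneg (X (lb s.lab j) (π ω) + X (lb s.lab l) (π ω))],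
          by nlinarith [sq_nonneg (X (lb s.lab j) (π ω) - X (lb s.lab l) (π ω))]⟩
      have := mul_le_mul b1 b4 (abs_nonneg _) (by positivity)
      rw [← abs_mul] at this
      exact (abs_le.1 this).1
  simp only [sum_const, card_range, nsmul_eq_mul] at k4
  push_cast
  linarith

end Pool.Agent.MP_48470b_gt.Gap.Mc
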