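import Pool.Agent.MP_48470b_gt.Gap.MSem

/-! Digits of packed rows. -/

set_option autoImplicit false

open Finset

namespace Pool.Agent.MP_48470b_gt.Gap.Mc

theorem lit144_MD : (22300745198530623141535718272648361505980415 : ℕ) = 2 ^ 144 - 1 := by norm_num

theorem dg_eq_MD (x l : ℕ) : dg x l = x / 2 ^ (144 * l) % 2 ^ 144 := by
  show (x >>> (144 * l)) &&& 22300745198530623141535718272648361505980415 = _
  rw [lit144_MD, Nat.and_two_pow_sub_one_eq_mod, Nat.shiftRight_eq_div_pow]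

theorem dg_succ_MD (x l : ℕ) : dg x (l + 1) = dg (x / 2 ^ 144) l := by
  rw [dg_eq_MD, dg_eq_MD, Nat.div_div_eq_div_mul, ← pow_add, Nat.mul_succ, Nat.add_comm]

theorem pk_succ_MD (m : ℕ) (a : ℕ → ℤ) :
    pk (m + 1) a = a 0 + 2 ^ 144 * pk m fun l => a (l + 1) := by
  unfold pk
  rw [sum_range_succ', mul_sum, add_comm]
  congr 1
  · simp
  · refine sum_congr rfl fun l _ => ?_
    rw [Nat.mul_succ, pow_add]
    ring

theorem geo_MD (m : ℕ) : (∑ l ∈ range m, 2 ^ (144 * l)) * (2 ^ 144 - 1) + 1 = 2 ^ (144 * m) := by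
  induction m with
  | zero => simp
  | succ m ih =>
    rw [sum_range_succ, Nat.mul_succ, pow_add]
    have hB : 1 ≤ 2 ^ 144 := Nat.one_le_two_pow
    generalize 2 ^ (144 * m) = y at ih ⊢
    generalize (∑ l ∈ range m, 2 ^ (144 * l) : ℕ) = s at ih ⊢
    generalize 2 ^ 144 = B at hB ih ⊢
    obtain ⟨k, rfl⟩ := Nat.exists_eq_add_of_le hB
    rw [Nat.add_sub_cancel_left] at ih ⊢
    rw [← ih]
    ring

theorem ones_nat_MD (m : ℕ) : ones m = ∑ l ∈ range m, 2 ^ (144 * l) := by
  show (1 <<< (144 * m) - 1) / 22300745198530623141535718272648361505980415 = _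
  rw [lit144_MD, Nat.one_shiftLeft, ← geo_MD, Nat.add_sub_cancel,
    Nat.mul_div_cancel _ (by norm_num)]

theorem ones_eq (m : ℕ) : (ones m : ℤ) = pk m fun _ => 1 := by
  rw [ones_nat_MD]
  unfold pk
  push_cast
  simp

theorem dg_pk {m x : ℕ} {a : ℕ → ℤ} (h : (x : ℤ) = pk m a) (h0 : ∀ l < m, 0 ≤ a l)
    (h1 : ∀ l < m, a l < 2 ^ 144) : ∀ l < m, (dg x l : ℤ) = a l := by
  induction m generalizing x a with
  | zero => intro l hl; omega
  | succ m ih =>
    rw [pk_succ_MD] at h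
    have a0 := h0 0 (by omega)
    have a1 := h1 0 (by omega)
    intro l hl
    rcases l with _ | l
    · rw [dg_eq_MD]
      generalize (pk m fun l => a (l + 1)) = P at h
      simp only [Nat.mul_zero, pow_zero, Nat.div_one]
      omega
    · rw [dg_succ_MD]
      refine ih (a := fun l => a (l + 1)) ?_ (fun l hl => h0 _ (by omega))
        (fun l hl => h1 _ (by omega)) l (by omega)
      generalize (pk m fun l => a (l + 1)) = P at h ⊢
      omega

theorem digits_MD (m : ℕ) : ∀ x : ℕ, x < 2 ^ (144 * m) → (x : ℤ) = pk m fun l => dg x l := by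
  induction m with
  | zero => intro x hx; simp [pk] at hx ⊢; omega
  | succ m ih =>
    intro x hx
    have h1 : x / 2 ^ 144 < 2 ^ (144 * m) := by
      rw [Nat.div_lt_iff_lt_mul (by norm_num), ← pow_add]
      exact hx
    rw [pk_succ_MD]
    simp only [dg_succ_MD]
    rw [← ih _ h1, dg_eq_MD]
    simp only [Nat.mul_zero, pow_zero, Nat.div_one]
    omega

theorem mul_ones_MD (m c : ℕ) : ((Nat.mul (ones m) c : ℕ) : ℤ) = pk m fun _ => c := by
  show ((ones m * c : ℕ) : ℤ) = _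
  rw [Nat.cast_mul, ones_eq]
  unfold pk
  rw [sum_mul]
  exact sum_congr rfl fun l _ => by ring

theorem land_pk (m x : ℕ) {e : ℕ} (he : e ≤ 144) :
    ((Nat.land x (Nat.mul (ones m) (2 ^ e - 1)) : ℕ) : ℤ) =
      pk m (fun l => dg (Nat.land x (Nat.mul (ones m) (2 ^ e - 1))) l) ∧
    ∀ l, dg (Nat.land x (Nat.mul (ones m) (2 ^ e - 1))) l < 2 ^ e := by
  have hp : 2 ^ e ≤ 2 ^ 144 := Nat.pow_le_pow_right (by norm_num) he
  have hp0 : 0 < 2 ^ e := by positivity
  have hM : Nat.mul (ones m) (2 ^ e - 1) < 2 ^ (144 * m) := by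
    show ones m * (2 ^ e - 1) < _
    rw [← geo_MD, ← ones_nat_MD]
    exact Nat.lt_succ_of_le (Nat.mul_le_mul_left _ (Nat.sub_le_sub_right hp 1))
  have hd := dg_pk (mul_ones_MD m (2 ^ e - 1)) (fun _ _ => by positivity)
    (fun _ _ => by exact_mod_cast (by omega : 2 ^ e - 1 < 2 ^ 144))
  generalize Nat.mul (ones m) (2 ^ e - 1) = M at hM hd ⊢
  refine ⟨digits_MD m _ (lt_of_le_of_lt Nat.and_le_right hM), fun l => ?_⟩
  have h1 : dg (Nat.land x M) l ≤ dg M l := by
    show ((x &&& M) >>> (144 * l)) &&& _ ≤ (M >>> (144 * l)) &&& _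
    rw [Nat.shiftRight_and_distrib, Nat.and_assoc]
    exact Nat.and_le_right
  refine lt_of_le_of_lt h1 ?_
  by_cases hl : l < m
  · have h2 : dg M l = 2 ^ e - 1 := by exact_mod_cast hd l hl
    omega
  · rw [dg_eq_MD, Nat.div_eq_of_lt (lt_of_lt_of_le hM
      (Nat.pow_le_pow_right (by norm_num) (by omega))), Nat.zero_mod]
    exact hp0

theorem small_sound {m e r : ℕ} (he : e ≤ 142) {a : ℕ → ℤ} (h : small (mkCf m (2 ^ e)) r = true)
    (hr : (r : ℤ) = pk m fun l => a l + 2 ^ 143) (ha : ∀ l < m, |a l| < 2 ^ 143) :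
    ∀ l < m, |a l| ≤ 2 ^ e := by
  obtain ⟨h1, h2⟩ := cd_and.1 h
  have h1' : Nat.mul (ones m) (11150372599265311570767859136324180752990208 - 2 ^ e) ≤ r :=
    Nat.le_of_ble_eq_true h1
  have h2' : Nat.land (r - Nat.mul (ones m) (11150372599265311570767859136324180752990208 - 2 ^ e))
      (Nat.mul (ones m) (2 * 2 ^ e - 1)) =
      r - Nat.mul (ones m) (11150372599265311570767859136324180752990208 - 2 ^ e) :=
    Nat.eq_of_beq_eq_true h2
  rw [← pow_succ'] at h2'
  obtain ⟨h3, h4⟩ := land_pk m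
    (r - Nat.mul (ones m) (11150372599265311570767859136324180752990208 - 2 ^ e))
    (e := e + 1) (by omega)
  rw [h2'] at h3 h4
  have h5 := mul_ones_MD m (11150372599265311570767859136324180752990208 - 2 ^ e)
  have hp : 2 ^ e ≤ 2 ^ 142 := Nat.pow_le_pow_right (by norm_num) he
  have hc : ((2 ^ e : ℕ) : ℤ) = 2 ^ e := by push_cast; rfl
  rw [pow_succ] at h4
  rw [← hc]
  generalize 2 ^ e = E at *
  generalize Nat.mul (ones m) (11150372599265311570767859136324180752990208 - E) = o at *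
  obtain ⟨x, rfl⟩ := Nat.exists_eq_add_of_le h1'
  rw [Nat.add_sub_cancel_left] at h3 h4
  have h6 : ((o + x : ℕ) : ℤ) = pk m fun l =>
      ((11150372599265311570767859136324180752990208 - E : ℕ) : ℤ) + dg x l := by
    rw [Nat.cast_add, h5, h3]
    unfold pk
    rw [← sum_add_distrib]
    exact sum_congr rfl fun l _ => by ring
  intro l hl
  have h7 := dg_pk hr (fun l hl => by have := abs_lt.1 (ha l hl); omega)
    (fun l hl => by have := abs_lt.1 (ha l hl); omega) l hl
  have h8 := dg_pk h6 (fun l hl => by positivity) (fun l hl => by have := h4 l; omega) l hl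
  have := h4 l
  rw [abs_le]
  constructor <;> omega

theorem lb_set (lab : ℕ) {p nw j : ℕ} (hn : nw < 65536) (h : j ≠ p) :
    lb (Nat.xor lab (Nat.shiftLeft (Nat.xor (lb lab p) nw) (Nat.mul 16 p))) j = lb lab j := by
  have hd : lb lab p ^^^ nw < 2 ^ 16 :=
    Nat.xor_lt_two_pow (lt_of_le_of_lt Nat.and_le_right (by norm_num)) hn
  show ((lab ^^^ ((lb lab p ^^^ nw) <<< (16 * p))) >>> (16 * j)) &&& (2 ^ 16 - 1) =
    (lab >>> (16 * j)) &&& (2 ^ 16 - 1)
  generalize lb lab p ^^^ nw = d at hd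
  refine Nat.eq_of_testBit_eq fun i => ?_
  simp only [Nat.testBit_and, Nat.testBit_shiftRight, Nat.testBit_xor, Nat.testBit_shiftLeft,
    Nat.testBit_two_pow_sub_one]
  by_cases hi : i < 16
  · by_cases hj : 16 * j + i ≥ 16 * p
    · rw [Nat.testBit_lt_two_pow (x := d) (lt_of_lt_of_le hd
        (Nat.pow_le_pow_right (by norm_num) (by omega)))]
      simp
    · simp [hj]
  · simp [hi]

end Pool.Agent.MP_48470b_gt.Gap.Mc
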