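import Pool.Agent.MP_48470b_gt.Gap.MD

/-! Soundness of the elimination step. -/

set_option autoImplicit false

open Finset

namespace Pool.Agent.MP_48470b_gt.Gap.Mc

theorem upd_eq (r d mag : ℕ) (h : 0 ≤ (r : ℤ) - (d - 2 ^ 64) * mag) :
    (upd r d mag : ℤ) = r - (d - 2 ^ 64) * mag := by
  have e : (2 : ℤ) ^ 64 = (18446744073709551616 : ℕ) := by norm_num
  rw [e] at h ⊢
  unfold upd
  generalize 18446744073709551616 = g at h ⊢
  cases h1 : Nat.ble d g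
  · have h2 : g ≤ d := (Nat.lt_of_not_ge fun h => by simp [Nat.ble_eq_true_of_le h] at h1).le
    have h3 : (d - g) * mag ≤ r := by zify [h2]; linarith
    show (((r - (d - g) * mag : ℕ)) : ℤ) = _
    zify [h2, h3]
  · have h2 : d ≤ g := Nat.le_of_ble_eq_true h1
    cases h3 : Nat.beq d g
    · show (((r + (g - d) * mag : ℕ)) : ℤ) = _
      zify [h2]; ring
    · rw [Nat.eq_of_beq_eq_true h3]
      show (((r % 0 : ℕ)) : ℤ) = _
      simp

theorem pk_nn {m : ℕ} {a : ℕ → ℤ} (h : ∀ l, 0 ≤ a l) : 0 ≤ pk m a :=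
  sum_nonneg fun l _ => mul_nonneg (h l) (by positivity)

theorem mul_bd {c z : ℤ} (hc : |c| ≤ 2 ^ 64) (hz : |z| ≤ 2 ^ 64) : |c * z| ≤ 2 ^ 128 := by
  rw [abs_mul]
  exact (mul_le_mul hc hz (abs_nonneg _) (by positivity)).trans (by norm_num)

theorem lay_rep {m b : ℕ} {R : ℕ → ℕ} {A : ℕ → ℕ → ℤ} (h : Rep m R A)
    (hb : ∀ j l, |A j l| ≤ b * 2 ^ 128) (hb' : b + 1 < 2 ^ 15) {Yc mag : ℕ} {c z : ℕ → ℤ}
    (hY : (Yc : ℤ) = pk m fun l => c l + 2 ^ 64) (hc : ∀ l, |c l| ≤ 2 ^ 64)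
    (hm : (mag : ℤ) = pk m z) (hz : ∀ l, |z l| ≤ 2 ^ 64) :
    Rep m (lay R Yc mag) fun j l => A j l - c j * z l := by
  intro j hj
  have hd : (dg Yc j : ℤ) = c j + 2 ^ 64 :=
    dg_pk hY (fun l _ => by linarith [(abs_le.1 (hc l)).1])
      (fun l _ => by linarith [(abs_le.1 (hc l)).2]) j hj
  have e : (R j : ℤ) - (dg Yc j - 2 ^ 64) * mag = pk m fun l => A j l - c j * z l + 2 ^ 143 := by
    rw [h j hj, hd, hm, pk, pk, pk, mul_sum, ← sum_sub_distrib]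
    exact sum_congr rfl fun l _ => by ring
  have hb2 : (b : ℤ) + 1 < 2 ^ 15 := by exact_mod_cast hb'
  rw [← e]
  refine upd_eq _ _ _ (e ▸ pk_nn fun l => ?_)
  linarith [(abs_le.1 (hb j l)).1, (abs_le.1 (mul_bd (hc j) (hz l))).2]

theorem val_relabel {m p E lab lab' : ℕ} {A : ℕ → ℕ → ℤ} (hs : ∀ j l, A j l = A l j)
    (hp : ∀ l < m, |A p l| ≤ E) (hl : ∀ j, j ≠ p → lb lab' j = lb lab j) {x : ℕ → ℝ} {S : ℝ}
    (hx : ∀ id, x id ^ 2 ≤ S) : val m A lab' x - 4 * m * E * S ≤ val m A lab x := by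
  have S0 : 0 ≤ S := (sq_nonneg _).trans (hx 0)
  have ES : 0 ≤ (E : ℝ) * S := by positivity
  have k1 : ∀ (a : ℝ) (u v : ℕ), |a| ≤ E → |a * (x u * x v)| ≤ E * S := fun a u v ha => by
    rw [abs_mul]
    exact mul_le_mul ha (abs_le.2 ⟨by nlinarith [sq_nonneg (x u + x v), hx u, hx v],
      by nlinarith [sq_nonneg (x u - x v), hx u, hx v]⟩) (abs_nonneg _) (by positivity)
  have k2 : val m A lab' x - val m A lab x ≤ ∑ j ∈ range m, ∑ l ∈ range m,
      ((if p = j then 2 * (E * S) else 0) + if p = l then 2 * (E * S) else 0) := by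
    rw [val, val, ← sum_sub_distrib]
    refine sum_le_sum fun j hj => ?_
    rw [← sum_sub_distrib]
    refine sum_le_sum fun l hl' => ?_
    by_cases h : p = j ∨ p = l
    · have ha : |(A j l : ℝ)| ≤ E := by
        rcases h with rfl | rfl
        · exact_mod_cast hp l (mem_range.1 hl')
        · rw [hs]; exact_mod_cast hp j (mem_range.1 hj)
      have a1 := (abs_le.1 (k1 _ (lb lab' j) (lb lab' l) ha)).2
      have a2 := (abs_le.1 (k1 _ (lb lab j) (lb lab l) ha)).1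
      rcases h with h | h <;> rw [if_pos h] <;> split_ifs <;> linarith
    · push Not at h
      rw [hl j h.1.symm, hl l h.2.symm, if_neg h.1, if_neg h.2]
      simp
  have k3 : ∑ j ∈ range m, (if p = j then 2 * ((E : ℝ) * S) else 0) ≤ 2 * (E * S) := by
    rw [sum_ite_eq]; split_ifs <;> linarith
  simp only [sum_add_distrib, sum_const, card_range, nsmul_eq_mul, ← mul_sum] at k2
  nlinarith [mul_le_mul_of_nonneg_left k3 (Nat.cast_nonneg (α := ℝ) m)]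

theorem val_sub (m : ℕ) (A : ℕ → ℕ → ℤ) (c z : ℕ → ℤ) (lab : ℕ) (x : ℕ → ℝ) :
    val m (fun j l => A j l - c j * z l) lab x = val m A lab x -
      (∑ j ∈ range m, (c j : ℝ) * x (lb lab j)) * ∑ l ∈ range m, (z l : ℝ) * x (lb lab l) := by
  rw [sum_mul_sum, val, val, ← sum_sub_distrib]
  refine sum_congr rfl fun j _ => ?_
  rw [← sum_sub_distrib]
  exact sum_congr rfl fun l _ => by push_cast; ring

variable {V Ω : Type} [AddCommGroup V] [Module ℝ V] {X : ℕ → V →ₗ[ℝ] ℝ} {π : Ω → V}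

theorem elim3_sound {m e b er p nw lab act cnt cnt' : ℕ} (he : e ≤ 142) (hb : b + 1 < 2 ^ 15)
    (hp : p < m) (hn : nw < 65536) {R : ℕ → ℕ} {Q : Ω → ℝ} {K : St → Bool}
    (h : Inv X π m ⟨R, lab, act, cnt⟩ b er Q) {Yc mag : ℕ} {c z : ℕ → ℤ}
    (hY : (Yc : ℤ) = pk m fun l => c l + 2 ^ 64) (hc : ∀ l, |c l| ≤ 2 ^ 64)
    (hm : (mag : ℤ) = pk m z)
    (hz : (cnt' = cnt ∧ z = c) ∨ (cnt' = cnt + 1 ∧ z = fun l => -c l))
    (hr : elim3 (mkCf m (2 ^ e)) p nw (lay R Yc mag) lab act cnt' K = true) :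
    ∃ s', K s' = true ∧ Inv X π m s' (b + 1) (er + 4 * m * 2 ^ e) Q := by
  obtain ⟨-, A, L, a1, a2, a3, a4, a5⟩ := h
  obtain ⟨h1, h2⟩ := cd_and.1 hr
  obtain ⟨h2, h3⟩ := cd_and.1 h2
  have hz' : ∀ l, |z l| ≤ 2 ^ 64 := fun l => by
    rcases hz with ⟨-, rfl⟩ | ⟨-, rfl⟩
    · exact hc l
    · simpa only [abs_neg] using hc l
  have r1 := lay_rep a1 a3 hb hY hc hm hz'
  have r2 : ∀ j l, |A j l - c j * z l| ≤ (b + 1 : ℕ) * 2 ^ 128 := fun j l => by
    have := abs_sub (A j l) (c j * z l)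
    have := a3 j l
    have := mul_bd (hc j) (hz' l)
    push_cast; linarith
  have r3 : ∀ j l, A j l - c j * z l = A l j - c l * z j := fun j l => by
    rw [a2 j l]; rcases hz with ⟨-, rfl⟩ | ⟨-, rfl⟩ <;> ring
  have hb2 : ((b + 1 : ℕ) : ℤ) < 2 ^ 15 := by exact_mod_cast hb
  have r4 := small_sound he h1 (r1 p hp) fun l _ => by linarith [r2 p l]
  have r5 := fun (ω : Ω) (S : ℝ) (k : ∀ id, X id (π ω) ^ 2 ≤ S) =>
    val_relabel (m := m) (p := p) (E := 2 ^ e) (A := fun j l => A j l - c j * z l) r3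
      (fun l hl => by exact_mod_cast r4 l hl) (fun j hj => lb_set lab hn hj) k
  refine ⟨_, h3, Nat.le_of_ble_eq_true h2, fun j l => A j l - c j * z l, ?_⟩
  rcases hz with ⟨rfl, rfl⟩ | ⟨rfl, rfl⟩
  · refine ⟨L, r1, r3, r2, a4, fun ω S k1 k2 => ?_⟩
    have b1 := a5 ω S k1 k2
    have b2 := r5 ω S k1
    rw [val_sub m A z z lab] at b2
    have := mul_self_nonneg (∑ j ∈ range m, (z j : ℝ) * X (lb lab j) (π ω))
    simp only at b1 ⊢
    push_cast at b2 ⊢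
    linarith
  · refine ⟨(∑ j ∈ range m, (c j : ℝ) • X (lb lab j)) :: L, r1, r3, r2, congrArg (· + 1) a4,
      fun ω S k1 k2 => ?_⟩
    have b1 := a5 ω S k1 fun f hf => k2 f (List.mem_cons_of_mem _ hf)
    have b2 := r5 ω S k1
    have b3 := k2 _ List.mem_cons_self
    simp only [LinearMap.sum_apply, LinearMap.smul_apply, smul_eq_mul] at b3
    rw [val_sub m A c _ lab, b3] at b2
    simp only at b1 ⊢
    push_cast at b2 ⊢
    linarith

theorem elim_sound {m e b er op : ℕ} (he : e ≤ 142) (hb : b + 1 < 2 ^ 15) {s : St} {Q : Ω → ℝ}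
    {K : St → Bool} (h : Inv X π m s b er Q) (hr : elim (mkCf m (2 ^ e)) op s K = true) :
    ∃ s', K s' = true ∧ Inv X π m s' (b + 1) (er + 4 * m * 2 ^ e) Q := by
  obtain ⟨R, lab, act, cnt⟩ := s
  obtain ⟨h1, h2⟩ := cd_and.1 hr
  have hp : Nat.land op 255 < m := Nat.le_of_ble_eq_true h1
  have hn : fl op 16 65535 < 65536 := Nat.lt_succ_of_le Nat.and_le_right
  have hs : fl op 15 1 ≤ 1 := Nat.and_le_right
  generalize Nat.land op 255 = p at hp h2
  generalize fl op 16 65535 = nw at hn h2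
  generalize fl op 15 1 = sg at hs h2
  generalize guess _ _ _ _ _ = g at h2
  obtain ⟨y1, y2⟩ := land_pk m g (e := 65) (by norm_num)
  have e65 : (mkCf m (2 ^ e)).m65 = Nat.mul (ones m) (2 ^ 65 - 1) := by norm_num [mkCf]
  rw [e65] at h2
  generalize Nat.land g _ = Yb at y1 y2 h2
  have eg : (((mkCf m (2 ^ e)).go : ℕ) : ℤ) = pk m fun _ => 2 ^ 64 := by
    have : (((mkCf m (2 ^ e)).go : ℕ) : ℤ) = ones m * 2 ^ 64 := by norm_num [mkCf]
    rw [this, ones_eq, pk, pk, sum_mul]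
    exact sum_congr rfl fun l _ => by ring
  have eg2 : (((mkCf m (2 ^ e)).g2 : ℕ) : ℤ) = 2 * (mkCf m (2 ^ e)).go := by
    norm_num [mkCf]; ring
  set y : ℕ → ℤ := fun l => dg Yb l - 2 ^ 64 with hy
  have c1 : ∀ l, |y l| ≤ 2 ^ 64 := fun l => by
    have : (dg Yb l : ℤ) < 2 ^ 65 := by exact_mod_cast y2 l
    have : (0 : ℤ) ≤ dg Yb l := Int.natCast_nonneg _
    exact abs_le.2 ⟨by simp only [hy]; linarith, by simp only [hy]; linarith⟩
  have c2 : ∀ l, |(fun l => -y l) l| ≤ 2 ^ 64 := fun l => by simpa only [abs_neg] using c1 l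
  have p1 : (Yb : ℤ) = pk m fun l => y l + 2 ^ 64 := by simpa only [hy, sub_add_cancel] using y1
  have p2 : 2 * ((mkCf m (2 ^ e)).go : ℤ) - Yb = pk m fun l => (fun l => -y l) l + 2 ^ 64 := by
    rw [eg, p1, pk, pk, pk, mul_sum, ← sum_sub_distrib]
    exact sum_congr rfl fun l _ => by ring
  have p3 : ((Nat.sub (mkCf m (2 ^ e)).g2 Yb : ℕ) : ℤ) =
      pk m fun l => (fun l => -y l) l + 2 ^ 64 := by
    have : 0 ≤ 2 * ((mkCf m (2 ^ e)).go : ℤ) - Yb :=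
      p2 ▸ pk_nn fun l => by linarith [(abs_le.1 (c2 l)).1]
    rw [← p2, ← eg2, Nat.sub_eq, Nat.cast_sub (by omega)]
  have p4 : (Yb : ℤ) - (mkCf m (2 ^ e)).go = pk m y := by
    rw [eg, p1, pk, pk, pk, ← sum_sub_distrib]
    exact sum_congr rfl fun l _ => by ring
  have p5 : ((mkCf m (2 ^ e)).go : ℤ) - Yb = pk m fun l => -y l := by
    rw [eg, p1, pk, pk, pk, ← sum_sub_distrib]
    exact sum_congr rfl fun l _ => by ring
  unfold elim2 at h2
  cases h3 : Nat.ble (mkCf m (2 ^ e)).go Yb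
  · have h4 : Yb ≤ (mkCf m (2 ^ e)).go :=
      (Nat.lt_of_not_ge fun h => by simp [Nat.ble_eq_true_of_le h] at h3).le
    have p6 : ((Nat.sub (mkCf m (2 ^ e)).go Yb : ℕ) : ℤ) = pk m fun l => -y l := by
      rw [← p5, Nat.sub_eq, Nat.cast_sub h4]
    rw [h3, cd_false] at h2
    interval_cases sg
    · exact elim3_sound he hb hp hn h p1 c1 p6 (Or.inr ⟨rfl, rfl⟩) h2
    · exact elim3_sound he hb hp hn h p3 c2 p6 (Or.inl ⟨rfl, rfl⟩) h2
  · have p6 : ((Nat.sub Yb (mkCf m (2 ^ e)).go : ℕ) : ℤ) = pk m y := by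
      rw [← p4, Nat.sub_eq, Nat.cast_sub (Nat.le_of_ble_eq_true h3)]
    rw [h3, cd_true] at h2
    interval_cases sg
    · exact elim3_sound he hb hp hn h p3 c2 p6 (Or.inr ⟨rfl, by simp⟩) h2
    · exact elim3_sound he hb hp hn h p1 c1 p6 (Or.inl ⟨rfl, rfl⟩) h2

theorem Inv.mono {m b b' er er' : ℕ} {s : St} {Q Q' : Ω → ℝ} (h : Inv X π m s b er Q) (hb : b ≤ b')
    (he : er ≤ er') (hQ : ∀ ω, Q ω ≤ Q' ω) : Inv X π m s b' er' Q' := by
  obtain ⟨hc, A, L, a1, a2, a3, a4, a5⟩ := h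
  refine ⟨hc, A, L, a1, a2, fun j l => (a3 j l).trans ?_, a4, fun ω S k1 k2 => ?_⟩
  · have : (b : ℤ) ≤ b' := by exact_mod_cast hb
    linarith
  · have : (er : ℝ) * S ≤ er' * S :=
      mul_le_mul_of_nonneg_right (by exact_mod_cast he) ((sq_nonneg _).trans (k1 0))
    linarith [a5 ω S k1 k2, hQ ω]

theorem elims_sound {m e : ℕ} (he : e ≤ 142) {Q : Ω → ℝ} {K : St → Bool} (k : ℕ) :
    ∀ {b er ow : ℕ} {s : St}, b + k < 2 ^ 15 → Inv X π m s b er Q →
      elims (mkCf m (2 ^ e)) k ow s K = true →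
      ∃ s', K s' = true ∧ Inv X π m s' (b + k) (er + k * (4 * m * 2 ^ e)) Q := by
  induction k with
  | zero => exact fun _ h hr => ⟨_, hr, by simpa using h⟩
  | succ k ih =>
    intro b er ow s hb h hr
    obtain ⟨s', h1, h2⟩ := elim_sound he (by omega) h hr
    obtain ⟨s'', h3, h4⟩ := ih (by omega) h2 h1
    exact ⟨s'', h3, h4.mono (by omega) (le_of_eq (by ring)) fun _ => le_rfl⟩

end Pool.Agent.MP_48470b_gt.Gap.Mc
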