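import Mathlib.Data.Nat.Notation

/-! The elimination machine on packed rows: definitions. -/

set_option autoImplicit false

namespace Pool.Agent.MP_48470b_gt.Gap.Mc

noncomputable def cd {α : Type} (b : Bool) (x y : α) : α := Bool.rec (motive := fun _ => α) y x b

/-- evaluate a small number before continuing -/
noncomputable def lit (x : ℕ) (f : ℕ → Bool) : Bool :=
  Nat.rec (motive := fun _ => Bool) false (fun n _ => f n) (Nat.add x 1)

/-- digit `l` in base `2 ^ 144` -/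
def dg (x l : ℕ) : ℕ := Nat.land (Nat.shiftRight x (Nat.mul 144 l)) 22300745198530623141535718272648361505980415

/-- digit `l` in base `2 ^ 16` -/
def lb (x l : ℕ) : ℕ := Nat.land (Nat.shiftRight x (Nat.mul 16 l)) 65535

/-- field of the word `x` at bit `a` with mask `M` -/
def fl (x a M : ℕ) : ℕ := Nat.land (Nat.shiftRight x a) M

/-- the number with `m` digits equal to one -/
def ones (m : ℕ) : ℕ := Nat.div (Nat.sub (Nat.shiftLeft 1 (Nat.mul 144 m)) 1) 22300745198530623141535718272648361505980415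

/-- constants: number of slots, bound of a small entry, and multiples of `ones m` -/
structure Cf where
  m : ℕ
  E : ℕ
  on : ℕ
  m64 : ℕ
  m65 : ℕ
  go : ℕ
  g2 : ℕ
  mE : ℕ
  oE : ℕ

def mkCf (m E : ℕ) : Cf :=
  ⟨m, E, ones m, Nat.mul (ones m) 18446744073709551615, Nat.mul (ones m) 36893488147419103231,
    Nat.mul (ones m) 18446744073709551616, Nat.mul (ones m) 36893488147419103232,
    Nat.mul (ones m) (Nat.sub (Nat.mul 2 E) 1),
    Nat.mul (ones m) (Nat.sub 11150372599265311570767859136324180752990208 E)⟩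

/-- rows, labels, active slots, number of negative pivots -/
structure St where
  R : ℕ → ℕ
  lab : ℕ
  act : ℕ
  cnt : ℕ

/-- `r - (d - 2 ^ 64) * mag` -/
noncomputable def upd (r d mag : ℕ) : ℕ :=
  Bool.rec (motive := fun _ => ℕ) (Nat.sub r (Nat.mul (Nat.sub d 18446744073709551616) mag))
    (Bool.rec (motive := fun _ => ℕ) (Nat.add r (Nat.mul (Nat.sub 18446744073709551616 d) mag))
      (Nat.mod r 0) (Nat.beq d 18446744073709551616)) (Nat.ble d 18446744073709551616)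

noncomputable def lay (R : ℕ → ℕ) (Yc mag j : ℕ) : ℕ :=
  upd (R j) (Nat.land (Nat.shiftRight Yc (Nat.mul 144 j)) 22300745198530623141535718272648361505980415) mag

/-- a guess of the scaled pivot row (no property is needed) -/
def guess (c : Cf) (rp act a inv : ℕ) : ℕ :=
  Nat.xor (Nat.land (Nat.xor (Nat.shiftRight (Nat.add
    (Nat.mul (Nat.land (Nat.shiftRight (Nat.add rp (Nat.shiftLeft c.on (Nat.add 63 a))) a) c.m64) inv)
    (Nat.mul (Nat.sub 21778071482940061662246270685991871184896 (Nat.shiftLeft inv 63)) c.on)) 70) c.go) act) c.go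

def sm2 (c : Cf) (x : ℕ) : Bool := Nat.beq (Nat.land x c.mE) x

/-- all entries of the row are small -/
noncomputable def small (c : Cf) (r : ℕ) : Bool := cd (Nat.ble c.oE r) (sm2 c (Nat.sub r c.oE)) false

noncomputable def elim3 (c : Cf) (p nw : ℕ) (R : ℕ → ℕ) (lab act cnt : ℕ) (K : St → Bool) : Bool :=
  cd (small c (R p)) (cd (Nat.ble cnt 4)
    (K ⟨R, Nat.xor lab (Nat.shiftLeft (Nat.xor (lb lab p) nw) (Nat.mul 16 p)),
      Nat.xor act (Nat.land act (Nat.shiftLeft 36893488147419103231 (Nat.mul 144 p))), cnt⟩) false) false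

noncomputable def elim2 (c : Cf) (p nw sg Yb : ℕ) (R : ℕ → ℕ) (lab act cnt : ℕ) (K : St → Bool) :
    Bool :=
  cd (Nat.ble c.go Yb)
    (elim3 c p nw (lay R (cd (Nat.beq sg 1) Yb (Nat.sub c.g2 Yb)) (Nat.sub Yb c.go)) lab act
      (Nat.add cnt (Nat.sub 1 sg)) K)
    (elim3 c p nw (lay R (cd (Nat.beq sg 1) (Nat.sub c.g2 Yb) Yb) (Nat.sub c.go Yb)) lab act
      (Nat.add cnt (Nat.sub 1 sg)) K)

/-- one symmetric rank one update, then a new label for the slot -/
noncomputable def elim (c : Cf) (op : ℕ) (s : St) (K : St → Bool) : Bool :=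
  St.rec (motive := fun _ => Bool) (fun R lab act cnt =>
    lit (Nat.land op 255) fun p => cd (Nat.ble (Nat.add p 1) c.m)
      (elim2 c p (fl op 16 65535) (fl op 15 1)
        (Nat.land (guess c (R p) act (fl op 8 127) (fl op 32 4722366482869645213695)) c.m65)
        R lab act cnt K) false) s

noncomputable def elims (c : Cf) (k : ℕ) : ℕ → St → (St → Bool) → Bool :=
  Nat.rec (motive := fun _ => ℕ → St → (St → Bool) → Bool) (fun _ s K => K s)
    (fun _ ih ow s K => elim c ow s fun s' => ih (Nat.shiftRight ow 104) s' K) k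

/-- entries with offset `2 ^ 122` put into the slots -/
def row6 (e0 e1 e2 e3 e4 e5 : ℕ) (t : ℕ → ℕ) : ℕ :=
  Nat.add (Nat.add (Nat.add (Nat.shiftLeft e0 (Nat.mul 144 (t 0))) (Nat.shiftLeft e1 (Nat.mul 144 (t 1))))
    (Nat.add (Nat.shiftLeft e2 (Nat.mul 144 (t 2))) (Nat.shiftLeft e3 (Nat.mul 144 (t 3)))))
    (Nat.add (Nat.shiftLeft e4 (Nat.mul 144 (t 4))) (Nat.shiftLeft e5 (Nat.mul 144 (t 5))))

noncomputable def ad (s a offs j r : ℕ) : ℕ := cd (Nat.beq s j) (Nat.sub (Nat.add r a) offs) r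

noncomputable def slow (e : ℕ → ℕ → ℕ) (t : ℕ → ℕ) (offs j r : ℕ) : ℕ :=
  ad (t 5) (row6 (e 0 5) (e 1 5) (e 2 5) (e 3 5) (e 4 5) (e 5 5) t) offs j
  (ad (t 4) (row6 (e 0 4) (e 1 4) (e 2 4) (e 3 4) (e 4 4) (e 4 5) t) offs j
  (ad (t 3) (row6 (e 0 3) (e 1 3) (e 2 3) (e 3 3) (e 3 4) (e 3 5) t) offs j
  (ad (t 2) (row6 (e 0 2) (e 1 2) (e 2 2) (e 2 3) (e 2 4) (e 2 5) t) offs j
  (ad (t 1) (row6 (e 0 1) (e 1 1) (e 1 2) (e 1 3) (e 1 4) (e 1 5) t) offs j
  (ad (t 0) (row6 (e 0 0) (e 0 1) (e 0 2) (e 0 3) (e 0 4) (e 0 5) t) offs j r)))))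

noncomputable def addL (R : ℕ → ℕ) (bits : ℕ) (f : ℕ → ℕ → ℕ) (j : ℕ) : ℕ :=
  Bool.rec (motive := fun _ => ℕ) (f j (R j)) (Nat.mod (R j) 0)
    (Nat.beq (Nat.land (Nat.shiftRight bits j) 1) 0)

def bits6 (t : ℕ → ℕ) : ℕ :=
  Nat.lor (Nat.lor (Nat.lor (Nat.shiftLeft 1 (t 0)) (Nat.shiftLeft 1 (t 1)))
    (Nat.lor (Nat.shiftLeft 1 (t 2)) (Nat.shiftLeft 1 (t 3))))
    (Nat.lor (Nat.shiftLeft 1 (t 4)) (Nat.shiftLeft 1 (t 5)))

def act6 (t : ℕ → ℕ) : ℕ :=
  Nat.lor (Nat.lor (Nat.lor (Nat.shiftLeft 36893488147419103231 (Nat.mul 144 (t 0)))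
    (Nat.shiftLeft 36893488147419103231 (Nat.mul 144 (t 1))))
    (Nat.lor (Nat.shiftLeft 36893488147419103231 (Nat.mul 144 (t 2)))
    (Nat.shiftLeft 36893488147419103231 (Nat.mul 144 (t 3)))))
    (Nat.lor (Nat.shiftLeft 36893488147419103231 (Nat.mul 144 (t 4)))
    (Nat.shiftLeft 36893488147419103231 (Nat.mul 144 (t 5))))

/-- the slot of face `x` -/
def slot (ax x : ℕ) : ℕ := Nat.land (Nat.shiftRight ax (Nat.add 448 (Nat.mul 8 x))) 255

/-- name of a face -/
def fid (t a b : ℕ) : ℕ := Nat.add (Nat.mul (Nat.add (Nat.mul t 32) a) 32) b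

noncomputable def chk (c : Cf) (lab s id : ℕ) (b : Bool) : Bool :=
  cd (Nat.ble (Nat.add s 1) c.m) (cd (Nat.beq (lb lab s) id) b false) false

noncomputable def cell2 (c : Cf) (ax i j k : ℕ) (t : ℕ → ℕ) (e : ℕ → ℕ → ℕ) (s : St)
    (K : St → Bool) : Bool :=
  St.rec (motive := fun _ => Bool) (fun R lab act cnt =>
    chk c lab (t 0) (fid i j k) (chk c lab (t 1) (fid (Nat.add i 1) j k)
    (chk c lab (t 2) (fid j i k) (chk c lab (t 3) (fid (Nat.add j 1) i k)
    (chk c lab (t 4) (fid k i j) (chk c lab (t 5) (fid (Nat.add k 1) i j)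
    (elims c (fl ax 496 7) (Nat.shiftRight ax 500)
      ⟨addL R (bits6 t) (slow e t (row6 5316911983139663491615228241121378304 5316911983139663491615228241121378304
        5316911983139663491615228241121378304 5316911983139663491615228241121378304
        5316911983139663491615228241121378304 5316911983139663491615228241121378304 t)),
        lab, Nat.lor act (act6 t), cnt⟩ K))))))) s

/-- one cell: `lk` is the local stage -/
noncomputable def cell (c : Cf) (lk : ℕ → ℕ → ℕ → ℕ → ((ℕ → ℕ → ℕ) → Bool) → Bool) (ax i j k : ℕ)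
    (s : St) (K : St → Bool) : Bool :=
  lk ax i j k fun e => cell2 c ax i j k (slot ax) e s K

/-- `f a, f (a + 1), .., f (a + k - 1)` -/
noncomputable def iter (f : ℕ → St → (St → Bool) → Bool) (k : ℕ) : ℕ → St → (St → Bool) → Bool :=
  Nat.rec (motive := fun _ => ℕ → St → (St → Bool) → Bool) (fun _ s K => K s)
    (fun _ ih a s K => lit a fun a => f a s fun s' => ih (Nat.add a 1) s' K) k

/-- `P j` for all `j < k`, then `b` -/
noncomputable def allB (P : ℕ → Bool) (b : Bool) (k : ℕ) : Bool :=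
  Nat.rec (motive := fun _ => Bool) b (fun j ih => cd (P j) ih false) k

noncomputable def touch (c : Cf) (s : St) (b : Bool) : Bool :=
  St.rec (motive := fun _ => Bool) (fun R _ _ _ => allB (fun j => Nat.ble 0 (R j)) b c.m) s

noncomputable def runI (c : Cf) (lk : ℕ → ℕ → ℕ → ℕ → ((ℕ → ℕ → ℕ) → Bool) → Bool)
    (ax : ℕ → ℕ → ℕ → ℕ) (n j i : ℕ) (s : St) (K : St → Bool) : Bool :=
  touch c s (iter (fun k => cell c lk (ax i j k) i j k) (Nat.sub n j) j s K)

noncomputable def runJ (c : Cf) (lk : ℕ → ℕ → ℕ → ℕ → ((ℕ → ℕ → ℕ) → Bool) → Bool)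
    (ax : ℕ → ℕ → ℕ → ℕ) (n j : ℕ) (s : St) (K : St → Bool) : Bool :=
  iter (runI c lk ax n j) (Nat.add j 1) 0 s K

noncomputable def same (c : Cf) (t s : St) : Bool :=
  St.rec (motive := fun _ => Bool) (fun R lab _ cnt =>
    allB (fun j => Nat.beq (R j) (t.R j)) (cd (Nat.beq lab t.lab) (Nat.beq cnt t.cnt) false) c.m) s

/-- the layers `j0 .. j0 + nj - 1` lead from state `s` to state `t` -/
noncomputable def chunk (c : Cf) (lk : ℕ → ℕ → ℕ → ℕ → ((ℕ → ℕ → ℕ) → Bool) → Bool)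
    (ax : ℕ → ℕ → ℕ → ℕ) (n j0 nj : ℕ) (s t : St) : Bool :=
  iter (runJ c lk ax n) nj j0 s (same c t)

/-- entry `j` of a list -/
noncomputable def nth (l : List ℕ) : ℕ → ℕ :=
  List.rec (motive := fun _ => ℕ → ℕ) (fun _ => 0)
    (fun x _ ih j => Nat.rec (motive := fun _ => ℕ) x (fun j' _ => ih j') j) l

/-- word of the cell `i, j, k` in a table with one number per middle index -/
noncomputable def tbl (T : List ℕ) (n bits i j k : ℕ) : ℕ :=
  Nat.mod (Nat.shiftRight (nth T j) (Nat.mul bits (Nat.add (Nat.mul i (Nat.sub n j)) (Nat.sub k j))))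
    (Nat.shiftLeft 1 bits)

end Pool.Agent.MP_48470b_gt.Gap.Mc
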