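import Mathlib
import Pool.Agent.MP_48470b_gt.Gap.Mach

/-! Semantics of the states of the elimination machine. -/

set_option autoImplicit false

open Finset

namespace Pool.Agent.MP_48470b_gt.Gap.Mc

/-- packing in base `2 ^ 144` -/
def pk (m : ℕ) (a : ℕ → ℤ) : ℤ := ∑ l ∈ range m, a l * 2 ^ (144 * l)

/-- the rows `R` represent the matrix `A` -/
def Rep (m : ℕ) (R : ℕ → ℕ) (A : ℕ → ℕ → ℤ) : Prop :=
  ∀ j < m, (R j : ℤ) = pk m fun l => A j l + 2 ^ 143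

/-- the value of the form at the labelled unknowns -/
noncomputable def val (m : ℕ) (A : ℕ → ℕ → ℤ) (lab : ℕ) (x : ℕ → ℝ) : ℝ :=
  ∑ j ∈ range m, ∑ l ∈ range m, (A j l : ℝ) * (x (lb lab j) * x (lb lab l))

/-- the invariant: the state is a lower bound of `Q` up to the error `er` on the common kernel of
`s.cnt` functionals -/
def Inv {V Ω : Type} [AddCommGroup V] [Module ℝ V] (X : ℕ → V →ₗ[ℝ] ℝ) (π : Ω → V) (m : ℕ) (s : St)
    (b er : ℕ) (Q : Ω → ℝ) : Prop :=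
  s.cnt ≤ 4 ∧ ∃ (A : ℕ → ℕ → ℤ) (L : List (V →ₗ[ℝ] ℝ)), Rep m s.R A ∧ (∀ j l, A j l = A l j) ∧
    (∀ j l, |A j l| ≤ b * 2 ^ 128) ∧ L.length = s.cnt ∧
    ∀ (ω : Ω) (S : ℝ), (∀ id, X id (π ω) ^ 2 ≤ S) → (∀ f ∈ L, f (π ω) = 0) →
      val m A s.lab (fun id => X id (π ω)) - er * S ≤ Q ω

/-- the matrix added by one cell -/
def addM (e : ℕ → ℕ → ℕ) (t : ℕ → ℕ) (j l : ℕ) : ℤ :=
  ∑ x ∈ range 6, ∑ y ∈ range 6,
    if t x = j ∧ t y = l then (e (min x y) (max x y) : ℤ) - 2 ^ 122 else 0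

theorem cd_true {α : Type} (x y : α) : cd true x y = x := rfl
theorem cd_false {α : Type} (x y : α) : cd false x y = y := rfl

theorem cd_and {a b : Bool} : cd a b false = true ↔ a = true ∧ b = true := by
  cases a <;> simp [cd]

theorem lit_eq (x : ℕ) (f : ℕ → Bool) : lit x f = f x := rfl

end Pool.Agent.MP_48470b_gt.Gap.Mc
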